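import Pool.Agent.V8H94.CT.Weil

/-!
# Products of Weil numbers
-/

set_option autoImplicit false

namespace Pool.Agent.V8H94.CT

open Module Polynomial

variable {p : ℕ} [Fact p.Prime] {Ω : Type} [Field Ω] [CharZero Ω] [IsAlgClosed Ω]

/-- The products of `n` elements of `Y`. -/
def prodSet (Y : Set Ω) (n : ℕ) : Set Ω :=
  {w | ∃ y : Fin n → Ω, (∀ t, y t ∈ Y) ∧ w = ∏ t, y t}

omit [CharZero Ω] [IsAlgClosed Ω] in
theorem prodSet_finite {Y : Set Ω} (hY : Y.Finite) (n : ℕ) : (prodSet Y n).Finite := by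
  refine ((Set.Finite.pi' fun _ : Fin n => hY).image fun y => ∏ t, y t).subset ?_
  rintro w ⟨y, hy, rfl⟩
  exact ⟨y, hy, rfl⟩

/-- A root of the minimal polynomial is the image under an embedding of the algebraic numbers. -/
theorem exists_emb_of_root (x : algebraicClosure ℚ Ω) {z : Ω}
    (hz : aeval z (minpoly ℚ (x : Ω)) = 0) :
    ∃ ψ : algebraicClosure ℚ Ω →ₐ[ℚ] Ω, ψ x = z := by
  have hm : minpoly ℚ (x : Ω) = minpoly ℚ x :=
    minpoly.algebraMap_eq (algebraMap (algebraicClosure ℚ Ω) Ω).injective x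
  have : Algebra.IsAlgebraic ℚ (algebraicClosure ℚ Ω) := algebraicClosure.isAlgebraic ℚ Ω
  rw [hm] at hz
  have h2 : z ∈ (minpoly ℚ x).rootSet Ω := by
    rw [mem_rootSet]
    exact ⟨minpoly.ne_zero (Algebra.IsIntegral.isIntegral x), hz⟩
  rw [← Algebra.IsAlgebraic.range_eval_eq_rootSet_minpoly (F := ℚ)
    (K := algebraicClosure ℚ Ω) Ω x] at h2
  obtain ⟨ψ, hψ⟩ := h2
  exact ⟨ψ, hψ⟩

omit [IsAlgClosed Ω] in
theorem root_of_emb (ψ : algebraicClosure ℚ Ω →ₐ[ℚ] Ω) (x : algebraicClosure ℚ Ω) :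
    aeval (ψ x) (minpoly ℚ (x : Ω)) = 0 := by
  have hm : minpoly ℚ (x : Ω) = minpoly ℚ x :=
    minpoly.algebraMap_eq (algebraMap (algebraicClosure ℚ Ω) Ω).injective x
  rw [hm, Polynomial.aeval_algHom_apply, minpoly.aeval, map_zero]

theorem prodSet_isWeil {Y : Set Ω} {m : ℕ} (hY : ∀ y ∈ Y, IsWeil p (2 * m) y) (n : ℕ) {w : Ω}
    (hw : w ∈ prodSet Y n) : IsWeil p (2 * (m * n)) w := by
  obtain ⟨y, hy, rfl⟩ := hw
  have hint : IsIntegral ℤ (∏ t, y t) := IsIntegral.prod y fun t _ => (hY _ (hy t)).1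
  refine ⟨hint, ?_⟩
  choose x hx using fun t => exists_lift (isAlgebraic_of_isIntegral (hY _ (hy t)).1)
  have h1 : ((∏ t, x t : algebraicClosure ℚ Ω) : Ω) = ∏ t, y t := by
    push_cast
    exact Finset.prod_congr rfl fun t _ => hx t
  have h2 := (forall_conj (fun z => ‖z‖ ^ 2 = (p : ℝ) ^ (2 * (m * n))) (∏ t, x t))
  rw [h1] at h2
  rw [h2]
  intro σ
  have h3 : ∀ t, ‖σ (x t)‖ ^ 2 = (p : ℝ) ^ (2 * m) := fun t => by
    have h4 := (hY _ (hy t)).2
    rw [← hx t] at h4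
    exact (forall_conj (fun z => ‖z‖ ^ 2 = (p : ℝ) ^ (2 * m)) (x t)).1 h4 σ
  rw [map_prod, norm_prod, ← Finset.prod_pow, Finset.prod_congr rfl fun t _ => h3 t,
    Finset.prod_const, Finset.card_univ, Fintype.card_fin, ← pow_mul, mul_assoc]

theorem prodSet_root {Y : Set Ω} (hint : ∀ y ∈ Y, IsIntegral ℤ y)
    (hroot : ∀ y ∈ Y, ∀ z : Ω, aeval z (minpoly ℚ y) = 0 → z ∈ Y) (n : ℕ) {w : Ω}
    (hw : w ∈ prodSet Y n) {z : Ω} (hz : aeval z (minpoly ℚ w) = 0) : z ∈ prodSet Y n := by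
  obtain ⟨y, hy, rfl⟩ := hw
  choose x hx using fun t => exists_lift (isAlgebraic_of_isIntegral (hint _ (hy t)))
  have h1 : ((∏ t, x t : algebraicClosure ℚ Ω) : Ω) = ∏ t, y t := by
    push_cast
    exact Finset.prod_congr rfl fun t _ => hx t
  rw [← h1] at hz
  obtain ⟨ψ, hψ⟩ := exists_emb_of_root _ hz
  refine ⟨fun t => ψ (x t), fun t => hroot _ (hy t) _ ?_, by rw [← hψ, map_prod]⟩
  rw [← hx t]
  exact root_of_emb ψ (x t)

/-- The squares of the Frobenius eigenvalues of `A`, and `q`. -/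
def squareSet (A : AbVar p Ω) : Set Ω :=
  {y | ∃ (a : Ω) (v : A.H), v ≠ 0 ∧ A.F v = a • v ∧ y = a ^ 2} ∪ {(p : Ω) ^ A.m}

omit [IsAlgClosed Ω] in
theorem eigen_iff (A : AbVar p Ω) (a : Ω) :
    (∃ v : A.H, v ≠ 0 ∧ A.F v = a • v) ↔ A.F.charpoly.IsRoot a := by
  rw [← Module.End.hasEigenvalue_iff_isRoot_charpoly]
  constructor
  · rintro ⟨v, hv, h⟩
    exact Module.End.hasEigenvalue_of_hasEigenvector ⟨Module.End.mem_eigenspace_iff.2 h, hv⟩
  · intro h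
    obtain ⟨v, hv⟩ := h.exists_hasEigenvector
    exact ⟨v, hv.2, hv.apply_eq_smul⟩

omit [IsAlgClosed Ω] in
theorem squareSet_finite (A : AbVar p Ω) : (squareSet A).Finite := by
  refine Set.Finite.union ?_ (Set.finite_singleton _)
  have h1 : {a : Ω | A.F.charpoly.IsRoot a}.Finite :=
    (A.F.charpoly.rootSet_finite Ω).subset fun a ha => by
      rw [mem_rootSet]
      exact ⟨(LinearMap.charpoly_monic _).ne_zero, by simpa using ha⟩
  refine (h1.image fun a => a ^ 2).subset ?_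
  rintro y ⟨a, v, hv, h, rfl⟩
  exact ⟨a, (eigen_iff A a).1 ⟨v, hv, h⟩, rfl⟩

theorem isWeil_natPow (m : ℕ) : IsWeil p (2 * m) ((p : Ω) ^ m) :=
  (isIsotypic_curve (p := p) (k := m)).isWeil (by simp)

theorem squareSet_isWeil (A : AbVar p Ω) {y : Ω} (hy : y ∈ squareSet A) : IsWeil p (2 * A.m) y := by
  rcases hy with ⟨a, v, hv, h, rfl⟩ | hy
  · rw [mul_comm]
    exact (isWeil_of_eigen A hv h).pow two_pos
  · rw [Set.mem_singleton_iff.1 hy]
    exact isWeil_natPow A.m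

theorem eigen_root (A : AbVar p Ω) {a : Ω} {v : A.H} (hv : v ≠ 0) (h : A.F v = a • v) {b : Ω}
    (hb : aeval b (minpoly ℚ a) = 0) : ∃ u : A.H, u ≠ 0 ∧ A.F u = b • u := by
  rw [eigen_iff]
  obtain ⟨f, hf, hc⟩ := A.frob
  have h1 := (eigen_iff A a).1 ⟨v, hv, h⟩
  rw [hc, IsRoot.def, eval_map] at h1 ⊢
  obtain ⟨g, hg⟩ := minpoly.dvd ℚ a (p := f) h1
  rw [hg, ← aeval_def, map_mul, hb, zero_mul]

theorem squareSet_root (A : AbVar p Ω) {y : Ω} (hy : y ∈ squareSet A) {z : Ω}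
    (hz : aeval z (minpoly ℚ y) = 0) : z ∈ squareSet A := by
  rcases hy with ⟨a, v, hv, h, rfl⟩ | hy
  · left
    obtain ⟨x, hx⟩ := exists_lift (isAlgebraic_of_isIntegral (isWeil_of_eigen A hv h).1)
    have h1 : ((x ^ 2 : algebraicClosure ℚ Ω) : Ω) = a ^ 2 := by push_cast; rw [hx]
    rw [← h1] at hz
    obtain ⟨ψ, hψ⟩ := exists_emb_of_root _ hz
    have h2 := root_of_emb ψ x
    rw [hx] at h2
    obtain ⟨u, hu, hu'⟩ := eigen_root A hv h h2
    exact ⟨ψ x, u, hu, hu', by rw [← hψ, map_pow]⟩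
  · right
    rw [Set.mem_singleton_iff] at hy ⊢
    subst hy
    have h1 : minpoly ℚ ((p : Ω) ^ A.m) = X - C ((p : ℚ) ^ A.m) :=
      (minpoly.eq_of_irreducible_of_monic (irreducible_X_sub_C _) (by simp)
        (monic_X_sub_C _)).symm
    rw [h1, map_sub, aeval_X, aeval_C, sub_eq_zero] at hz
    rw [hz]
    simp

theorem q_mem_squareSet (A : AbVar p Ω) : (p : Ω) ^ A.m ∈ squareSet A := Or.inr rfl

end Pool.Agent.V8H94.CT
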