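import Pool.Agent.V8H94.CT.Gtc
import Pool.Agent.V8H71.TC.Box

/-!
# The generalised Tate conjecture for abelian varieties with Frobenius eigenvalues in a box
-/

set_option autoImplicit false

namespace Pool.Agent.V8H94.CT

open Module Polynomial Pool.Agent.V8H71.TC

variable {p : ℕ} [Fact p.Prime] {Ω : Type} [Field Ω] [CharZero Ω]

/-- The Weil numbers in the set `W` are described by all odd functions `τ w` on a finite set with
absolute values at most `e` (their slopes at the places above `p`). -/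
structure IsBox (p : ℕ) {Ω : Type} [Field Ω] [CharZero Ω] (κ : ℕ) (W : Set Ω)
    {X : Type} (inv : X → X) (e : X → ℕ) (τ : Ω → X → ℤ) : Prop where
  κ_pos : 0 < κ
  inv_inv : ∀ x, inv (inv x) = x
  e_inv : ∀ x, e (inv x) = e x
  weil : ∀ w ∈ W, IsWeil p (2 * κ) w
  root : ∀ w ∈ W, ∀ b : Ω, aeval b (minpoly ℚ w) = 0 → b ∈ W
  base : (p : Ω) ^ κ ∈ W
  τ_base : τ ((p : Ω) ^ κ) = 0
  conj : ∀ w ∈ W, (p : Ω) ^ (2 * κ) / w ∈ W
  τ_conj : ∀ w ∈ W, τ ((p : Ω) ^ (2 * κ) / w) = - τ w
  odd : ∀ w ∈ W, ∀ x, τ w (inv x) = - τ w x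
  bound : ∀ w ∈ W, ∀ x, |τ w x| ≤ e x
  surj : ∀ T : X → ℤ, (∀ x, T (inv x) = - T x) → (∀ x, |T x| ≤ e x) → ∃ w ∈ W, τ w = T
  rel : ∀ s : Multiset Ω, (∀ w ∈ s, w ∈ W) →
    ((∃ k : ℕ, 0 < k ∧ s.prod ^ k = (((p : Ω) ^ κ) ^ (Multiset.card s)) ^ k) ↔
      (s.map τ).sum = 0)
  int : ∀ s : Multiset Ω, (∀ w ∈ s, w ∈ W) → ∀ r : ℕ,
    IsIntegral ℤ (s.prod / (p : Ω) ^ (2 * κ * r)) →
      ∀ x, |(s.map τ).sum x| ≤ ((Multiset.card s : ℤ) - 2 * r) * e x

/-- Up to powers the Frobenius eigenvalues of `A` are in the set `W` of Weil numbers for `p ^ k`. -/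
def EigenIn (k : ℕ) (W : Set Ω) (A : AbVar p Ω) : Prop :=
  ∀ (a : Ω) (v : A.H), v ≠ 0 → A.F v = a • v →
    ∃ w ∈ W, ∃ i j : ℕ, 0 < i ∧ 0 < j ∧ i * A.m = j * k ∧ a ^ i = w ^ j

/-- The classes of degree `j + 2 * r` which, if the generalised Tate conjecture is true, are
supported in codimension `r`: linear combinations of eigenvectors of Frobenius whose eigenvalues
are divisible by `q ^ r`. -/
def Effective (A : AbVar p Ω) (j r : ℕ) : Submodule Ω (ExteriorAlgebra Ω A.H) :=
  Submodule.span Ω {x | x ∈ ⋀[Ω]^(j + 2 * r) A.H ∧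
    ∃ a : Ω, ExteriorAlgebra.map A.F x = a • x ∧ IsIntegral ℤ (a / (p : Ω) ^ (A.m * r))}

/-- The classes of degree `j + 2 * r` on `A` which are supported in codimension `r`: linear
combinations of pull-backs under homomorphisms (defined over finite extensions) of classes as in
`Coniveau`. -/
def Supported (S : CycleSystem p Ω) (A : AbVar p Ω) (j r : ℕ) :
    Submodule Ω (ExteriorAlgebra Ω A.H) :=
  Submodule.span Ω {x | ∃ (B : AbVar p Ω) (h : B.H →ₗ[Ω] A.H) (y : ExteriorAlgebra Ω B.H),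
    IsHom A B h ∧ y ∈ Coniveau S B j r ∧ x = ExteriorAlgebra.map h y}

theorem exists_lift_list {α β : Type} {P : α → Prop} (f : α → β) (l : List β)
    (hl : ∀ b ∈ l, ∃ a, P a ∧ f a = b) : ∃ l' : List α, l'.map f = l ∧ ∀ a ∈ l', P a := by
  induction l with
  | nil => exact ⟨[], rfl, by simp⟩
  | cons b l ih =>
    obtain ⟨l', h1, h2⟩ := ih fun b hb => hl b (List.mem_cons_of_mem _ hb)
    obtain ⟨a, ha, hab⟩ := hl b List.mem_cons_self
    refine ⟨a :: l', by rw [List.map_cons, hab, h1], fun x hx => ?_⟩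
    rcases List.mem_cons.1 hx with rfl | hx
    · exact ha
    · exact h2 x hx

theorem prodDivList (c : Ω) (l : List Ω) :
    (l.map fun w => c / w).prod = c ^ l.length / l.prod := by
  induction l with
  | nil => simp
  | cons w l ih =>
    rw [List.map_cons, List.prod_cons, ih, List.length_cons, List.prod_cons, pow_succ,
      div_mul_div_comm, mul_comm c]

/-- For Weil numbers `u` in the box with `prod u / q ^ r` integral there are Weil numbers `w` in the
box, `2 * r` fewer, with `prod u = q ^ r * prod w` up to a root of unity. -/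
theorem IsBox.exists_quotient [IsAlgClosed Ω] {κ : ℕ} {W : Set Ω} {X : Type} {inv : X → X} {e : X → ℕ}
    {τ : Ω → X → ℤ} (hB : IsBox p κ W inv e τ) (u : List Ω) (hu : ∀ w ∈ u, w ∈ W) (j r : ℕ)
    (hlen : u.length = j + 2 * r) (hint : IsIntegral ℤ (u.prod / (p : Ω) ^ (2 * κ * r))) :
    ∃ w : List Ω, w.length = j ∧ (∀ x ∈ w, x ∈ W) ∧ ∃ s : ℕ, 0 < s ∧
      u.prod ^ s = ((p : Ω) ^ (2 * κ * r) * w.prod) ^ s := by
  have hp : (p : Ω) ≠ 0 := p_ne_zero
  have hsum : ∀ (l : List Ω), (((l : Multiset Ω).map τ).sum) = (l.map τ).sum := by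
    intro l
    rw [Multiset.map_coe, Multiset.sum_coe]
  set s : X → ℤ := (u.map τ).sum with hs
  have hodd : ∀ (l : List Ω), (∀ w ∈ l, w ∈ W) → ∀ x, (l.map τ).sum (inv x) = - (l.map τ).sum x := by
    intro l
    induction l with
    | nil => intro _ x; simp
    | cons w l ih =>
      intro h x
      rw [List.map_cons, List.sum_cons, Pi.add_apply, Pi.add_apply, hB.odd w (h w (by simp)),
        ih (fun w hw => h w (List.mem_cons_of_mem _ hw))]
      ring
  obtain ⟨l, hl, hlB, hls⟩ := exists_sum_box (c := inv) (b := e) hB.e_inv j s (hodd u hu) (by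
    intro x
    have h1 := hB.int (u : Multiset Ω) (by simpa using hu) r (by simpa using hint) x
    rw [hsum, Multiset.coe_card, hlen] at h1
    push_cast at h1
    rwa [show ((j : ℤ) + 2 * r - 2 * r) = j by ring] at h1)
  obtain ⟨w, hw, hwW⟩ := exists_lift_list (P := fun w => w ∈ W) τ l fun T hT => by
    obtain ⟨w, h1, h2⟩ := hB.surj T (hlB T hT).1 (hlB T hT).2
    exact ⟨w, h1, h2⟩
  have hwlen : w.length = j := by rw [← hl, ← hw, List.length_map]
  have hτc : ∀ l : List Ω, (∀ w ∈ l, w ∈ W) →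
      ((l.map fun w => (p : Ω) ^ (2 * κ) / w).map τ).sum = - (l.map τ).sum := by
    intro l
    induction l with
    | nil => intro _; simp
    | cons w l ih =>
      intro h
      rw [List.map_cons, List.map_cons, List.sum_cons, List.map_cons, List.sum_cons,
        hB.τ_conj w (h w (by simp)), ih (fun w hw => h w (List.mem_cons_of_mem _ hw))]
      abel
  have hrel := (hB.rel ((u ++ w.map fun w => (p : Ω) ^ (2 * κ) / w : List Ω) : Multiset Ω) (by
    intro x hx
    rw [Multiset.mem_coe, List.mem_append] at hx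
    rcases hx with hx | hx
    · exact hu x hx
    · obtain ⟨y, hy, rfl⟩ := List.mem_map.1 hx
      exact hB.conj y (hwW y hy))).2 (by
    rw [hsum, List.map_append, List.sum_append, hτc w hwW, hw, hls, hs]
    abel)
  obtain ⟨k, hk, hrel⟩ := hrel
  refine ⟨w, hwlen, hwW, k, hk, ?_⟩
  have hw0 : w.prod ≠ 0 := by
    intro h0
    rw [List.prod_eq_zero_iff] at h0
    exact (hB.weil 0 (hwW 0 h0)).ne_zero rfl
  rw [Multiset.prod_coe, List.prod_append, prodDivList, Multiset.coe_card, List.length_append,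
    List.length_map, hlen, hwlen] at hrel
  have e1 : (p : Ω) ^ (2 * κ * r) * w.prod = ((p : Ω) ^ κ) ^ (j + 2 * r + j) *
      (w.prod / ((p : Ω) ^ (2 * κ)) ^ j) := by
    field_simp
    rw [← pow_mul, ← pow_mul, ← pow_add]
    congr 1
    ring
  rw [e1, mul_pow, ← hrel, ← mul_pow]
  congr 1
  field_simp

/-- **The generalised Tate conjecture** for abelian varieties with Frobenius eigenvalues in a box,
if all Tate classes on such abelian varieties belong to the system. -/
theorem effective_le_supported [IsAlgClosed Ω] {S : CycleSystem p Ω} {κ : ℕ} {W : Set Ω}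
    {X : Type} {inv : X → X} {e : X → ℕ} {τ : Ω → X → ℤ} (hB : IsBox p κ W inv e τ)
    (hS : ∀ B : AbVar p Ω, B.m = 2 * κ →
      (∀ (a : Ω) (v : B.H), v ≠ 0 → B.F v = a • v → a ∈ W) →
      ∀ (r : ℕ) (x : ExteriorAlgebra Ω B.H), IsTate B r x → x ∈ S.C B)
    (A : AbVar p Ω) (hA : EigenIn (2 * κ) W A) (j r : ℕ) :
    Effective A j r ≤ Supported S A j r := by
  classical
  have hp : (p : Ω) ≠ 0 := p_ne_zero
  have hκ : 0 < 2 * κ := Nat.mul_pos two_pos hB.κ_pos
  refine Submodule.span_le.2 ?_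
  rintro x ⟨hx, a, hxa, hint⟩
  have h1 := mem_span_eigen A.F A.span_eigen (j + 2 * r) 1 a x hx (by rw [pow_one]; exact hxa)
  refine Submodule.span_le.2 ?_ h1
  rintro _ ⟨v, b, hv0, hv, hprod, rfl⟩
  choose w hwW i' j' hi' hj' hij hbw using fun l => hA (b l) (v l) (hv0 l) (hv l)
  -- common exponents
  obtain ⟨I, hI, hIw⟩ : ∃ I : ℕ, 0 < I ∧ ∀ l, b l ^ (2 * κ * I) = w l ^ (A.m * I) := by
    refine ⟨∏ l, i' l, Finset.prod_pos fun l _ => hi' l, fun l => ?_⟩
    obtain ⟨t, ht⟩ := Finset.dvd_prod_of_mem i' (Finset.mem_univ l)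
    rw [ht, show 2 * κ * (i' l * t) = i' l * (2 * κ * t) by ring, pow_mul, hbw, ← pow_mul,
      show A.m * (i' l * t) = j' l * (2 * κ * t) by
        rw [show A.m * (i' l * t) = (i' l * A.m) * t by ring, hij]; ring]
  have hlenW : (List.ofFn w).length = j + 2 * r := List.length_ofFn
  obtain ⟨D, u, hDm, hDW, hu, hD⟩ := exists_universal (p := p) hκ hB.root (List.ofFn w) (by
    intro x hx
    obtain ⟨l, rfl⟩ := (List.mem_ofFn' _ x).1 hx
    exact ⟨hB.weil _ (hwW l), hwW l⟩)
  obtain ⟨h, hh, hhu⟩ := hD A (2 * κ * I) (A.m * I) (fun l => v (Fin.cast hlenW l)) (by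
    intro l
    rw [pow_apply_eigen (hv _), hIw, List.get_ofFn])
  have hhom : IsHom A D h := ⟨2 * κ * I, A.m * I, Nat.mul_pos hκ hI, Nat.mul_pos A.m_pos hI, by
    rw [hDm]; ring, hh⟩
  -- the eigenvectors on `D`
  let U : List (Ω × D.H) := List.ofFn fun l : Fin (j + 2 * r) => (w l, u (Fin.cast hlenW.symm l))
  have hU : ∀ x ∈ U, D.F x.2 = x.1 • x.2 := by
    intro x hx
    obtain ⟨l, rfl⟩ := (List.mem_ofFn' _ x).1 hx
    change D.F (u (Fin.cast hlenW.symm l)) = w l • u (Fin.cast hlenW.symm l)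
    rw [hu, List.get_ofFn]
    rfl
  have hUlen : U.length = j + 2 * r := List.length_ofFn
  have hU1 : U.map Prod.fst = List.ofFn w := by
    simp only [U, List.map_ofFn]
    rfl
  have hU2 : (U.map Prod.snd).map h = List.ofFn v := by
    simp only [U, List.map_ofFn]
    congr 1
    funext l
    exact hhu _
  -- integrality
  have hint' : IsIntegral ℤ ((List.ofFn w).prod / (p : Ω) ^ (2 * κ * r)) := by
    refine IsIntegral.of_pow (n := A.m * I) (Nat.mul_pos A.m_pos hI) ?_
    have e1 : ((List.ofFn w).prod / (p : Ω) ^ (2 * κ * r)) ^ (A.m * I) =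
        (a / (p : Ω) ^ (A.m * r)) ^ (2 * κ * I) := by
      rw [div_pow, div_pow, List.prod_ofFn, ← Finset.prod_pow, ← hprod]
      have e2 : ∏ l, w l ^ (A.m * I) = (∏ l, b l ^ 1) ^ (2 * κ * I) := by
        rw [← Finset.prod_pow]
        refine Finset.prod_congr rfl fun l _ => ?_
        rw [pow_one, hIw]
      rw [e2, ← pow_mul, ← pow_mul]
      congr 2
      ring
    rw [e1]
    exact hint.pow _
  obtain ⟨w', hw'len, hw'W, s, hs, hw'⟩ := hB.exists_quotient (List.ofFn w) (by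
    intro x hx
    obtain ⟨l, rfl⟩ := (List.mem_ofFn' _ x).1 hx
    exact hwW l) j r hlenW hint'
  have hcon := mem_coniveau (S := S) (A := D) hB.root (fun w hw => by rw [hDm]; exact hB.weil w hw)
    hDW (fun B hBm => hS B (by rw [hBm, hDm])) r U hU w' hw'W (by rw [hUlen, hw'len]) hs (by
      rw [hU1, hw', hDm])
  rw [hw'len] at hcon
  refine Submodule.subset_span ⟨D, h, _, hhom, hcon, ?_⟩
  rw [map_wedge, hU2, ofFn_wedge]

end Pool.Agent.V8H94.CT
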