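import Pool.Agent.V8H94.CT.PubDefs

/-!
# The generalised Tate conjecture: definitions
-/

set_option autoImplicit false

namespace Pool.Agent.V8H94.TC

open Module Pool.Agent.V8H94.CT

variable {p : ℕ} [Fact p.Prime] {Ω : Type} [Field Ω] [CharZero Ω]

/-- The push-forward to `A` of the class `w` on `A × C` is a non-zero multiple of `x`: the class `w` is
the exterior product of `x` with the class of a point of `C`, up to a factor. -/
def IsPush (A C : AbVar p Ω) (hm : A.m = C.m) (w : Coh (A.prod C hm)) (x : Coh A) : Prop :=
  ∃ (n : ℕ) (b : Basis (Fin n) Ω C.H), w = pullFst A C hm x * pullSnd A C hm (point C b)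

/-- The class `x` of degree `j + 2 * r` on `A` is the image of a class `y` of degree `j` on an abelian
variety `C` under a correspondence `z` in the system, a class of codimension `r + dim C` on `A × C`.
If `z` is a linear combination of classes of algebraic cycles then `x` is supported in codimension
`r`, since the projections of these cycles to `A` have codimension at least `r`. -/
def IsImage (S : CycleSystem p Ω) (A : AbVar p Ω) (j r : ℕ) (x : Coh A) : Prop :=
  x ∈ deg A (j + 2 * r) ∧ ∃ (C : AbVar p Ω) (hm : A.m = C.m) (y : Coh C) (z : Coh (A.prod C hm)),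
    y ∈ deg C j ∧ z ∈ S.C (A.prod C hm) ∧ z ∈ deg (A.prod C hm) (finrank Ω C.H + 2 * r) ∧
    IsPush A C hm (z * pullSnd A C hm y) x

/-- Classes of degree `j + 2 * r` on `A` supported in codimension `r`: the linear combinations of
pull-backs of classes as in `IsImage` under homomorphisms over the algebraic closure. -/
noncomputable def Supported (S : CycleSystem p Ω) (A : AbVar p Ω) (j r : ℕ) : Submodule Ω (Coh A) :=
  Submodule.span Ω {x | ∃ (B : AbVar p Ω) (h : B.H →ₗ[Ω] A.H) (y : Coh B),
    IsHom A B h ∧ IsImage S B j r y ∧ x = pull A B h y}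

/-- The class `x` of degree `j + 2 * r` on `A` is, for some `s > 0`, an eigenvector of the Frobenius
endomorphism over the field with `q ^ s` elements, `q = p ^ A.m`, and its eigenvalue is
`q ^ (r * s)` times an algebraic integer. -/
def IsEffective (A : AbVar p Ω) (j r : ℕ) (x : Coh A) : Prop :=
  x ∈ deg A (j + 2 * r) ∧ ∃ (s : ℕ) (a : Ω), 0 < s ∧ frob A s x = a • x ∧
    IsIntegral ℤ (a / (p : Ω) ^ (A.m * r * s))

/-- The generalised Tate conjecture for `A`: the classes as in `IsEffective` are supported in
codimension `r`. -/
def GeneralisedTate (S : CycleSystem p Ω) (A : AbVar p Ω) : Prop :=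
  ∀ (j r : ℕ) (x : Coh A), IsEffective A j r x → x ∈ Supported S A j r

/-- The generalised Tate conjecture for all varieties built from factors of `B`. -/
def GeneralisedTateFor (S : CycleSystem p Ω) (B : AbVar p Ω) : Prop :=
  ∀ C : AbVar p Ω, IsBuiltFrom C B → GeneralisedTate S C

/-- The field generated by the Frobenius eigenvalues of `A`. -/
def eigenField (A : AbVar p Ω) : Subfield Ω := Subfield.closure {a | HasEigen A a}

end Pool.Agent.V8H94.TC
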