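import Pool.Agent.V8H94.CT.Pub
import Pool.Agent.V8H94.CT.PubDefs2
import Pool.Agent.V8H94.CT.Gtc2

/-!
# The generalised Tate conjecture: comparison of the definitions
-/

set_option autoImplicit false

namespace Pool.Agent.V8H94.TC

open Module Pool.Agent.V8H94.CT

section

variable {p : ℕ} [Fact p.Prime] {Ω : Type} [Field Ω] [CharZero Ω]

theorem isHom_iff (A B : AbVar p Ω) (h : B.H →ₗ[Ω] A.H) : IsHom A B h ↔ CT.IsHom A B h := by
  constructor
  · rintro ⟨s, t, hs, ht, hst, hc⟩
    exact ⟨s, t, hs, ht, hst, LinearMap.ext hc⟩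
  · rintro ⟨s, t, hs, ht, hst, hc⟩
    exact ⟨s, t, hs, ht, hst, fun v => LinearMap.congr_fun hc v⟩

theorem map_iMulti_eigen {H : Type} [AddCommGroup H] [Module Ω H] (F : H →ₗ[Ω] H) {n : ℕ}
    (v : Fin n → H) (b : Fin n → Ω) (h : ∀ i, F (v i) = b i • v i) :
    ExteriorAlgebra.map F (ExteriorAlgebra.ιMulti Ω n v) =
      (∏ i, b i) • ExteriorAlgebra.ιMulti Ω n v := by
  rw [ExteriorAlgebra.map_apply_ιMulti]
  have e : F ∘ v = fun i => b i • v i := funext h
  rw [e]
  exact (ExteriorAlgebra.ιMulti Ω n (M := H)).toMultilinearMap.map_smul_univ b v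

theorem effective_of (A : AbVar p Ω) {j r : ℕ} {x : Coh A} (hx : IsEffective A j r x) :
    x ∈ CT.Effective A j r := by
  obtain ⟨hx, s, a, hs, h, hint⟩ := hx
  have h1 := mem_span_eigen A.F A.span_eigen (j + 2 * r) s a x hx h
  refine Submodule.span_mono ?_ h1
  rintro _ ⟨v, b, hv0, hv, hprod, rfl⟩
  refine ⟨?_, ∏ i, b i, map_iMulti_eigen A.F v b hv, ?_⟩
  · exact ExteriorAlgebra.ιMulti_range Ω (j + 2 * r) ⟨v, rfl⟩
  · refine IsIntegral.of_pow hs ?_
    rw [div_pow, ← Finset.prod_pow, hprod, ← pow_mul]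
    exact hint

theorem supported_of (S : CycleSystem p Ω) (A : AbVar p Ω) (j r : ℕ) {x : Coh A}
    (hx : x ∈ CT.Supported S.toCT A j r) : x ∈ Supported S A j r := by
  have h : CT.Supported S.toCT A j r ≤ Supported S A j r := by
    refine Submodule.span_le.2 ?_
    rintro _ ⟨B, h, y, hh, hy, rfl⟩
    have h2 : CT.Coniveau S.toCT B j r ≤
        (Supported S A j r).comap (ExteriorAlgebra.map h).toLinearMap := by
      refine Submodule.span_le.2 ?_
      rintro y ⟨hy, C, hm, N, b, y', z, hy', hz, hzd, e⟩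
      refine Submodule.subset_span ⟨B, h, y, (isHom_iff A B h).2 hh,
        ⟨hy, C, hm, y', z, hy', hz, ?_, N, b, e⟩, rfl⟩
      have h3 : finrank Ω C.H = N := by
        rw [finrank_eq_card_basis b, Fintype.card_fin]
      rw [h3]
      exact hzd
    exact h2 hy
  exact h hx

theorem supported_zero (S : CycleSystem p Ω) (A : AbVar p Ω) (r : ℕ) {x : Coh A}
    (hx : x ∈ Supported S A 0 r) : x ∈ S.C A := by
  have h : Supported S A 0 r ≤ S.C A := by
    refine Submodule.span_le.2 ?_
    rintro _ ⟨B, h, y, hh, ⟨hy, C, hm, y', z, hy', hz, hzd, n, b, e⟩, rfl⟩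
    refine S.pull_mem A B h hh y (S.push_mem B C hm n b y ?_)
    rw [← e]
    have h1 : y' ∈ (⋀[Ω]^0 C.H : Submodule Ω (ExteriorAlgebra Ω C.H)) := hy'
    rw [ExteriorAlgebra.exteriorPower, pow_zero] at h1
    obtain ⟨c, hc⟩ := Submodule.mem_one.1 h1
    have h2 : pullSnd B C hm y' = algebraMap Ω (Coh (B.prod C hm)) c := by
      rw [← hc]
      exact AlgHom.commutes (ExteriorAlgebra.map (inclSnd B C hm)) c
    rw [h2, ← Algebra.commutes, ← Algebra.smul_def]
    exact Submodule.smul_mem _ _ hz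
  exact h hx

theorem isEffective_of_isTate (A : AbVar p Ω) {r : ℕ} {x : Coh A} (hx : IsTate A r x) :
    IsEffective A 0 r x := by
  obtain ⟨hx, s, hs, h⟩ := hx
  refine ⟨by rw [zero_add]; exact hx, s, _, hs, h, ?_⟩
  have hp : (p : Ω) ≠ 0 := Nat.cast_ne_zero.2 (Fact.out : p.Prime).ne_zero
  rw [div_self (pow_ne_zero _ hp)]
  exact isIntegral_one

theorem GeneralisedTate.tateHolds {S : CycleSystem p Ω} {A : AbVar p Ω}
    (h : GeneralisedTate S A) (r : ℕ) : TateHolds S A r := fun x hx =>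
  supported_zero S A r (h 0 r x (isEffective_of_isTate A hx))

theorem generalisedTate_of {S : CycleSystem p Ω} {A : AbVar p Ω}
    (h : ∀ j r, CT.Effective A j r ≤ CT.Supported S.toCT A j r) : GeneralisedTate S A :=
  fun j r _ hx => supported_of S A j r (h j r (effective_of A hx))

theorem mem_eigenField_of_adjoin (A : AbVar p Ω) {x : Ω}
    (hx : x ∈ IntermediateField.adjoin ℚ {a : Ω | HasEigen A a}) : x ∈ eigenField A := by
  have h : IntermediateField.adjoin ℚ {a : Ω | HasEigen A a} ≤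
      (eigenField A).toIntermediateField (fun q => by
        rw [eq_ratCast]; exact SubfieldClass.ratCast_mem (eigenField A) q) :=
    IntermediateField.adjoin_le_iff.2 fun a ha => Subfield.subset_closure ha
  exact h hx

end

end Pool.Agent.V8H94.TC
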