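import Pool.Agent.V8H94.CT.Rel2

/-!
# Cancellation of pairs by push-forward
-/

set_option autoImplicit false

namespace Pool.Agent.V8H94.CT

open Module Polynomial

variable {p : ℕ} [Fact p.Prime] {Ω : Type} [Field Ω] [CharZero Ω]

theorem IsWeil.ne_zero {M : ℕ} {a : Ω} (ha : IsWeil p M a) : a ≠ 0 := by
  rintro rfl
  have h := ha.2 0 (by simp [minpoly.zero])
  have hp : (0 : ℝ) < (p : ℝ) ^ M := pow_pos (Nat.cast_pos.2 (Fact.out : p.Prime).pos) M
  simp at h
  exact hp.ne h

theorem IsWeil.root_ne_zero {M : ℕ} {a b : Ω} (ha : IsWeil p M a)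
    (hb : aeval b (minpoly ℚ a) = 0) : b ≠ 0 := by
  rintro rfl
  have h1 : IsIntegral ℚ a := ha.1.tower_top
  have h2 := minpoly.coeff_zero_ne_zero h1 ha.ne_zero
  rw [← coeff_zero_eq_aeval_zero'] at hb
  exact h2 (by simpa using hb)

theorem eigenvalue_of_basis {H J : Type} [AddCommGroup H] [Module Ω H] [Fintype J]
    {F : H →ₗ[Ω] H} (b : Basis J Ω H) {d : J → Ω} (hb : ∀ j, F (b j) = d j • b j) {a : Ω} {w : H}
    (hw : w ≠ 0) (h : F w = a • w) : ∃ j, a = d j := by
  by_contra hno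
  push Not at hno
  apply hw
  have h1 : ∀ j, b.repr (F w) j = d j * b.repr w j := by
    intro j
    have e : F w = ∑ i, (d i * b.repr w i) • b i := by
      conv_lhs => rw [← b.sum_repr w]
      simp only [map_sum, map_smul, hb, smul_smul, mul_comm]
    rw [e, Basis.repr_sum_self]
  apply b.repr.injective
  ext j
  have h2 := h1 j
  rw [h, map_smul] at h2
  simp only [Finsupp.smul_apply, smul_eq_mul] at h2
  have h3 : (a - d j) * b.repr w j = 0 := by rw [sub_mul, h2, sub_self]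
  rcases mul_eq_zero.1 h3 with h4 | h4
  · exact absurd (sub_eq_zero.1 h4) (hno j)
  · simpa using h4

theorem map_univ_sum {n : ℕ} {α : Type} (g : Fin n ⊕ Fin n → α) :
    (Finset.univ : Finset (Fin n ⊕ Fin n)).val.map g =
      ∑ i : Fin n, ({g (Sum.inl i), g (Sum.inr i)} : Multiset α) := by
  have h : (Finset.univ : Finset (Fin n ⊕ Fin n)).val.map g =
      ∑ x : Fin n ⊕ Fin n, ({g x} : Multiset α) := by
    rw [Finset.sum_eq_multiset_sum]
    conv_rhs => rw [← Function.comp_def (fun a => ({a} : Multiset α)) g, ← Multiset.map_map]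
    rw [Multiset.sum_map_singleton]
  rw [h, Fintype.sum_sum_type, ← Finset.sum_add_distrib]
  rfl

theorem frobeniusIn_prod {L : IntermediateField ℚ Ω} {A B : AbVar p Ω} (hm : A.m = B.m)
    (hA : FrobeniusIn L A) (hB : FrobeniusIn L B) : FrobeniusIn L (A.prod B hm) := by
  rintro a ⟨v, w⟩ hv h
  have h' : (A.F v, B.F w) = (a • v, a • w) := h
  rw [Prod.mk.injEq] at h'
  by_cases hv0 : v = 0
  · refine hB a w ?_ h'.2
    rintro rfl
    exact hv (by rw [hv0]; rfl)
  · exact hA a v hv0 h'.1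

variable {S : CycleSystem p Ω} {L : IntermediateField ℚ Ω} {M : ℕ}

theorem frobeniusIn_of_basis [IsAlgClosed Ω] [Normal ℚ L] {a : Ω} (ha : IsWeil p M a) {s : ℕ} (hs : 0 < s)
    (hL : a ^ s ∈ L) {D : AbVar p Ω} {n : ℕ} (b : Basis (Fin n ⊕ Fin n) Ω D.H) {c : Fin n → Ω}
    (h1 : ∀ i, D.F (b (Sum.inl i)) = c i • b (Sum.inl i))
    (h2 : ∀ i, D.F (b (Sum.inr i)) = ((p : Ω) ^ M / c i) • b (Sum.inr i))
    (h3 : ∀ i, aeval (c i) (minpoly ℚ a) = 0) : FrobeniusIn L D := by
  intro a' w hw h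
  obtain ⟨j, hj⟩ := eigenvalue_of_basis b (d := Sum.elim c fun i => (p : Ω) ^ M / c i) (by
    rintro (i | i)
    · exact h1 i
    · exact h2 i) hw h
  have halg : IsAlgebraic ℚ a := (ha.1.tower_top (A := ℚ)).isAlgebraic
  have hc : ∀ i, c i ^ s ∈ L := fun i => pow_mem_of_root halg hL (h3 i)
  refine ⟨s, hs, ?_⟩
  rcases j with i | i
  · rw [hj]; exact hc i
  · rw [hj]
    simp only [Sum.elim_inr]
    rw [div_pow]
    exact div_mem (pow_mem (pow_mem (natCast_mem L p) _) _) (hc i)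

theorem Rel.cancel [IsAlgClosed Ω] [Normal ℚ L] (hS : HasDivisors S L) (hM : 0 < M) {a : Ω}
    (ha : IsWeil p M a) {s : ℕ} (hs : 0 < s) (hL : a ^ s ∈ L) {μ : Multiset Ω}
    (h : Rel S L M (a ::ₘ ((p : Ω) ^ M / a) ::ₘ μ)) : Rel S L M μ := by
  classical
  intro A hA hAL T hT hTμ
  obtain ⟨D, n, b, c, hDm, h1, h2, h3, i₀, hi₀⟩ := exists_isotypic hM ha
  have hm : A.m = D.m := by rw [hA, hDm]
  have hDL : FrobeniusIn L D := frobeniusIn_of_basis ha hs hL b h1 h2 h3
  have hCL : FrobeniusIn L (A.prod D hm) := frobeniusIn_prod hm hAL hDL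
  let g : Fin n ⊕ Fin n → A.H × D.H := fun j => LinearMap.inr Ω A.H D.H (b j)
  have hg1 : ∀ i, (A.prod D hm).F (g (Sum.inl i)) = c i • g (Sum.inl i) := by
    intro i
    change ((A.F 0, D.F (b (Sum.inl i))) : A.H × D.H) = c i • ((0, b (Sum.inl i)) : A.H × D.H)
    rw [h1, map_zero, Prod.smul_mk, smul_zero]
  have hg2 : ∀ i, (A.prod D hm).F (g (Sum.inr i)) = ((p : Ω) ^ M / c i) • g (Sum.inr i) := by
    intro i
    change ((A.F 0, D.F (b (Sum.inr i))) : A.H × D.H) =
      ((p : Ω) ^ M / c i) • ((0, b (Sum.inr i)) : A.H × D.H)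
    rw [h2, map_zero, Prod.smul_mk, smul_zero]
  let T' : Multiset (A.H × D.H) := (T.map Prod.snd).map (LinearMap.inl Ω A.H D.H)
  have hfirst : Mem S (A.prod D hm)
      (({g (Sum.inl i₀), g (Sum.inr i₀)} : Multiset (A.H × D.H)) + T') := by
    have h5 := h (A.prod D hm) hA hCL ((a, g (Sum.inl i₀)) ::ₘ ((p : Ω) ^ M / a, g (Sum.inr i₀)) ::ₘ
      T.map (fun x => (x.1, (LinearMap.inl Ω A.H D.H x.2 : A.H × D.H)))) ?_ ?_
    · have e : Multiset.map Prod.snd ((a, g (Sum.inl i₀)) ::ₘ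
          ((p : Ω) ^ M / a, g (Sum.inr i₀)) ::ₘ
          T.map (fun x => (x.1, (LinearMap.inl Ω A.H D.H x.2 : A.H × D.H)))) =
          ({g (Sum.inl i₀), g (Sum.inr i₀)} : Multiset (A.H × D.H)) + T' := by
        simp only [Multiset.map_cons, T', Multiset.insert_eq_cons,
          Multiset.cons_add, Multiset.singleton_add]
        rw [Multiset.map_map, Multiset.map_map]
        rfl
      exact (congrArg (Mem S (A.prod D hm)) e).mp h5
    · intro x hx
      rcases Multiset.mem_cons.1 hx with rfl | hx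
      · have := hg1 i₀
        rwa [hi₀] at this
      · rcases Multiset.mem_cons.1 hx with rfl | hx
        · have := hg2 i₀
          rwa [hi₀] at this
        · obtain ⟨y, hy, rfl⟩ := Multiset.mem_map.1 hx
          have := hT y hy
          change ((A.F y.2, D.F 0) : A.H × D.H) = y.1 • ((y.2, 0) : A.H × D.H)
          rw [this, map_zero, Prod.smul_mk, smul_zero]
    · simp only [Multiset.map_cons, Multiset.map_map]
      rw [← hTμ]
      rfl
  have hothers : Mem S (A.prod D hm)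
      (∑ i ∈ Finset.univ.erase i₀, ({g (Sum.inl i), g (Sum.inr i)} : Multiset (A.H × D.H))) := by
    refine Mem.sum _ _ fun i _ => ?_
    refine mem_pair hS hCL ?_ (hg1 i) (hg2 i)
    have hAm : (A.prod D hm).m = M := hA
    rw [hAm, mul_div_cancel₀]
    exact ha.root_ne_zero (h3 i)
  have htotal : Mem S (A.prod D hm)
      (T' + (Finset.univ : Finset (Fin n ⊕ Fin n)).val.map g) := by
    have e : T' + (Finset.univ : Finset (Fin n ⊕ Fin n)).val.map g =
        (∑ i ∈ Finset.univ.erase i₀, ({g (Sum.inl i), g (Sum.inr i)} : Multiset (A.H × D.H))) +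
          (({g (Sum.inl i₀), g (Sum.inr i₀)} : Multiset (A.H × D.H)) + T') := by
      rw [map_univ_sum, ← Finset.sum_erase_add _ _ (Finset.mem_univ i₀)]
      abel
    exact (congrArg (Mem S (A.prod D hm)) e).mpr (hothers.add hfirst)
  intro l hl
  let b' : Basis (Fin (n + n)) Ω D.H := b.reindex finSumFinEquiv
  refine S.push A D hm (n + n) b' (wedge l) ?_
  have e1 : ExteriorAlgebra.ιMulti Ω (n + n) b' = wedge (List.ofFn b') := by
    rw [ExteriorAlgebra.ιMulti_apply, wedge, List.map_ofFn]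
    rfl
  have e2 : ExteriorAlgebra.map (LinearMap.inl Ω A.H D.H) (wedge l) *
      ExteriorAlgebra.map (LinearMap.inr Ω A.H D.H) (ExteriorAlgebra.ιMulti Ω (n + n) b') =
      wedge (l.map (LinearMap.inl Ω A.H D.H) ++ (List.ofFn b').map (LinearMap.inr Ω A.H D.H)) := by
    rw [e1, map_wedge, map_wedge, wedge_append]
  rw [e2]
  refine htotal _ ?_
  change ((l.map (LinearMap.inl Ω A.H D.H) ++ (List.ofFn b').map (LinearMap.inr Ω A.H D.H) :
    List (A.H × D.H)) : Multiset (A.H × D.H)) =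
      T' + (Finset.univ : Finset (Fin n ⊕ Fin n)).val.map g
  rw [← Multiset.coe_add]
  congr 1
  · rw [← Multiset.map_coe, hl]
  · rw [← Multiset.map_coe, ← Fin.univ_val_map, Multiset.map_map]
    have e3 : (Finset.univ : Finset (Fin n ⊕ Fin n)).val =
        (Finset.univ : Finset (Fin (n + n))).val.map finSumFinEquiv.symm :=
      (Multiset.map_univ_val_equiv finSumFinEquiv.symm).symm
    rw [e3, Multiset.map_map]
    refine Multiset.map_congr rfl fun j _ => ?_
    simp [b', g]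

end Pool.Agent.V8H94.CT
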