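import Pool.Agent.V8H94.CT.Final

/-!
# Abelian varieties with given Frobenius eigenvalues and their universal property
-/

set_option autoImplicit false

namespace Pool.Agent.V8H94.CT

open Module Polynomial

variable {p : ℕ} [Fact p.Prime] {Ω : Type} [Field Ω] [CharZero Ω]

/-- An isotypic abelian variety with an eigenvector `u` for the eigenvalue `a` and a linear form `χ`
with the eigenvalue `a` such that `χ u = 1`. -/
theorem exists_single [IsAlgClosed Ω] {k : ℕ} (hk : 0 < k) {W : Set Ω}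
    (hW : ∀ w ∈ W, ∀ b : Ω, aeval b (minpoly ℚ w) = 0 → b ∈ W) {a : Ω} (ha : IsWeil p k a)
    (haW : a ∈ W) :
    ∃ (D : AbVar p Ω) (u : D.H) (χ : D.H →ₗ[Ω] Ω), D.m = k ∧
      (∀ (a' : Ω) (v : D.H), v ≠ 0 → D.F v = a' • v → a' ∈ W) ∧ D.F u = a • u ∧ χ u = 1 ∧
      ∀ v, χ (D.F v) = a * χ v := by
  obtain ⟨D, n, b, c, hDm, h1, h2, h3, i₀, hi₀⟩ := exists_isotypic hk ha
  refine ⟨D, b (Sum.inl i₀), b.coord (Sum.inl i₀), hDm, ?_, ?_, ?_, ?_⟩
  · intro a' v hv h
    obtain ⟨j, hj⟩ := eigenvalue_of_basis b (d := Sum.elim c fun i => (p : Ω) ^ k / c i) (by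
      rintro (i | i)
      · exact h1 i
      · exact h2 i) hv h
    have hiso := ha.isIsotypic
    rcases j with i | i
    · rw [hj]; exact hW a haW _ (h3 i)
    · rw [hj]
      refine hW a haW _ ?_
      have h4 : minpoly ℚ (c i) = minpoly ℚ a :=
        (minpoly.eq_of_irreducible_of_monic hiso.irreducible (h3 i) hiso.monic).symm
      have h5 := (hiso.isWeil (h3 i)).conj_root
      rw [h4] at h5
      exact h5
  · rw [h1, hi₀]
  · simp
  · intro v
    have e : (b.coord (Sum.inl i₀)).comp D.F = a • b.coord (Sum.inl i₀) := by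
      refine b.ext fun j => ?_
      rcases j with j | j
      · simp only [LinearMap.comp_apply, h1, map_smul, LinearMap.smul_apply, Basis.coord_apply,
          Basis.repr_self, smul_eq_mul]
        by_cases hj : j = i₀
        · subst hj; rw [hi₀]
        · rw [Finsupp.single_apply, if_neg (by simpa using hj)]; simp
      · simp only [LinearMap.comp_apply, h2, map_smul, LinearMap.smul_apply, Basis.coord_apply,
          Basis.repr_self, smul_eq_mul]
        rw [Finsupp.single_apply, if_neg (by simp)]; simp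
    have := LinearMap.congr_fun e v
    simpa using this

omit [CharZero Ω] in
theorem prodMap_pow_apply {H H' : Type} [AddCommGroup H] [Module Ω H] [AddCommGroup H']
    [Module Ω H'] (f : H →ₗ[Ω] H) (g : H' →ₗ[Ω] H') (t : ℕ) (x : H × H') :
    ((f.prodMap g) ^ t) x = ((f ^ t) x.1, (g ^ t) x.2) := by
  induction t with
  | zero => rfl
  | succ t ih => rw [pow_succ', Module.End.mul_apply, ih, pow_succ', pow_succ']; rfl

theorem eigen_prod {A B : AbVar p Ω} (hm : A.m = B.m) {W : Set Ω}
    (hA : ∀ (a' : Ω) (v : A.H), v ≠ 0 → A.F v = a' • v → a' ∈ W)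
    (hB : ∀ (a' : Ω) (v : B.H), v ≠ 0 → B.F v = a' • v → a' ∈ W) :
    ∀ (a' : Ω) (v : (A.prod B hm).H), v ≠ 0 → (A.prod B hm).F v = a' • v → a' ∈ W := by
  rintro a' ⟨v, w⟩ hv h
  have h' : (A.F v, B.F w) = a' • ((v, w) : A.H × B.H) := h
  rw [Prod.smul_mk, Prod.mk.injEq] at h'
  by_cases h0 : v = 0
  · refine hB a' w ?_ h'.2
    rintro rfl
    exact hv (by rw [h0]; rfl)
  · exact hA a' v h0 h'.1

/-- **Abelian varieties with given Frobenius eigenvalues.** For Weil numbers `l j` for `p ^ k` in a set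
`W` stable under conjugation there are an abelian variety `D` over the field with `p ^ k` elements,
with eigenvalues in `W`, and eigenvectors `u j` for `l j` such that vectors `v j` of the cohomology of
any `C` with the same behaviour under Frobenius are the images of the `u j` under one homomorphism. -/
theorem exists_universal [IsAlgClosed Ω] {k : ℕ} (hk : 0 < k) {W : Set Ω}
    (hW : ∀ w ∈ W, ∀ b : Ω, aeval b (minpoly ℚ w) = 0 → b ∈ W) (l : List Ω)
    (hl : ∀ x ∈ l, IsWeil p k x ∧ x ∈ W) :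
    ∃ (D : AbVar p Ω) (u : Fin l.length → D.H), D.m = k ∧
      (∀ (a : Ω) (v : D.H), v ≠ 0 → D.F v = a • v → a ∈ W) ∧
      (∀ j, D.F (u j) = l.get j • u j) ∧
      ∀ (C : AbVar p Ω) (s t : ℕ) (v : Fin l.length → C.H),
        (∀ j, (C.F ^ s) (v j) = (l.get j) ^ t • v j) →
        ∃ h : D.H →ₗ[Ω] C.H, h ∘ₗ (D.F ^ t) = (C.F ^ s) ∘ₗ h ∧ ∀ j, h (u j) = v j := by
  induction l with
  | nil =>
    refine ⟨zeroVar p Ω k hk, fun j => Fin.elim0 j, rfl, ?_, fun j => Fin.elim0 j, ?_⟩
    · intro a v hv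
      exact absurd (Subsingleton.elim (α := PUnit) v 0) hv
    · intro C s t v _
      exact ⟨0, by simp, fun j => Fin.elim0 j⟩
  | cons a l ih =>
    obtain ⟨D', u', hDm', hDW', hu', hD'⟩ := ih fun x hx => hl x (List.mem_cons_of_mem _ hx)
    obtain ⟨ha, haW⟩ := hl a List.mem_cons_self
    obtain ⟨D, u, χ, hDm, hDW, hu, hχu, hχ⟩ := exists_single hk hW ha haW
    have hm : D.m = D'.m := by rw [hDm, hDm']
    have hχt : ∀ (t : ℕ) v, χ ((D.F ^ t) v) = a ^ t * χ v := by
      intro t
      induction t with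
      | zero => intro v; simp
      | succ t iht =>
        intro v
        rw [pow_succ', Module.End.mul_apply, hχ, iht, pow_succ', mul_assoc]
    refine ⟨D.prod D' hm, Fin.cons ((u, 0) : D.H × D'.H) (fun j => ((0, u' j) : D.H × D'.H)), hDm,
      eigen_prod hm hDW hDW', ?_, ?_⟩
    · intro j
      refine Fin.cases ?_ (fun j => ?_) j
      · change (D.F u, D'.F 0) = a • ((u, 0) : D.H × D'.H)
        rw [hu, map_zero, Prod.smul_mk, smul_zero]
      · change (D.F 0, D'.F (u' j)) = (l.get j) • ((0, u' j) : D.H × D'.H)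
        rw [hu', map_zero, Prod.smul_mk, smul_zero]
    · intro C s t v hv
      obtain ⟨h', hh', hhu'⟩ := hD' C s t (fun j => v j.succ) (fun j => hv j.succ)
      have hv0 : (C.F ^ s) (v 0) = a ^ t • v 0 := hv 0
      let g : D.H × D'.H →ₗ[Ω] C.H :=
        LinearMap.coprod ((LinearMap.toSpanSingleton Ω C.H (v 0)).comp χ) h'
      refine ⟨g, ?_, ?_⟩
      · refine LinearMap.ext fun x => ?_
        obtain ⟨x, y⟩ := x
        have e1 := LinearMap.congr_fun hh' y
        change h' ((D'.F ^ t) y) = (C.F ^ s) (h' y) at e1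
        have e2 : ((D.prod D' hm).F ^ t) ((x, y) : D.H × D'.H) = ((D.F ^ t) x, (D'.F ^ t) y) :=
          prodMap_pow_apply D.F D'.F t (x, y)
        refine (congrArg g e2).trans ?_
        change χ ((D.F ^ t) x) • v 0 + h' ((D'.F ^ t) y) = (C.F ^ s) (χ x • v 0 + h' y)
        rw [hχt, e1, map_add, map_smul, hv0, smul_smul, mul_comm]
      · intro j
        refine Fin.cases ?_ (fun j => ?_) j
        · change χ u • v 0 + h' 0 = v 0
          rw [hχu, one_smul, map_zero, add_zero]
        · change χ 0 • v 0 + h' (u' j) = v j.succ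
          rw [map_zero, zero_smul, zero_add, hhu']

end Pool.Agent.V8H94.CT
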