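import Pool.Agent.V8H71.TC.HBox

/-!
# One class
-/

set_option autoImplicit false

namespace Pool.Agent.V8H94.CT

open Module Polynomial

variable {p : ℕ} [Fact p.Prime] {Ω : Type} [Field Ω] [CharZero Ω]

section

variable [IsAlgClosed Ω]

/-- The basic relations from the hypotheses on the classes of the basic relations on one abelian
variety. -/
theorem base_of_universal' {S : CycleSystem p Ω} {k : ℕ} (hk : 0 < k) {W : Set Ω}
    (hWw : ∀ w ∈ W, IsWeil p (2 * k) w)
    (hWr : ∀ w ∈ W, ∀ z : Ω, aeval z (minpoly ℚ w) = 0 → z ∈ W) (hWb : (p : Ω) ^ k ∈ W)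
    (B : AbVar p Ω) (hBm : B.m = 2 * k) (u : Fin 4 × W → B.H)
    (hu : ∀ j, B.F (u j) = j.2.1 • u j)
    (hB : ∀ (C : AbVar p Ω) (s t : ℕ) (v : Fin 4 × W → C.H),
        (∀ j, (C.F ^ s) (v j) = (j.2.1) ^ t • v j) →
        ∃ h : B.H →ₗ[Ω] C.H, h ∘ₗ (B.F ^ t) = (C.F ^ s) ∘ₗ h ∧ ∀ j, h (u j) = v j)
    (hdiv : ∀ x, IsTate B 1 x → x ∈ S.C B)
    (h3 : ∀ x y z : W, (∃ s : ℕ, 0 < s ∧ (x.1 * y.1 * z.1) ^ s = (((p : Ω) ^ k) ^ 3) ^ s) →
      wedge [u (0, x), u (1, y), u (2, z)] * wedge [u (3, ⟨(p : Ω) ^ k, hWb⟩)] ∈ S.C B) :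
    Base S k W := by
  classical
  refine ⟨hk, hWw, hWr, hWb, ?_, ?_⟩
  · intro x hx y hy s hs hxy A hA T hT hμ
    obtain ⟨⟨x', u₁⟩, ⟨y', u₂⟩, T', rfl, hx', hy', hT'⟩ := exists_two (μ := 0) hμ
    rw [Multiset.map_eq_zero] at hT'
    subst hT'
    simp only at hx' hy'
    subst hx' hy'
    have h1 := hT (x', u₁) (by simp)
    have h2 := hT (y', u₂) (by simp)
    simp only at h1 h2
    have hj : ((0 : Fin 4), (⟨x', hx⟩ : W)) ≠ (1, ⟨y', hy⟩) := fst_ne (by decide)
    obtain ⟨h, hh, hhu⟩ := hB A 1 1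
      (fun j => if j = (0, ⟨x', hx⟩) then u₁ else if j = (1, ⟨y', hy⟩) then u₂ else 0) (by
        intro j
        by_cases h0 : j = (0, ⟨x', hx⟩)
        · rw [if_pos h0, h0, pow_one, pow_one, h1]
        · rw [if_neg h0]
          by_cases h0' : j = (1, ⟨y', hy⟩)
          · rw [if_pos h0', h0', pow_one, pow_one, h2]
          · rw [if_neg h0', map_zero, smul_zero])
    have e1 : h (u (0, ⟨x', hx⟩)) = u₁ := by rw [hhu, if_pos rfl]
    have e2 : h (u (1, ⟨y', hy⟩)) = u₂ := by rw [hhu, if_neg hj.symm, if_pos rfl]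
    have h5 : wedge [u (0, ⟨x', hx⟩), u (1, ⟨y', hy⟩)] ∈ S.C B := by
      refine hdiv _ ⟨wedge_mem [_, _], s, hs, ?_⟩
      rw [map_wedge]
      simp only [List.map_cons, List.map_nil, wedge_cons, wedge_nil, mul_one,
        pow_apply_eigen (hu (0, ⟨x', hx⟩)), pow_apply_eigen (hu (1, ⟨y', hy⟩)), map_smul]
      rw [smul_mul_smul_comm, ← mul_pow, hxy, hBm, ← pow_mul]
    have h6 := S.pull A B h (isHom_of_comm (by rw [hA, hBm]) (pow_comp_pow hh)) _ h5
    rw [map_wedge] at h6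
    simp only [List.map_cons, List.map_nil, e1, e2] at h6
    exact Mem.of_list h6
  · intro x hx y hy z hz s hs hxyz A hA T hT hμ
    obtain ⟨⟨x', u₁⟩, ⟨y', u₂⟩, T', rfl, hx', hy', hT'⟩ := exists_two hμ
    obtain ⟨⟨z', u₃⟩, ⟨c', u₄⟩, T'', rfl, hz', hc', hT''⟩ := exists_two (μ := 0) hT'
    rw [Multiset.map_eq_zero] at hT''
    subst hT''
    simp only at hx' hy' hz' hc'
    subst hx' hy' hz' hc'
    have h1 := hT (x', u₁) (by simp)
    have h2 := hT (y', u₂) (by simp)
    have h3' := hT (z', u₃) (by simp)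
    have h4 := hT ((p : Ω) ^ k, u₄) (by simp)
    simp only at h1 h2 h3' h4
    let j₁ : Fin 4 × W := (0, ⟨x', hx⟩)
    let j₂ : Fin 4 × W := (1, ⟨y', hy⟩)
    let j₃ : Fin 4 × W := (2, ⟨z', hz⟩)
    let j₄ : Fin 4 × W := (3, ⟨(p : Ω) ^ k, hWb⟩)
    obtain ⟨h, hh, hhu⟩ := hB A 1 1
      (fun j => if j = j₁ then u₁ else if j = j₂ then u₂ else if j = j₃ then u₃ else
        if j = j₄ then u₄ else 0) (by
        intro j
        rw [pow_one, pow_one]
        by_cases a1 : j = j₁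
        · rw [if_pos a1, a1]; exact h1
        rw [if_neg a1]
        by_cases a2 : j = j₂
        · rw [if_pos a2, a2]; exact h2
        rw [if_neg a2]
        by_cases a3 : j = j₃
        · rw [if_pos a3, a3]; exact h3'
        rw [if_neg a3]
        by_cases a4 : j = j₄
        · rw [if_pos a4, a4]; exact h4
        rw [if_neg a4, map_zero, smul_zero])
    have e1 : h (u j₁) = u₁ := by rw [hhu, if_pos rfl]
    have e2 : h (u j₂) = u₂ := by
      rw [hhu, if_neg (fst_ne (by decide)), if_pos rfl]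
    have e3 : h (u j₃) = u₃ := by
      rw [hhu, if_neg (fst_ne (by decide)), if_neg (fst_ne (by decide)), if_pos rfl]
    have e4 : h (u j₄) = u₄ := by
      rw [hhu, if_neg (fst_ne (by decide)), if_neg (fst_ne (by decide)), if_neg (fst_ne (by decide)),
        if_pos rfl]
    have h5 := h3 ⟨x', hx⟩ ⟨y', hy⟩ ⟨z', hz⟩ ⟨s, hs, hxyz⟩
    have h6 := S.pull A B h (isHom_of_comm (by rw [hA, hBm]) (pow_comp_pow hh)) _ h5
    rw [← wedge_append, map_wedge] at h6
    simp only [List.cons_append, List.nil_append, List.map_cons, List.map_nil] at h6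
    rw [e1, e2, e3, e4] at h6
    exact Mem.of_list h6

omit [IsAlgClosed Ω] in
/-- There is one class of degree four which contains the classes of all basic relations. -/
theorem exists_one_class {k : ℕ} {W : Set Ω} [Fintype W] (hWb : (p : Ω) ^ k ∈ W)
    (B : AbVar p Ω) (hBm : B.m = 2 * k) (u : Fin 4 × W → B.H)
    (hu : ∀ j, B.F (u j) = j.2.1 • u j)
    (hB : ∀ (C : AbVar p Ω) (s t : ℕ) (v : Fin 4 × W → C.H),
        (∀ j, (C.F ^ s) (v j) = (j.2.1) ^ t • v j) →
        ∃ h : B.H →ₗ[Ω] C.H, h ∘ₗ (B.F ^ t) = (C.F ^ s) ∘ₗ h ∧ ∀ j, h (u j) = v j) :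
    ∃ y z : ExteriorAlgebra Ω B.H, IsSupersingularClass B 3 y ∧ IsSupersingularClass B 1 z ∧
      ∀ S : CycleSystem p Ω, y * z ∈ S.C B →
        ∀ a b c : W, (∃ s : ℕ, 0 < s ∧ (a.1 * b.1 * c.1) ^ s = (((p : Ω) ^ k) ^ 3) ^ s) →
          wedge [u (0, a), u (1, b), u (2, c)] * wedge [u (3, ⟨(p : Ω) ^ k, hWb⟩)] ∈ S.C B := by
  classical
  let I : Finset (W × W × W) := Finset.univ.filter fun t =>
    ∃ s : ℕ, 0 < s ∧ (t.1.1 * t.2.1.1 * t.2.2.1) ^ s = (((p : Ω) ^ k) ^ 3) ^ s
  have hI : ∀ t ∈ I, ∃ s : ℕ, 0 < s ∧ (t.1.1 * t.2.1.1 * t.2.2.1) ^ s = (((p : Ω) ^ k) ^ 3) ^ s :=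
    fun t ht => (Finset.mem_filter.1 ht).2
  let f : W × W × W → ExteriorAlgebra Ω B.H := fun t =>
    wedge [u (0, t.1), u (1, t.2.1), u (2, t.2.2)]
  refine ⟨∑ t ∈ I, f t, wedge [u (3, ⟨(p : Ω) ^ k, hWb⟩)], ⟨?_, ?_⟩, ⟨wedge_mem [_], 1, one_pos, ?_⟩,
    fun S hS a b c habc => ?_⟩
  · exact Submodule.sum_mem _ fun t _ => wedge_mem [_, _, _]
  · -- a common exponent
    choose! σ hσ hσ' using hI
    refine ⟨∏ t ∈ I, σ t, Finset.prod_pos hσ, ?_⟩
    rw [map_sum, Finset.smul_sum]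
    refine Finset.sum_congr rfl fun t ht => ?_
    obtain ⟨d, hd⟩ := Finset.dvd_prod_of_mem σ ht
    simp only [f]
    rw [map_wedge]
    simp only [List.map_cons, List.map_nil, wedge_cons, wedge_nil, mul_one,
      pow_apply_eigen (hu _), map_smul]
    rw [smul_mul_smul_comm, smul_mul_smul_comm, ← mul_pow, ← mul_pow, ← mul_assoc, hd]
    congr 1
    rw [show 2 * (σ t * d) = σ t * (2 * d) by ring, pow_mul, hσ' t ht, hBm, ← pow_mul, ← pow_mul,
      ← pow_mul]
    congr 1
    ring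
  · rw [map_wedge]
    simp only [List.map_cons, List.map_nil, wedge_cons, wedge_nil, mul_one,
      pow_apply_eigen (hu _), map_smul]
    change ((p : Ω) ^ k) ^ 2 • _ = _
    rw [hBm, ← pow_mul]
    congr 2
    ring
  · -- projection to the component
    let j₁ : Fin 4 × W := (0, a)
    let j₂ : Fin 4 × W := (1, b)
    let j₃ : Fin 4 × W := (2, c)
    let j₄ : Fin 4 × W := (3, ⟨(p : Ω) ^ k, hWb⟩)
    obtain ⟨h, hh, hhu⟩ := hB B 1 1
      (fun j => if j = j₁ ∨ j = j₂ ∨ j = j₃ ∨ j = j₄ then u j else 0) (by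
        intro j
        rw [pow_one, pow_one]
        by_cases hj : j = j₁ ∨ j = j₂ ∨ j = j₃ ∨ j = j₄
        · rw [if_pos hj]; exact hu j
        · rw [if_neg hj, map_zero, smul_zero])
    have h6 := S.pull B B h (isHom_of_comm rfl (pow_comp_pow hh)) _ hS
    have h0 : ∀ (x : W), x ≠ a → h (u (0, x)) = 0 := by
      intro x hx
      rw [hhu, if_neg]
      rintro (h | h | h | h)
      · exact hx (congrArg Prod.snd h)
      · exact fst_ne (by decide) h
      · exact fst_ne (by decide) h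
      · exact fst_ne (by decide) h
    have h1 : ∀ (x : W), x ≠ b → h (u (1, x)) = 0 := by
      intro x hx
      rw [hhu, if_neg]
      rintro (h | h | h | h)
      · exact fst_ne (by decide) h
      · exact hx (congrArg Prod.snd h)
      · exact fst_ne (by decide) h
      · exact fst_ne (by decide) h
    have h2 : ∀ (x : W), x ≠ c → h (u (2, x)) = 0 := by
      intro x hx
      rw [hhu, if_neg]
      rintro (h | h | h | h)
      · exact fst_ne (by decide) h
      · exact fst_ne (by decide) h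
      · exact hx (congrArg Prod.snd h)
      · exact fst_ne (by decide) h
    have e1 : h (u (0, a)) = u (0, a) := by rw [hhu, if_pos (Or.inl rfl)]
    have e2 : h (u (1, b)) = u (1, b) := by rw [hhu, if_pos (Or.inr (Or.inl rfl))]
    have e3 : h (u (2, c)) = u (2, c) := by rw [hhu, if_pos (Or.inr (Or.inr (Or.inl rfl)))]
    have e4 : h (u (3, ⟨(p : Ω) ^ k, hWb⟩)) = u (3, ⟨(p : Ω) ^ k, hWb⟩) := by
      rw [hhu, if_pos (Or.inr (Or.inr (Or.inr rfl)))]
    have hsum : ExteriorAlgebra.map h (∑ t ∈ I, f t) = f (a, b, c) := by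
      rw [map_sum, Finset.sum_eq_single (a, b, c)]
      · simp only [f]
        rw [map_wedge, List.map_cons, List.map_cons, List.map_cons, List.map_nil, e1, e2, e3]
      · rintro ⟨x, y, z⟩ _ hne
        simp only [f]
        rw [map_wedge, List.map_cons, List.map_cons, List.map_cons, List.map_nil, wedge_cons,
          wedge_cons, wedge_cons]
        by_cases hx : x = a
        · by_cases hy : y = b
          · by_cases hz : z = c
            · exact absurd (by rw [hx, hy, hz]) hne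
            · rw [h2 z hz]; simp
          · rw [h1 y hy]; simp
        · rw [h0 x hx]; simp
      · intro hn
        exact absurd (show (a, b, c) ∈ I from Finset.mem_filter.2 ⟨Finset.mem_univ _, habc⟩) hn
    rw [map_mul, hsum, map_wedge, List.map_cons, List.map_nil, e4] at h6
    exact h6

/-- **The Tate conjecture and the generalised Tate conjecture for all varieties built from `A`
follow from the algebraicity of one class of degree four on one abelian variety.** -/
theorem exists_closed_one (A : AbVar p Ω) : ∃ (B : AbVar p Ω) (y z : ExteriorAlgebra Ω B.H),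
    IsBuiltFrom A B ∧
    (∀ b : Ω, HasEigen B b → ∃ s : ℕ, 0 < s ∧
      b ^ s ∈ IntermediateField.adjoin ℚ {a : Ω | HasEigen A a}) ∧
    IsSupersingularClass B 3 y ∧ IsSupersingularClass B 1 z ∧
    ∀ S : CycleSystem p Ω, TateHolds S B 1 →
      List.TFAE [TateHoldsFor S B ∧ GeneralisedTateHoldsFor S B, TateHolds S B 2,
        SupersingularProducts S B, y * z ∈ S.C B] := by
  classical
  obtain ⟨κ, W, X, _, inv, e, τ, hbox, hWfin, hAW, hfld⟩ := Pool.Agent.V8H77.NT.exists_isBox' A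
  have hκ := hbox.κ_pos
  have := hWfin.fintype
  obtain ⟨B, u, hBm, hBW, hu, hB⟩ := exists_universal' (p := p) (k := 2 * κ)
    (Nat.mul_pos two_pos hκ) hbox.root (J := Fin 4 × W) (fun j => j.2.1)
    (fun j => ⟨hbox.weil _ j.2.2, j.2.2⟩)
  have heig : ∀ b ∈ W, HasEigen B b := by
    intro b hb
    refine ⟨u (0, ⟨b, hb⟩), ?_, hu _⟩
    intro hzero
    obtain ⟨D, n', e, c, hDm, he1, _, _, i, hi⟩ := exists_isotypic (p := p)
      (Nat.mul_pos two_pos hκ) (hbox.weil b hb)
    obtain ⟨h, _, hhu⟩ := hB D 1 1 (fun j => if j = (0, ⟨b, hb⟩) then e (Sum.inl i) else 0) (by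
      intro j
      by_cases hj : j = (0, ⟨b, hb⟩)
      · rw [if_pos hj, hj, pow_one, pow_one, he1, hi]
      · rw [if_neg hj, map_zero, smul_zero])
    have h1 := hhu (0, ⟨b, hb⟩)
    rw [hzero, map_zero, if_pos rfl] at h1
    exact e.ne_zero (Sum.inl i) h1.symm
  obtain ⟨y, z, hy, hz, hone⟩ := exists_one_class hbox.base B hBm u hu hB
  refine ⟨B, y, z, isBuiltFrom_of_eigenIn (Nat.mul_pos two_pos hκ) hBm heig hAW, ?_, hy, hz,
    fun S hdiv => ?_⟩
  · rintro b ⟨w, hw, h⟩
    exact hfld b (hBW b w hw h)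
  · tfae_have 1 → 2 := fun H => H.1 B (isBuiltFrom_refl B) 2
    tfae_have 2 → 3 := fun H x y hx hy => H _ (isTate_mul hx hy)
    tfae_have 3 → 4 := fun H => H y z hy hz
    tfae_have 4 → 1 := by
      intro H
      have hbase : Base S κ W := base_of_universal' hκ hbox.weil hbox.root hbox.base B hBm u hu hB
        hdiv (hone S H)
      have hS := tate_mem_box hbase hbox
      refine ⟨fun C hC r x hx => ?_, fun C hC j r => ?_⟩
      · exact tate_mem_of_box (Nat.mul_pos two_pos hκ) hbox.weil hbox.root hS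
          (eigenIn_of_isBuiltFrom hBm hBW hC) r x hx
      · exact effective_le_supported hbox hS C (eigenIn_of_isBuiltFrom hBm hBW hC) j r
    tfae_finish

end

end Pool.Agent.V8H94.CT
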