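import Pool.Agent.V8H94.CT.Gtc3
import Pool.Agent.V8H94.CT.One

/-!
# Codimension two suffices for the generalised Tate conjecture
-/

set_option autoImplicit false

namespace Pool.Agent.V8H94.TC

open Module Pool.Agent.V8H94.CT

variable {p : ℕ} [Fact p.Prime] {Ω : Type} [Field Ω] [CharZero Ω] [IsAlgClosed Ω]

/-- **One class suffices for the generalised Tate conjecture.** -/
theorem generalised_of_one_class (A : AbVar p Ω) : ∃ (B : AbVar p Ω) (y z : Coh B),
    IsBuiltFrom A B ∧ (∀ b : Ω, HasEigen B b → ∃ s : ℕ, 0 < s ∧ b ^ s ∈ eigenField A) ∧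
    IsSupersingularClass B 3 y ∧ IsSupersingularClass B 1 z ∧
    ∀ S : CycleSystem p Ω, TateHolds S B 1 →
      List.TFAE [GeneralisedTateFor S B, TateHoldsFor S B, TateHolds S B 2,
        SupersingularProducts S B, y * z ∈ S.C B] := by
  obtain ⟨B, y, z, hAB, hfld, hy, hz, h⟩ := exists_closed_one A
  refine ⟨B, y, z, (isBuiltFrom_iff A B).2 hAB, fun b hb => ?_, hy, hz, fun S hdiv => ?_⟩
  · obtain ⟨s, hs, h1⟩ := hfld b hb
    exact ⟨s, hs, mem_eigenField_of_adjoin A h1⟩
  · have h1 := h S.toCT hdiv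
    tfae_have 1 → 2 := fun H C hC r => (H C hC).tateHolds r
    tfae_have 2 → 3 := fun H => H B ((isBuiltFrom_iff B B).2 (isBuiltFrom_refl B)) 2
    tfae_have 3 → 4 := fun H => (h1.out 1 2).1 H
    tfae_have 4 → 5 := fun H => H y z hy hz
    tfae_have 5 → 1 := by
      intro H C hC
      have h2 := (h1.out 3 0).1 H
      exact generalisedTate_of (h2.2 C ((isBuiltFrom_iff C B).1 hC))
    tfae_finish

end Pool.Agent.V8H94.TC
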