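import Pool.Agent.V8H94.CT.Comb

/-!
# Roots of Weil numbers and the relation of any number of Weil numbers
-/

set_option autoImplicit false

namespace Pool.Agent.V8H94.CT

open Module Polynomial

variable {p : ℕ} [Fact p.Prime] {Ω : Type} [Field Ω] [CharZero Ω] [IsAlgClosed Ω]
variable {L : IntermediateField ℚ Ω} {k N : ℕ}

/-- `b` is an `N`-th root of `a * c ^ (N - 1)` with a Weil number `a`, `c` the square root of `q`. -/
def IsRootOf (p : ℕ) (L : IntermediateField ℚ Ω) (k N : ℕ) (b : Ω) : Prop :=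
  ∃ a : Ω, Good p L k a ∧ b ^ N = a * ((p : Ω) ^ k) ^ (N - 1)

theorem IsRootOf.abs (hN : 0 < N) {b : Ω} (hb : IsRootOf p L k N b) :
    HasAbs ((p : ℝ) ^ k) b := by
  obtain ⟨a, ha, h⟩ := hb
  refine HasAbs.root (by positivity) hN ?_
  rw [h]
  have h1 : ∀ n : ℕ, HasAbs (((p : ℝ) ^ k) ^ n) (((p : Ω) ^ k) ^ n) := by
    intro n
    have := HasAbs.natCast (Ω := Ω) ((p ^ k) ^ n)
    push_cast at this
    exact this
  have h2 := ha.abs.mul (h1 (N - 1))
  rw [← pow_succ', Nat.sub_add_cancel hN] at h2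
  exact h2

theorem IsRootOf.pow_mem (hN : 0 < N) {b : Ω} (hb : IsRootOf p L k N b) :
    ∃ s : ℕ, 0 < s ∧ b ^ s ∈ L := by
  obtain ⟨a, ha, h⟩ := hb
  have h1 : ∃ s : ℕ, 0 < s ∧ (b ^ N) ^ s ∈ L := by
    rw [h]
    exact pow_mem_mul ha.pow (pow_mem_pow (good_base (p := p) L k).pow (N - 1))
  obtain ⟨s, hs, h2⟩ := h1
  exact ⟨N * s, Nat.mul_pos hN hs, by rw [pow_mul]; exact h2⟩

theorem nprod_pow (hN : 0 < N) (l : List Ω) (hl : ∀ b ∈ l, IsRootOf p L k N b)
    (hlen : l.length ≤ N) : ∃ A : Ω, IsIntegral ℤ A ∧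
      nprod ((p : Ω) ^ k) l ^ N = A * ((p : Ω) ^ k) ^ (N - l.length) := by
  have hp : (p : Ω) ^ k ≠ 0 := pow_ne_zero k p_ne_zero
  induction l with
  | nil => exact ⟨1, isIntegral_one, by simp [nprod]⟩
  | cons b l ih =>
    obtain ⟨A, hA, h⟩ := ih (fun b' hb' => hl b' (List.mem_cons_of_mem _ hb')) (by
      rw [List.length_cons] at hlen; omega)
    obtain ⟨a, ha, h'⟩ := hl b List.mem_cons_self
    refine ⟨a * A, ha.int.mul hA, ?_⟩
    rw [List.length_cons] at hlen
    rw [nprod, div_pow, mul_pow, h, h', List.length_cons, div_eq_iff (pow_ne_zero N hp)]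
    have e : N - 1 + (N - l.length) = (N - (l.length + 1)) + N := by omega
    calc a * ((p : Ω) ^ k) ^ (N - 1) * (A * ((p : Ω) ^ k) ^ (N - l.length)) =
        a * A * ((p : Ω) ^ k) ^ (N - 1 + (N - l.length)) := by rw [pow_add]; ring
      _ = a * A * ((p : Ω) ^ k) ^ (N - (l.length + 1)) * ((p : Ω) ^ k) ^ N := by
        rw [e, pow_add]; ring

theorem nprod_good (hN : 0 < N) (l : List Ω) (hl : ∀ b ∈ l, IsRootOf p L k N b)
    (hlen : l.length ≤ N) : Good p L k (nprod ((p : Ω) ^ k) l) := by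
  have hp : (p : Ω) ^ k ≠ 0 := pow_ne_zero k p_ne_zero
  have hp' : (p : ℝ) ^ k ≠ 0 := pow_ne_zero k (Nat.cast_ne_zero.2 (Fact.out : p.Prime).ne_zero)
  refine ⟨?_, ?_, ?_⟩
  · obtain ⟨A, hA, h⟩ := nprod_pow hN l hl hlen
    refine IsIntegral.of_pow hN ?_
    rw [h]
    exact hA.mul ((good_base (p := p) L k).int.pow _)
  · clear hlen
    induction l with
    | nil => exact (good_base (p := p) L k).abs
    | cons b l ih =>
      have h1 := ih fun b' hb' => hl b' (List.mem_cons_of_mem _ hb')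
      have h2 := (hl b List.mem_cons_self).abs hN
      have h3 := (h2.mul h1).mul (good_base (p := p) L k).abs.inv
      rw [nprod, div_eq_mul_inv]
      rwa [mul_inv_cancel_right₀ hp'] at h3
  · clear hlen
    induction l with
    | nil => exact (good_base (p := p) L k).pow
    | cons b l ih =>
      have h1 := ih fun b' hb' => hl b' (List.mem_cons_of_mem _ hb')
      have h2 := (hl b List.mem_cons_self).pow_mem hN
      rw [nprod, div_eq_mul_inv]
      exact pow_mem_mul (pow_mem_mul h2 h1) (pow_mem_inv (good_base (p := p) L k).pow)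

theorem good_of_root (hN : 0 < N) {b : Ω} (hb : IsRootOf p L k N b) : Good p L k b := by
  have hp : (p : Ω) ^ k ≠ 0 := pow_ne_zero k p_ne_zero
  have h := nprod_good hN [b] (by simpa using hb) (by rw [List.length_singleton]; omega)
  have e : nprod ((p : Ω) ^ k) [b] = b := by simp [nprod, hp]
  rwa [e] at h

theorem nprod_replicate (hN : 0 < N) {b a : Ω} (h : b ^ N = a * ((p : Ω) ^ k) ^ (N - 1)) :
    nprod ((p : Ω) ^ k) (List.replicate N b) = a := by
  have hp : (p : Ω) ^ k ≠ 0 := pow_ne_zero k p_ne_zero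
  have h1 := nprod_eq hp (List.replicate N b)
  rw [List.prod_replicate, List.length_replicate, h, mul_assoc, ← pow_succ,
    Nat.sub_add_cancel hN] at h1
  exact mul_right_cancel₀ (pow_ne_zero N hp) h1

/-- Roots with product `c ^ N`. -/
theorem exists_roots {n : ℕ} (c : Ω) (hc : c ≠ 0) (a : Fin (n + 1) → Ω) (ha : ∏ i, a i = c ^ (n + 1)) :
    ∃ b : Fin (n + 1) → Ω, (∀ i, b i ^ (n + 1) = a i * c ^ n) ∧ ∏ i, b i = c ^ (n + 1) := by
  choose b' hb' using fun i => IsAlgClosed.exists_pow_nat_eq (a i * c ^ n) (Nat.succ_pos n)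
  have h1 : (∏ i, b' i) ^ (n + 1) = (c ^ (n + 1)) ^ (n + 1) := by
    rw [← Finset.prod_pow]
    simp only [hb']
    rw [Finset.prod_mul_distrib, ha, Finset.prod_const, Finset.card_univ, Fintype.card_fin]
    ring
  have hcn : c ^ (n + 1) ≠ 0 := pow_ne_zero _ hc
  have hP : ∏ i, b' i ≠ 0 := by
    intro h0
    rw [h0, zero_pow (Nat.succ_ne_zero n)] at h1
    exact pow_ne_zero _ hcn h1.symm
  let z : Ω := c ^ (n + 1) / ∏ i, b' i
  have hz : z ^ (n + 1) = 1 := by
    rw [div_pow, h1, div_self (pow_ne_zero _ hcn)]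
  refine ⟨Fin.cons (z * b' 0) fun i => b' i.succ, ?_, ?_⟩
  · intro i
    refine Fin.cases ?_ (fun i => ?_) i
    · rw [Fin.cons_zero, mul_pow, hz, one_mul]
      exact hb' 0
    · rw [Fin.cons_succ]
      exact hb' i.succ
  · rw [Fin.prod_univ_succ]
    simp only [Fin.cons_zero, Fin.cons_succ]
    rw [mul_assoc, ← Fin.prod_univ_succ]
    exact div_mul_cancel₀ _ hP

variable {S : CycleSystem p Ω} [Normal ℚ L]

theorem suffix_mem {α : Type} {l l' : List α} (h : l' <:+ l) {x : α} (hx : x ∈ l') : x ∈ l :=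
  h.subset hx

/-- Merging `N` copies of all roots. -/
theorem Rel.mergeList (hS : HasDivisors S L) (hS3 : HasDegreeThree S L) (hk : 0 < k) (hN : 0 < N)
    (l : List (Ω × Ω)) (hl : ∀ x ∈ l, Good p L k x.1 ∧ x.2 ^ N = x.1 * ((p : Ω) ^ k) ^ (N - 1))
    {μ : Multiset Ω}
    (hμ : Rel S L (2 * k) ((l.map fun x => Multiset.replicate N x.2).sum + μ)) :
    Rel S L (2 * k) ((l.map Prod.fst : Multiset Ω) +
      (Multiset.replicate (l.length * (N + 1)) ((p : Ω) ^ k) + μ)) := by
  induction l generalizing μ with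
  | nil => simpa using hμ
  | cons x l ih =>
    obtain ⟨hx, hx'⟩ := hl x List.mem_cons_self
    have hroot : IsRootOf p L k N x.2 := ⟨x.1, hx, hx'⟩
    have h1 := Rel.mergePow hS hS3 hk (b := x.2) N (fun j hj => nprod_good hN _ (by
      intro b hb
      rw [List.eq_of_mem_replicate hb]
      exact hroot) (by rw [List.length_replicate]; exact hj)) (good_of_root hN hroot) N le_rfl
      (μ := (l.map fun x => Multiset.replicate N x.2).sum + μ) (by
        rw [List.map_cons, List.sum_cons, add_assoc] at hμ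
        exact hμ)
    rw [nprod_replicate hN hx'] at h1
    have h2 := ih (fun y hy => hl y (List.mem_cons_of_mem _ hy))
      (μ := x.1 ::ₘ (Multiset.replicate (N + 1) ((p : Ω) ^ k) + μ)) (by
        have e : (l.map fun x => Multiset.replicate N x.2).sum +
            x.1 ::ₘ (Multiset.replicate (N + 1) ((p : Ω) ^ k) + μ) =
            x.1 ::ₘ (Multiset.replicate (N + 1) ((p : Ω) ^ k) +
              ((l.map fun x => Multiset.replicate N x.2).sum + μ)) := by
          simp only [← Multiset.singleton_add]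
          abel
        rw [e]; exact h1)
    have e : ((((x :: l).map Prod.fst : List Ω)) : Multiset Ω) +
        (Multiset.replicate ((x :: l).length * (N + 1)) ((p : Ω) ^ k) + μ) =
        ((l.map Prod.fst : List Ω) : Multiset Ω) +
          (Multiset.replicate (l.length * (N + 1)) ((p : Ω) ^ k) +
            x.1 ::ₘ (Multiset.replicate (N + 1) ((p : Ω) ^ k) + μ)) := by
      rw [List.map_cons, ← Multiset.cons_coe, List.length_cons, add_mul, one_mul,
        Multiset.replicate_add]
      simp only [← Multiset.singleton_add]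
      abel
    rw [e]
    exact h2

/-- **All relations between an even number of Weil numbers.** -/
theorem Rel.all (hS : HasDivisors S L) (hS3 : HasDegreeThree S L) (hk : 0 < k) {r : ℕ}
    (a : Fin (2 * r) → Ω) (ha : ∀ i, Good p L k (a i)) (hprod : ∏ i, a i = ((p : Ω) ^ k) ^ (2 * r)) :
    Rel S L (2 * k) (List.ofFn a : Multiset Ω) := by
  rcases Nat.eq_zero_or_pos r with rfl | hr
  · have e : (List.ofFn a : Multiset Ω) = 0 := by
      have : List.ofFn a = [] := by
        apply List.length_eq_zero_iff.1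
        rw [List.length_ofFn]
      rw [this]; rfl
    rw [e]
    exact Rel.zero
  have hp : (p : Ω) ^ k ≠ 0 := pow_ne_zero k p_ne_zero
  obtain ⟨n, hn⟩ : ∃ n, 2 * r = n + 1 := ⟨2 * r - 1, by omega⟩
  generalize hN : 2 * r = N at a ha hprod
  rw [hN] at hn
  subst hn
  obtain ⟨b, hb, hbprod⟩ := exists_roots ((p : Ω) ^ k) hp a hprod
  have hroot : ∀ x ∈ List.ofFn b, IsRootOf p L k (n + 1) x := by
    intro x hx
    obtain ⟨i, rfl⟩ := (List.mem_ofFn' b x).1 hx
    exact ⟨a i, ha i, by rw [hb i, Nat.add_sub_cancel]⟩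
  have e1 : nprod ((p : Ω) ^ k) (List.ofFn b) = (p : Ω) ^ k := by
    have h1 := nprod_eq hp (List.ofFn b)
    rw [List.prod_ofFn, hbprod, List.length_ofFn, mul_comm] at h1
    exact mul_left_cancel₀ (pow_ne_zero _ hp) h1
  have h2 : Rel S L (2 * k) (List.ofFn b : Multiset Ω) := by
    have h3 := Rel.splitList hS hS3 hk (List.ofFn b) (fun l' hl' => nprod_good (Nat.succ_pos n) l'
      (fun x hx => hroot x (hl'.subset hx)) (by
        have := hl'.length_le
        rw [List.length_ofFn] at this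
        exact this)) (μ := {(p : Ω) ^ k}) (by
          rw [e1]
          exact Rel.pair hS (by rw [← pow_add, two_mul]))
    refine Rel.cancelBase hS hk (r + 1) ?_
    rw [List.length_ofFn] at h3
    have e2 : (Multiset.replicate (2 * (r + 1)) ((p : Ω) ^ k) + (List.ofFn b : Multiset Ω)) =
        (List.ofFn b : Multiset Ω) + (Multiset.replicate (n + 1) ((p : Ω) ^ k) +
          (p : Ω) ^ k ::ₘ {(p : Ω) ^ k}) := by
      have e3 : 2 * (r + 1) = n + 1 + 1 + 1 := by omega
      rw [e3, Multiset.replicate_succ, Multiset.replicate_succ]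
      simp only [← Multiset.singleton_add]
      abel
    rw [e2]
    exact h3
  have h3 : Rel S L (2 * k) (((List.ofFn fun i => (a i, b i)).map fun x =>
      Multiset.replicate (n + 1) x.2).sum + 0) := by
    have h4 := h2.nsmul (n + 1)
    have e2 : (((List.ofFn fun i => (a i, b i)).map fun x =>
        Multiset.replicate (n + 1) x.2).sum + 0 : Multiset Ω) = (n + 1) • (List.ofFn b : Multiset Ω) := by
      rw [add_zero, List.map_ofFn, List.sum_ofFn]
      simp only [Function.comp_def, ← Multiset.nsmul_singleton]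
      rw [← Finset.smul_sum]
      congr 1
      rw [← Fin.univ_val_map, ← Multiset.sum_map_singleton (Multiset.map b Finset.univ.val),
        Multiset.map_map]
      rfl
    rw [e2]
    exact h4
  have h4 := Rel.mergeList hS hS3 hk (Nat.succ_pos n) (List.ofFn fun i => (a i, b i)) (by
    intro x hx
    obtain ⟨i, rfl⟩ := (List.mem_ofFn' _ x).1 hx
    exact ⟨ha i, by rw [hb i]; rfl⟩) h3
  rw [List.length_ofFn, List.map_ofFn] at h4
  have e5 : (Prod.fst ∘ fun i => (a i, b i)) = a := rfl
  rw [e5] at h4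
  obtain ⟨m, hm⟩ : ∃ m, (n + 1) * (n + 1 + 1) = 2 * m := ⟨r * (n + 2), by
    rw [← mul_assoc, hN]⟩
  refine Rel.cancelBase hS hk m ?_
  rw [← hm]
  have e6 : (Multiset.replicate ((n + 1) * (n + 1 + 1)) ((p : Ω) ^ k) + (List.ofFn a : Multiset Ω)) =
      (List.ofFn a : Multiset Ω) +
        (Multiset.replicate ((n + 1) * (n + 1 + 1)) ((p : Ω) ^ k) + 0) := by
    rw [add_zero, add_comm]
  rw [e6]
  exact h4

end Pool.Agent.V8H94.CT
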