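import Pool.Agent.V8H94.CT.Fin
import Pool.Agent.V8H94.CT.Gtc2

/-!
# Sets of Weil numbers closed in the supremum norm: all Tate classes and the coniveau filtration
-/

set_option autoImplicit false

namespace Pool.Agent.V8H94.CT

open Module Polynomial

variable {p : ℕ} [Fact p.Prime] {Ω : Type} [Field Ω] [CharZero Ω]

variable {κ : ℕ} {W : Set Ω} {X : Type} [Fintype X] {inv : X → X} {e : X → ℕ} {tau : Ω → X → ℤ}

omit [Fintype X] in
theorem IsBox.ne_zero (D : IsBox p κ W inv e tau) {w : Ω} (hw : w ∈ W) : w ≠ 0 :=
  (D.weil w hw).ne_zero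

section

variable [IsAlgClosed Ω] {S : CycleSystem p Ω}

/-- The normalized class. -/
noncomputable def Base.g (B : Base S κ W) (w : W) : AddUnits (relCon S (2 * κ)).Quotient :=
  B.cl w + B.th

theorem Base.g_add (B : Base S κ W) (D : IsBox p κ W inv e tau) {w w' w'' : W}
    (h : tau w.1 = tau w'.1 + tau w''.1) : B.g w = B.g w' + B.g w'' := by
  have hp : (p : Ω) ≠ 0 := Nat.cast_ne_zero.2 (Fact.out : p.Prime).ne_zero
  obtain ⟨k, hk, hk'⟩ := (D.rel {w'.1, w''.1, (p : Ω) ^ (2 * κ) / w.1, (p : Ω) ^ κ} (by
    intro x hx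
    simp only [Multiset.insert_eq_cons, Multiset.mem_cons, Multiset.mem_singleton] at hx
    rcases hx with rfl | rfl | rfl | rfl
    · exact w'.2
    · exact w''.2
    · exact D.conj _ w.2
    · exact D.base)).2 (by
      simp only [Multiset.insert_eq_cons, Multiset.map_cons, Multiset.map_singleton,
        Multiset.sum_cons, Multiset.sum_singleton]
      rw [D.τ_conj _ w.2, D.τ_base, h]
      abel)
  simp only [Multiset.insert_eq_cons, Multiset.prod_cons, Multiset.prod_singleton,
    Multiset.card_cons, Multiset.card_singleton] at hk'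
  have hw0 := D.ne_zero w.2
  have h1 : (w'.1 * w''.1) ^ k = (w.1 * (p : Ω) ^ κ) ^ k := by
    have e1 : w'.1 * w''.1 = (w'.1 * (w''.1 * ((p : Ω) ^ (2 * κ) / w.1 * (p : Ω) ^ κ))) *
        (w.1 / ((p : Ω) ^ κ) ^ 3) := by
      field_simp
      rw [← pow_mul, mul_comm κ 2]
    have e2 : w.1 * (p : Ω) ^ κ = ((p : Ω) ^ κ) ^ 4 * (w.1 / ((p : Ω) ^ κ) ^ 3) := by
      field_simp
    rw [e1, mul_pow, hk', e2, mul_pow]
  have h2 := B.cl_add' (x := w') (y := w'') (w := w) hk h1
  unfold Base.g
  rw [← h2]
  have h3 := B.th_add_th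
  calc B.cl w' + B.cl w'' = B.cl w' + B.cl w'' + 0 := by rw [add_zero]
    _ = B.cl w' + B.cl w'' + (B.th + B.th) := by rw [h3]
    _ = B.cl w' + B.th + (B.cl w'' + B.th) := by abel

theorem Base.g_zero (B : Base S κ W) (D : IsBox p κ W inv e tau) {w : W}
    (h : tau w.1 = 0) : B.g w = 0 := by
  have h1 := B.g_add D (w := w) (w' := w) (w'' := w) (by rw [h, add_zero])
  exact (left_eq_add.1 h1)

/-- The classes are given by a homomorphism. -/
theorem Base.exists_hom (B : Base S κ W) (D : IsBox p κ W inv e tau) :
    ∃ ψ : (X → ℤ) →+ AddUnits (relCon S (2 * κ)).Quotient, ∀ w : W, B.g w = ψ (tau w.1) := by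
  classical
  let idx := Fintype.equivFin X
  let R : Finset X := Finset.univ.filter fun x => idx x < idx (inv x)
  let δ : X → X → ℤ := fun x => Pi.single x 1 - Pi.single (inv x) 1
  have hδ : ∀ x ∈ R, 0 < e x → ∃ w : W, tau w.1 = δ x := by
    intro x hx he
    have hne : x ≠ inv x := by
      intro h
      have h1 := (Finset.mem_filter.1 hx).2
      rw [← h] at h1
      exact lt_irrefl _ h1
    obtain ⟨w, hw, hw'⟩ := D.surj (δ x) (by
      intro y
      simp only [δ, Pi.sub_apply, Pi.single_apply]
      by_cases h1 : y = x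
      · subst h1
        rw [if_neg hne.symm, if_pos rfl, if_pos rfl, if_neg hne]
        ring
      · by_cases h2 : y = inv x
        · subst h2
          rw [if_pos (D.inv_inv x), D.inv_inv, if_neg hne, if_neg hne.symm, if_pos rfl]
          ring
        · have h3 : inv y ≠ x := by
            intro h; apply h2; rw [← h, D.inv_inv]
          have h4 : inv y ≠ inv x := by
            intro h; apply h1; rw [← D.inv_inv y, h, D.inv_inv]
          rw [if_neg h3, if_neg h4, if_neg h1, if_neg h2]
          ring) (by
      intro y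
      simp only [δ, Pi.sub_apply, Pi.single_apply]
      by_cases h1 : y = x
      · subst h1
        rw [if_pos rfl, if_neg hne, sub_zero, abs_one]
        exact_mod_cast he
      · by_cases h2 : y = inv x
        · subst h2
          rw [if_neg hne.symm, if_pos rfl, zero_sub, abs_neg, abs_one, D.e_inv]
          exact_mod_cast he
        · rw [if_neg h1, if_neg h2, sub_zero, abs_zero]
          exact_mod_cast Nat.zero_le _)
    exact ⟨⟨w, hw⟩, hw'⟩
  let d : X → AddUnits (relCon S (2 * κ)).Quotient := fun x =>
    if h : x ∈ R ∧ 0 < e x then B.g (hδ x h.1 h.2).choose else 0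
  let ψ : (X → ℤ) →+ AddUnits (relCon S (2 * κ)).Quotient :=
    AddMonoidHom.mk' (fun T => ∑ x ∈ R, T x • d x) (by
      intro a b
      rw [← Finset.sum_add_distrib]
      exact Finset.sum_congr rfl fun y _ => add_zsmul _ _ _)
  have hψδ : ∀ x ∈ R, ψ (δ x) = d x := by
    intro x hx
    have h1 := (Finset.mem_filter.1 hx).2
    have hne : x ≠ inv x := by
      intro h
      rw [← h] at h1
      exact lt_irrefl _ h1
    have h2 : inv x ∉ R := by
      intro h
      have h3 := (Finset.mem_filter.1 h).2
      rw [D.inv_inv] at h3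
      exact lt_asymm h1 h3
    change ∑ y ∈ R, δ x y • d y = d x
    rw [Finset.sum_eq_single x]
    · simp only [δ, Pi.sub_apply, Pi.single_apply]
      rw [if_pos trivial, if_neg hne, sub_zero, one_smul]
    · intro y hy hyx
      have h3 : y ≠ inv x := by rintro rfl; exact h2 hy
      simp only [δ, Pi.sub_apply, Pi.single_apply]
      rw [if_neg hyx, if_neg h3, sub_zero, zero_smul]
    · intro h; exact absurd hx h
  refine ⟨ψ, ?_⟩
  have key : ∀ (n : ℕ) (w : W), ∑ x, (tau w.1 x).natAbs = n → B.g w = ψ (tau w.1) := by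
    intro n
    induction n using Nat.strong_induction_on with
    | _ n ih =>
    intro w hn
    by_cases h0 : tau w.1 = 0
    · rw [h0, map_zero]; exact B.g_zero D h0
    have h1 : ∃ x ∈ R, tau w.1 x ≠ 0 := by
      obtain ⟨x, hx⟩ := Function.ne_iff.1 h0
      have hx' : tau w.1 x ≠ 0 := hx
      have hne : x ≠ inv x := by
        intro h
        have h2 := D.odd w.1 w.2 x
        rw [← h] at h2
        omega
      rcases lt_trichotomy (idx x) (idx (inv x)) with h | h | h
      · exact ⟨x, Finset.mem_filter.2 ⟨Finset.mem_univ x, h⟩, hx'⟩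
      · exact absurd (idx.injective h) hne
      · refine ⟨inv x, Finset.mem_filter.2 ⟨Finset.mem_univ _, by rw [D.inv_inv]; exact h⟩, ?_⟩
        rw [D.odd w.1 w.2]
        exact neg_ne_zero.2 hx'
    obtain ⟨x, hxR, hx⟩ := h1
    have hlt := (Finset.mem_filter.1 hxR).2
    have hne : x ≠ inv x := by
      intro h
      rw [← h] at hlt
      exact lt_irrefl _ hlt
    have hb := D.bound w.1 w.2
    have hex : 0 < e x := by
      have h2 := hb x
      have h3 : 0 < |tau w.1 x| := abs_pos.2 hx
      exact_mod_cast lt_of_lt_of_le h3 h2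
    let wx : W := (hδ x hxR hex).choose
    have hwx : tau wx.1 = δ x := (hδ x hxR hex).choose_spec
    have hd : d x = B.g wx := by
      simp only [d]
      rw [dif_pos ⟨hxR, hex⟩]
    -- the step
    have step : ∀ ε : ℤ, (ε = 1 ∨ ε = -1) → 0 < ε * tau w.1 x →
        ∃ w' : W, tau w'.1 = tau w.1 - ε • δ x ∧
          ∑ y, (tau w'.1 y).natAbs < ∑ y, (tau w.1 y).natAbs := by
      intro ε hε hpos
      have hval : ∀ y, (tau w.1 - ε • δ x) y =
          if y = x then tau w.1 x - ε else if y = inv x then - (tau w.1 x - ε) else tau w.1 y := by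
        intro y
        simp only [δ, Pi.sub_apply, Pi.smul_apply, Pi.single_apply, smul_eq_mul]
        by_cases h1 : y = x
        · subst h1
          rw [if_pos rfl, if_neg hne, if_pos rfl]
          ring
        · by_cases h2 : y = inv x
          · subst h2
            rw [if_neg hne.symm, if_pos rfl, if_neg hne.symm, if_pos rfl, D.odd w.1 w.2]
            ring
          · rw [if_neg h1, if_neg h2, if_neg h1, if_neg h2]
            ring
      have hsmall : |tau w.1 x - ε| < |tau w.1 x| := by
        rcases hε with rfl | rfl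
        · rw [abs_of_nonneg (by omega : (0 : ℤ) ≤ tau w.1 x - 1), abs_of_pos (by omega)]
          omega
        · rw [abs_of_nonpos (by omega : tau w.1 x - -1 ≤ 0), abs_of_neg (by omega)]
          omega
      have hsmall' : (tau w.1 x - ε).natAbs < (tau w.1 x).natAbs := by
        rcases hε with rfl | rfl <;> omega
      obtain ⟨w', hw', hw''⟩ := D.surj (tau w.1 - ε • δ x) (by
        intro y
        rw [hval, hval]
        by_cases h1 : y = x
        · subst h1
          rw [if_neg hne.symm, if_pos rfl, if_pos rfl]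
        · by_cases h2 : y = inv x
          · subst h2
            rw [D.inv_inv, if_pos rfl, if_neg hne.symm, if_pos rfl, neg_neg]
          · have h3 : inv y ≠ x := by
              intro h; apply h2; rw [← h, D.inv_inv]
            have h4 : inv y ≠ inv x := by
              intro h; apply h1; rw [← D.inv_inv y, h, D.inv_inv]
            rw [if_neg h3, if_neg h4, if_neg h1, if_neg h2, D.odd w.1 w.2]) (by
        intro y
        rw [hval]
        by_cases h1 : y = x
        · subst h1
          rw [if_pos rfl]
          exact hsmall.le.trans (hb y)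
        · by_cases h2 : y = inv x
          · subst h2
            rw [if_neg hne.symm, if_pos rfl, abs_neg, D.e_inv]
            exact hsmall.le.trans (hb x)
          · rw [if_neg h1, if_neg h2]
            exact hb y)
      refine ⟨⟨w', hw'⟩, hw'', ?_⟩
      change ∑ y, (tau w' y).natAbs < _
      rw [hw'']
      refine Finset.sum_lt_sum (fun y _ => ?_) ⟨x, Finset.mem_univ x, ?_⟩
      · rw [hval]
        by_cases h1 : y = x
        · subst h1
          rw [if_pos rfl]
          exact hsmall'.le
        · by_cases h2 : y = inv x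
          · subst h2
            rw [if_neg hne.symm, if_pos rfl, D.odd w.1 w.2, Int.natAbs_neg, Int.natAbs_neg]
            exact hsmall'.le
          · rw [if_neg h1, if_neg h2]
      · rw [hval, if_pos rfl]
        exact hsmall'
    rcases lt_or_gt_of_ne hx with hneg | hpos
    · obtain ⟨w', hw', hlt'⟩ := step (-1) (Or.inr rfl) (by omega)
      have h2 := ih _ (hn ▸ hlt') w' rfl
      have h3 : B.g w' = B.g w + B.g wx := B.g_add D (by
        rw [hw', hwx]; simp)
      have h4 : ψ (tau w'.1) = ψ (tau w.1) + ψ (δ x) := by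
        rw [hw', ← map_add]; congr 1; simp
      rw [h2, h4, hψδ x hxR, hd] at h3
      exact (add_right_cancel h3).symm
    · obtain ⟨w', hw', hlt'⟩ := step 1 (Or.inl rfl) (by omega)
      have h2 := ih _ (hn ▸ hlt') w' rfl
      have h3 : B.g w = B.g w' + B.g wx := B.g_add D (by
        rw [hw', hwx]; simp)
      rw [h3, h2, ← hd, ← hψδ x hxR, ← map_add, hw']
      congr 1
      simp
  exact fun w => key _ w rfl

/-- **All relations between the elements of `W`.** -/
theorem Base.rel_of_box (B : Base S κ W) (D : IsBox p κ W inv e tau) (l : List W) {r : ℕ}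
    (hr : l.length = 2 * r) {s : ℕ} (hs : 0 < s)
    (hl : (l.map Subtype.val).prod ^ s = (((p : Ω) ^ κ) ^ (2 * r)) ^ s) :
    RelA S (2 * κ) ((l.map Subtype.val : List Ω) : Multiset Ω) := by
  obtain ⟨ψ, hψ⟩ := B.exists_hom D
  have h1 := (D.rel ((l.map Subtype.val : List Ω) : Multiset Ω) (by
    intro w hw
    rw [Multiset.mem_coe] at hw
    obtain ⟨w', _, rfl⟩ := List.mem_map.1 hw
    exact w'.2)).1 ⟨s, hs, by
      rw [Multiset.prod_coe, Multiset.coe_card, List.length_map, hr]
      exact hl⟩
  rw [Multiset.map_coe, Multiset.sum_coe, List.map_map] at h1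
  refine B.rel_of_sum l ?_
  have h2 : ∀ l : List W, (l.map B.cl).sum = ψ ((l.map (tau ∘ Subtype.val)).sum) +
      l.length • B.th := by
    intro l
    induction l with
    | nil => simp
    | cons w l ih =>
      rw [List.map_cons, List.sum_cons, ih, List.map_cons, List.sum_cons, map_add,
        List.length_cons, succ_nsmul]
      have h3 : B.cl w = ψ (tau w.1) + B.th := by
        have h4 : B.cl w + B.th = ψ (tau w.1) := hψ w
        rw [← h4, add_assoc, B.th_add_th, add_zero]
      rw [h3]
      change ψ (tau w.1) + B.th + _ = ψ (tau w.1) + _ + _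
      abel
  rw [h2, h1, map_zero, zero_add, hr, mul_nsmul, two_nsmul, B.th_add_th, nsmul_zero]

end

/-- Splitting of odd functions. -/
theorem exists_split_fun (hinv : ∀ x, inv (inv x) = x) (he : ∀ x, e (inv x) = e x) (j : ℕ) :
    ∀ s : X → ℤ, (∀ x, s (inv x) = - s x) → (∀ x, |s x| ≤ (j : ℤ) * e x) →
      ∃ T : List (X → ℤ), T.length = j ∧ (∀ t ∈ T, (∀ x, t (inv x) = - t x) ∧
        ∀ x, |t x| ≤ e x) ∧ T.sum = s := by
  induction j with
  | zero =>
    intro s _ hb
    refine ⟨[], rfl, by simp, ?_⟩
    funext x
    have := hb x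
    rw [Nat.cast_zero, zero_mul] at this
    have h0 := abs_nonpos_iff.1 this
    rw [h0]; rfl
  | succ j ih =>
    intro s hodd hb
    let t : X → ℤ := fun x => max (- (e x : ℤ)) (min (e x) (s x))
    have ht : ∀ x, t (inv x) = - t x := by
      intro x
      simp only [t]
      rw [he, hodd]
      omega
    have htb : ∀ x, |t x| ≤ e x := by
      intro x
      rw [abs_le]
      simp only [t]
      omega
    obtain ⟨T, hT, hT', hTs⟩ := ih (s - t) (by
      intro x
      rw [Pi.sub_apply, Pi.sub_apply, hodd, ht]
      ring) (by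
      intro x
      have h1 := hb x
      push_cast at h1
      rw [add_mul, one_mul, abs_le] at h1
      rw [abs_le, Pi.sub_apply]
      simp only [t]
      have h2 : (0 : ℤ) ≤ (j : ℤ) * e x := by positivity
      omega)
    refine ⟨t :: T, by rw [List.length_cons, hT], ?_, ?_⟩
    · intro t' ht'
      rcases List.mem_cons.1 ht' with rfl | ht'
      · exact ⟨ht, htb⟩
      · exact hT' t' ht'
    · rw [List.sum_cons, hTs, add_sub_cancel]

end Pool.Agent.V8H94.CT
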