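import Pool.Agent.V8H94.CT.Cancel

/-!
# All relations follow from the four-term relations with a supersingular elliptic curve
-/

set_option autoImplicit false

namespace Pool.Agent.V8H94.CT

open Module Polynomial

variable {p : ℕ} [Fact p.Prime] {Ω : Type} [Field Ω] [CharZero Ω] [IsAlgClosed Ω]

/-- `a` is a Weil number for `p ^ (2 * k)` with a power in `L`. -/
structure Good (p : ℕ) (L : IntermediateField ℚ Ω) (k : ℕ) (a : Ω) : Prop where
  int : IsIntegral ℤ a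
  abs : HasAbs ((p : ℝ) ^ k) a
  pow : ∃ s : ℕ, 0 < s ∧ a ^ s ∈ L

theorem Good.weil {L : IntermediateField ℚ Ω} {k : ℕ} {a : Ω} (h : Good p L k a) :
    IsWeil p (2 * k) a := by
  refine ⟨h.int, fun z hz => ?_⟩
  rw [h.abs.2 z hz, ← pow_mul, mul_comm]

theorem Good.ne_zero {L : IntermediateField ℚ Ω} {k : ℕ} {a : Ω} (h : Good p L k a) : a ≠ 0 :=
  h.weil.ne_zero

theorem pow_mem_mul {L : IntermediateField ℚ Ω} {a b : Ω} (ha : ∃ s : ℕ, 0 < s ∧ a ^ s ∈ L)
    (hb : ∃ s : ℕ, 0 < s ∧ b ^ s ∈ L) : ∃ s : ℕ, 0 < s ∧ (a * b) ^ s ∈ L := by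
  obtain ⟨s, hs, ha⟩ := ha
  obtain ⟨t, ht, hb⟩ := hb
  refine ⟨s * t, Nat.mul_pos hs ht, ?_⟩
  rw [mul_pow]
  refine mul_mem ?_ ?_
  · rw [pow_mul]; exact pow_mem ha t
  · rw [mul_comm s t, pow_mul]; exact pow_mem hb s

theorem pow_mem_inv {L : IntermediateField ℚ Ω} {a : Ω} (ha : ∃ s : ℕ, 0 < s ∧ a ^ s ∈ L) :
    ∃ s : ℕ, 0 < s ∧ (a⁻¹) ^ s ∈ L := by
  obtain ⟨s, hs, ha⟩ := ha
  exact ⟨s, hs, by rw [inv_pow]; exact inv_mem ha⟩

theorem pow_mem_pow {L : IntermediateField ℚ Ω} {a : Ω} (ha : ∃ s : ℕ, 0 < s ∧ a ^ s ∈ L) (n : ℕ) :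
    ∃ s : ℕ, 0 < s ∧ (a ^ n) ^ s ∈ L := by
  obtain ⟨s, hs, ha⟩ := ha
  exact ⟨s, hs, by rw [← pow_mul, mul_comm, pow_mul]; exact pow_mem ha n⟩

theorem pow_mem_cast (L : IntermediateField ℚ Ω) (n : ℕ) :
    ∃ s : ℕ, 0 < s ∧ (n : Ω) ^ s ∈ L :=
  ⟨1, one_pos, by rw [pow_one]; exact natCast_mem L n⟩

theorem good_base (L : IntermediateField ℚ Ω) (k : ℕ) : Good p L k ((p : Ω) ^ k) := by
  refine ⟨?_, ?_, ?_⟩
  · exact (isIntegral_natCast p).pow k
  · have := HasAbs.natCast (Ω := Ω) (p ^ k)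
    push_cast at this
    exact this
  · have := pow_mem_cast L (p ^ k)
    push_cast at this
    exact this

variable {S : CycleSystem p Ω} {L : IntermediateField ℚ Ω} [Normal ℚ L] {k : ℕ}

theorem p_ne_zero : (p : Ω) ≠ 0 := Nat.cast_ne_zero.2 (Fact.out : p.Prime).ne_zero

theorem Rel.cancelGood (hS : HasDivisors S L) (hk : 0 < k) {a : Ω} (ha : Good p L k a)
    {μ : Multiset Ω} (h : Rel S L (2 * k) (a ::ₘ ((p : Ω) ^ (2 * k) / a) ::ₘ μ)) :
    Rel S L (2 * k) μ := by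
  obtain ⟨s, hs, hL⟩ := ha.pow
  exact Rel.cancel hS (by omega) ha.weil hs hL h

theorem base_div : (p : Ω) ^ (2 * k) / (p : Ω) ^ k = (p : Ω) ^ k := by
  have h : (p : Ω) ≠ 0 := p_ne_zero
  rw [two_mul, pow_add, mul_div_cancel_left₀ _ (pow_ne_zero k h)]

theorem Rel.cancelBase (hS : HasDivisors S L) (hk : 0 < k) (n : ℕ) {μ : Multiset Ω}
    (h : Rel S L (2 * k) (Multiset.replicate (2 * n) ((p : Ω) ^ k) + μ)) :
    Rel S L (2 * k) μ := by
  induction n with
  | zero => simpa using h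
  | succ n ih =>
    apply ih
    have h2 := Rel.cancelGood hS hk (good_base L k) (μ :=
      Multiset.replicate (2 * n) ((p : Ω) ^ k) + μ) ?_
    · exact h2
    · rw [base_div]
      have e : 2 * (n + 1) = 2 * n + 1 + 1 := by ring
      rw [e, Multiset.replicate_succ, Multiset.replicate_succ, Multiset.cons_add,
        Multiset.cons_add] at h
      exact h

theorem Rel.split (hS : HasDivisors S L) (hS3 : HasDegreeThree S L) (hk : 0 < k) {x y w : Ω}
    (hw : Good p L k w) (h : x * y = w * (p : Ω) ^ k) {μ : Multiset Ω}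
    (hμ : Rel S L (2 * k) (w ::ₘ μ)) :
    Rel S L (2 * k) (x ::ₘ y ::ₘ ((p : Ω) ^ k) ::ₘ μ) := by
  refine Rel.cancelGood hS hk hw ?_
  have h1 := (Rel.four (S := S) hS3 hk hw.ne_zero h).add hμ
  have e : ({x, y, (p : Ω) ^ (2 * k) / w, (p : Ω) ^ k} : Multiset Ω) + (w ::ₘ μ) =
      w ::ₘ ((p : Ω) ^ (2 * k) / w) ::ₘ (x ::ₘ y ::ₘ ((p : Ω) ^ k) ::ₘ μ) := by
    simp only [Multiset.insert_eq_cons, ← Multiset.singleton_add]
    abel
  rwa [e] at h1

theorem Rel.merge (hS : HasDivisors S L) (hS3 : HasDegreeThree S L) (hk : 0 < k) {x y w : Ω}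
    (hx : Good p L k x) (hy : Good p L k y) (h : x * y = w * (p : Ω) ^ k) {μ : Multiset Ω}
    (hμ : Rel S L (2 * k) (x ::ₘ y ::ₘ μ)) :
    Rel S L (2 * k) (w ::ₘ ((p : Ω) ^ k) ::ₘ μ) := by
  have hp : (p : Ω) ≠ 0 := p_ne_zero
  have hx0 := hx.ne_zero
  have hy0 := hy.ne_zero
  have hw0 : w ≠ 0 := by
    rintro rfl
    rw [zero_mul] at h
    exact (mul_ne_zero hx0 hy0) h
  refine Rel.cancelGood hS hk hy ?_
  refine Rel.cancelGood hS hk hx ?_
  have h0 : ((p : Ω) ^ (2 * k) / x) * ((p : Ω) ^ (2 * k) / y) =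
      ((p : Ω) ^ (2 * k) / w) * (p : Ω) ^ k := by
    rw [div_mul_div_comm, h, div_mul_eq_mul_div, div_eq_div_iff (mul_ne_zero hw0
      (pow_ne_zero k hp)) hw0]
    ring
  have h1 := (Rel.four (S := S) hS3 hk (div_ne_zero (pow_ne_zero (2 * k) hp) hw0) h0).add hμ
  have e0 : (p : Ω) ^ (2 * k) / ((p : Ω) ^ (2 * k) / w) = w := by
    rw [div_div_cancel₀ (pow_ne_zero (2 * k) hp)]
  rw [e0] at h1
  have e : ({(p : Ω) ^ (2 * k) / x, (p : Ω) ^ (2 * k) / y, w, (p : Ω) ^ k} : Multiset Ω) +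
      (x ::ₘ y ::ₘ μ) = x ::ₘ ((p : Ω) ^ (2 * k) / x) ::ₘ y ::ₘ ((p : Ω) ^ (2 * k) / y) ::ₘ
        w ::ₘ ((p : Ω) ^ k) ::ₘ μ := by
    simp only [Multiset.insert_eq_cons, ← Multiset.singleton_add]
    abel
  rwa [e] at h1

/-- The normalized product of a list. -/
noncomputable def nprod (c : Ω) : List Ω → Ω
  | [] => c
  | b :: l => b * nprod c l / c

omit [CharZero Ω] [IsAlgClosed Ω] in
theorem nprod_eq {c : Ω} (hc : c ≠ 0) (l : List Ω) :
    nprod c l * c ^ l.length = l.prod * c := by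
  induction l with
  | nil => simp [nprod]
  | cons b l ih =>
    rw [nprod, List.length_cons, pow_succ, List.prod_cons, mul_assoc b, ← ih]
    field_simp

theorem Rel.splitList (hS : HasDivisors S L) (hS3 : HasDegreeThree S L) (hk : 0 < k) (l : List Ω)
    (hl : ∀ l' : List Ω, l' <:+ l → Good p L k (nprod ((p : Ω) ^ k) l')) {μ : Multiset Ω}
    (hμ : Rel S L (2 * k) (nprod ((p : Ω) ^ k) l ::ₘ μ)) :
    Rel S L (2 * k) ((l : Multiset Ω) + (Multiset.replicate l.length ((p : Ω) ^ k) +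
      ((p : Ω) ^ k) ::ₘ μ)) := by
  induction l generalizing μ with
  | nil => simpa [nprod] using hμ
  | cons b l ih =>
    have hp : (p : Ω) ^ k ≠ 0 := pow_ne_zero k p_ne_zero
    have h1 := Rel.split hS hS3 hk (x := b) (y := nprod ((p : Ω) ^ k) l) (hl _ List.suffix_rfl)
      (by rw [nprod]; field_simp) hμ
    have h2 := ih (fun l' hl' => hl l' (hl'.trans (List.suffix_cons b l)))
      (μ := b ::ₘ ((p : Ω) ^ k) ::ₘ μ) (by
        rw [Multiset.cons_swap]; exact h1)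
    have e : ((b :: l : List Ω) : Multiset Ω) +
        (Multiset.replicate (b :: l).length ((p : Ω) ^ k) + ((p : Ω) ^ k) ::ₘ μ) =
        (l : Multiset Ω) + (Multiset.replicate l.length ((p : Ω) ^ k) + ((p : Ω) ^ k) ::ₘ
          b ::ₘ ((p : Ω) ^ k) ::ₘ μ) := by
      rw [← Multiset.cons_coe, List.length_cons, Multiset.replicate_succ]
      simp only [← Multiset.singleton_add]
      abel
    rw [e]
    exact h2

theorem Rel.mergePow (hS : HasDivisors S L) (hS3 : HasDegreeThree S L) (hk : 0 < k) {b : Ω} (N : ℕ)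
    (hb : ∀ j ≤ N, Good p L k (nprod ((p : Ω) ^ k) (List.replicate j b))) (hb1 : Good p L k b)
    (j : ℕ) (hj : j ≤ N) {μ : Multiset Ω}
    (hμ : Rel S L (2 * k) (Multiset.replicate j b + μ)) :
    Rel S L (2 * k) (nprod ((p : Ω) ^ k) (List.replicate j b) ::ₘ
      (Multiset.replicate (j + 1) ((p : Ω) ^ k) + μ)) := by
  induction j generalizing μ with
  | zero =>
    have hp : (p : Ω) ^ k ≠ 0 := pow_ne_zero k p_ne_zero
    have := Rel.cons_cons hS (a := (p : Ω) ^ k) (b := (p : Ω) ^ k) (M := 2 * k)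
      (by rw [← pow_add, two_mul]) (μ := μ) (by simpa using hμ)
    simpa [nprod] using this
  | succ j ih =>
    have hp : (p : Ω) ^ k ≠ 0 := pow_ne_zero k p_ne_zero
    have h1 := ih (by omega) (μ := b ::ₘ μ) (by
      rw [Multiset.replicate_succ] at hμ
      have e : Multiset.replicate j b + b ::ₘ μ = b ::ₘ Multiset.replicate j b + μ := by
        rw [Multiset.add_cons, Multiset.cons_add]
      rw [e]; exact hμ)
    have h2 := Rel.merge hS hS3 hk (x := nprod ((p : Ω) ^ k) (List.replicate j b)) (y := b)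
      (w := nprod ((p : Ω) ^ k) (List.replicate (j + 1) b)) (hb j (by omega)) hb1
      (by rw [List.replicate_succ, nprod]; field_simp)
      (μ := Multiset.replicate (j + 1) ((p : Ω) ^ k) + μ) (by
        have e : nprod ((p : Ω) ^ k) (List.replicate j b) ::ₘ b ::ₘ
            (Multiset.replicate (j + 1) ((p : Ω) ^ k) + μ) =
            nprod ((p : Ω) ^ k) (List.replicate j b) ::ₘ
              (Multiset.replicate (j + 1) ((p : Ω) ^ k) + b ::ₘ μ) := by
          rw [Multiset.add_cons]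
        rw [e]; exact h1)
    have e : nprod ((p : Ω) ^ k) (List.replicate (j + 1) b) ::ₘ
        (Multiset.replicate (j + 1 + 1) ((p : Ω) ^ k) + μ) =
        nprod ((p : Ω) ^ k) (List.replicate (j + 1) b) ::ₘ ((p : Ω) ^ k) ::ₘ
          (Multiset.replicate (j + 1) ((p : Ω) ^ k) + μ) := by
      rw [Multiset.replicate_succ (_) (j + 1), Multiset.cons_add]
    rw [e]
    exact h2

end Pool.Agent.V8H94.CT
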