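import Pool.Agent.V8H94.CT.Objects

/-!
# Systems of cohomology classes on abelian varieties over finite fields
-/

set_option autoImplicit false

namespace Pool.Agent.V8H94.CT

open Module Polynomial

section

variable {p : ℕ} [Fact p.Prime] {Ω : Type} [Field Ω] [CharZero Ω]

/-- `h` is a linear combination of the maps `B.H → A.H` which are induced by homomorphisms `A → B` over
the algebraic closure of the finite fields: it commutes with the Frobenius endomorphisms over a common
finite extension of the fields of definition (theorem of Tate). -/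
def IsHom (A B : AbVar p Ω) (h : B.H →ₗ[Ω] A.H) : Prop :=
  ∃ s t : ℕ, 0 < s ∧ 0 < t ∧ s * A.m = t * B.m ∧ h ∘ₗ (B.F ^ t) = (A.F ^ s) ∘ₗ h

/-- The class `x` in the cohomology algebra of `A` is a Tate class of codimension `r` over a finite
extension of the field of definition. -/
def IsTate (A : AbVar p Ω) (r : ℕ) (x : ExteriorAlgebra Ω A.H) : Prop :=
  x ∈ ⋀[Ω]^(2 * r) A.H ∧ ∃ s : ℕ, 0 < s ∧
    ExteriorAlgebra.map (A.F ^ s) x = ((p : Ω) ^ (A.m * r * s)) • x

/-- The class `x` in the cohomology of degree `n` of `A` is supersingular: with `q = p ^ A.m`, for some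
`s > 0` the Frobenius endomorphism of the field with `q ^ (2 * s)` elements acts on `x` as
multiplication by `q ^ (n * s)`. -/
def IsSupersingularClass (A : AbVar p Ω) (n : ℕ) (x : ExteriorAlgebra Ω A.H) : Prop :=
  x ∈ ⋀[Ω]^n A.H ∧ ∃ s : ℕ, 0 < s ∧
    ExteriorAlgebra.map (A.F ^ (2 * s)) x = ((p : Ω) ^ (A.m * n * s)) • x

/-- `E` is a supersingular elliptic curve over a finite field with `q` elements, `q` a square, on which
Frobenius is multiplication by the square root of `q`. -/
def IsSupersingularCurve (E : AbVar p Ω) : Prop :=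
  finrank Ω E.H = 2 ∧ ∃ c : ℕ, c ^ 2 = p ^ E.m ∧ ∀ v : E.H, E.F v = (c : Ω) • v

/-- The Frobenius eigenvalues of `A` have powers in the field `L`. -/
def FrobeniusIn (L : IntermediateField ℚ Ω) (A : AbVar p Ω) : Prop :=
  ∀ (a : Ω) (v : A.H), v ≠ 0 → A.F v = a • v → ∃ s : ℕ, 0 < s ∧ a ^ s ∈ L

/-- A system of cohomology classes `C A` on all abelian varieties `A` over finite fields of
characteristic `p` with the formal properties of the linear combinations of the classes of algebraic
cycles (defined over the algebraic closure): it is stable under linear combinations, cup products and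
pull-backs, and, for products `A × B`, if the exterior product of a class `x` on `A` with the class of a
point of `B` (the product of the elements of a basis of `B.H`) belongs to the system then so does `x`,
its push-forward to `A`, up to a factor. -/
structure CycleSystem (p : ℕ) [Fact p.Prime] (Ω : Type) [Field Ω] [CharZero Ω] : Type 1 where
  C : ∀ A : AbVar p Ω, Submodule Ω (ExteriorAlgebra Ω A.H)
  one_mem : ∀ A, 1 ∈ C A
  mul_mem : ∀ A, ∀ x ∈ C A, ∀ y ∈ C A, x * y ∈ C A
  pull : ∀ (A B : AbVar p Ω) (h : B.H →ₗ[Ω] A.H), IsHom A B h →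
    ∀ x ∈ C B, ExteriorAlgebra.map h x ∈ C A
  push : ∀ (A B : AbVar p Ω) (hm : A.m = B.m) (n : ℕ) (b : Basis (Fin n) Ω B.H)
    (x : ExteriorAlgebra Ω A.H),
    ExteriorAlgebra.map (LinearMap.inl Ω A.H B.H) x *
      ExteriorAlgebra.map (LinearMap.inr Ω A.H B.H) (ExteriorAlgebra.ιMulti Ω n b) ∈
        C (A.prod B hm) → x ∈ C A

end

end Pool.Agent.V8H94.CT
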