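import Pool.Agent.V8H94.CT.Grp
import Pool.Agent.V8H94.CT.Cover

/-!
# Abelian varieties for which codimension two suffices
-/

set_option autoImplicit false

namespace Pool.Agent.V8H94.CT

open Module Polynomial

variable {p : ℕ} [Fact p.Prime] {Ω : Type} [Field Ω] [CharZero Ω]

/-- Over a common finite extension of the fields of definition the Frobenius eigenvalues of `C` are
among those of `B`. By Honda and Tate this means that over the algebraic closure each simple factor of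
`C` is isogenous to one of `B`, so that `C` is a factor of a power of `B`. -/
def IsBuiltFrom (C B : AbVar p Ω) : Prop :=
  ∃ s t : ℕ, 0 < s ∧ 0 < t ∧ s * C.m = t * B.m ∧ ∀ (a : Ω) (v : C.H), v ≠ 0 → C.F v = a • v →
    ∃ (b : Ω) (w : B.H), w ≠ 0 ∧ B.F w = b • w ∧ a ^ s = b ^ t

/-- The system contains the Tate classes of codimension `r` on `B`. -/
def TateHolds (S : CycleSystem p Ω) (B : AbVar p Ω) (r : ℕ) : Prop :=
  ∀ x : ExteriorAlgebra Ω B.H, IsTate B r x → x ∈ S.C B

/-- The system contains the Tate classes of all codimensions on all varieties built from factors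
of `B`. -/
def TateHoldsFor (S : CycleSystem p Ω) (B : AbVar p Ω) : Prop :=
  ∀ C : AbVar p Ω, IsBuiltFrom C B → ∀ r : ℕ, TateHolds S C r

/-- The system contains the products of the supersingular classes of degree three and one. -/
def SupersingularProducts (S : CycleSystem p Ω) (B : AbVar p Ω) : Prop :=
  ∀ x y : ExteriorAlgebra Ω B.H, IsSupersingularClass B 3 x → IsSupersingularClass B 1 y →
    x * y ∈ S.C B

theorem exists_universal' [IsAlgClosed Ω] {k : ℕ} (hk : 0 < k) {W : Set Ω}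
    (hW : ∀ w ∈ W, ∀ b : Ω, aeval b (minpoly ℚ w) = 0 → b ∈ W) {J : Type} [Fintype J] (f : J → Ω)
    (hf : ∀ j, IsWeil p k (f j) ∧ f j ∈ W) :
    ∃ (D : AbVar p Ω) (u : J → D.H), D.m = k ∧
      (∀ (a : Ω) (v : D.H), v ≠ 0 → D.F v = a • v → a ∈ W) ∧
      (∀ j, D.F (u j) = f j • u j) ∧
      ∀ (C : AbVar p Ω) (s t : ℕ) (v : J → C.H),
        (∀ j, (C.F ^ s) (v j) = (f j) ^ t • v j) →
        ∃ h : D.H →ₗ[Ω] C.H, h ∘ₗ (D.F ^ t) = (C.F ^ s) ∘ₗ h ∧ ∀ j, h (u j) = v j := by
  let e := Fintype.equivFin J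
  let l : List Ω := List.ofFn (fun i => f (e.symm i))
  have hlen : l.length = Fintype.card J := List.length_ofFn
  have hget : ∀ i : Fin l.length, l.get i = f (e.symm (Fin.cast hlen i)) := by
    intro i
    exact List.get_ofFn _ i
  obtain ⟨D, u, hDm, hDW, hu, hD⟩ := exists_universal hk hW l (by
    intro x hx
    obtain ⟨i, rfl⟩ := (List.mem_ofFn' _ x).1 hx
    exact hf _)
  refine ⟨D, fun j => u (Fin.cast hlen.symm (e j)), hDm, hDW, ?_, ?_⟩
  · intro j
    rw [hu, hget]
    simp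
  · intro C s t v hv
    obtain ⟨h, hh, hhu⟩ := hD C s t (fun i => v (e.symm (Fin.cast hlen i))) (by
      intro i
      rw [hget]
      exact hv _)
    refine ⟨h, hh, fun j => ?_⟩
    rw [hhu]
    simp

theorem pow_comp_pow {H H' : Type} [AddCommGroup H] [Module Ω H] [AddCommGroup H'] [Module Ω H']
    {F : H →ₗ[Ω] H} {F' : H' →ₗ[Ω] H'} {h : H →ₗ[Ω] H'} (hh : h ∘ₗ (F ^ 1) = (F' ^ 1) ∘ₗ h) (v : H) :
    h (F v) = F' (h v) := by
  have := LinearMap.congr_fun hh v
  simpa using this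

theorem map_pow_eigen {H : Type} [AddCommGroup H] [Module Ω H] {F : H →ₗ[Ω] H}
    {x : ExteriorAlgebra Ω H} {μ : Ω} {s : ℕ} (h : ExteriorAlgebra.map (F ^ s) x = μ • x) (n : ℕ) :
    ExteriorAlgebra.map (F ^ (s * n)) x = μ ^ n • x := by
  induction n with
  | zero =>
    rw [mul_zero, pow_zero, pow_zero, one_smul]
    change ExteriorAlgebra.map LinearMap.id x = x
    rw [ExteriorAlgebra.map_id]; rfl
  | succ n ih =>
    have e : F ^ (s * (n + 1)) = (F ^ (s * n)) ∘ₗ (F ^ s) := by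
      rw [Nat.mul_succ, pow_add]; rfl
    rw [e, ← ExteriorAlgebra.map_comp_map, AlgHom.comp_apply, h, map_smul, ih, smul_smul, pow_succ,
      mul_comm]

/-- The product of supersingular classes of degrees three and one is a Tate class of codimension
two. -/
theorem isTate_mul {B : AbVar p Ω} {x y : ExteriorAlgebra Ω B.H} (hx : IsSupersingularClass B 3 x)
    (hy : IsSupersingularClass B 1 y) : IsTate B 2 (x * y) := by
  obtain ⟨hx, s, hs, hxs⟩ := hx
  obtain ⟨hy, t, ht, hyt⟩ := hy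
  refine ⟨SetLike.GradedMul.mul_mem (A := fun i : ℕ => ⋀[Ω]^i B.H) hx hy, 2 * s * t, by positivity, ?_⟩
  have h1 := map_pow_eigen hxs t
  have h2 := map_pow_eigen hyt s
  have e : 2 * t * s = 2 * s * t := by ring
  rw [e] at h2
  rw [map_mul, h1, h2, smul_mul_smul_comm, ← pow_mul, ← pow_mul, ← pow_add]
  congr 2
  ring

theorem fst_ne {W : Type} {a b : Fin 4} {w w' : W} (hab : a ≠ b) :
    ((a, w) : Fin 4 × W) ≠ (b, w') := fun h => hab (congrArg Prod.fst h)

section

variable [IsAlgClosed Ω]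

/-- The basic relations from the hypotheses on one abelian variety. -/
theorem base_of_universal {S : CycleSystem p Ω} {k : ℕ} (hk : 0 < k) {W : Set Ω}
    (hWw : ∀ w ∈ W, IsWeil p (2 * k) w)
    (hWr : ∀ w ∈ W, ∀ z : Ω, aeval z (minpoly ℚ w) = 0 → z ∈ W) (hWb : (p : Ω) ^ k ∈ W)
    (B : AbVar p Ω) (hBm : B.m = 2 * k) (u : Fin 4 × W → B.H)
    (hu : ∀ j, B.F (u j) = j.2.1 • u j)
    (hB : ∀ (C : AbVar p Ω) (s t : ℕ) (v : Fin 4 × W → C.H),
        (∀ j, (C.F ^ s) (v j) = (j.2.1) ^ t • v j) →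
        ∃ h : B.H →ₗ[Ω] C.H, h ∘ₗ (B.F ^ t) = (C.F ^ s) ∘ₗ h ∧ ∀ j, h (u j) = v j)
    (hdiv : ∀ x, IsTate B 1 x → x ∈ S.C B)
    (h3 : ∀ x y, IsSupersingularClass B 3 x → IsSupersingularClass B 1 y → x * y ∈ S.C B) :
    Base S k W := by
  classical
  refine ⟨hk, hWw, hWr, hWb, ?_, ?_⟩
  · intro x hx y hy s hs hxy A hA T hT hμ
    obtain ⟨⟨x', u₁⟩, ⟨y', u₂⟩, T', rfl, hx', hy', hT'⟩ := exists_two (μ := 0) hμ
    rw [Multiset.map_eq_zero] at hT'
    subst hT'
    simp only at hx' hy'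
    subst hx' hy'
    have h1 := hT (x', u₁) (by simp)
    have h2 := hT (y', u₂) (by simp)
    simp only at h1 h2
    have hj : ((0 : Fin 4), (⟨x', hx⟩ : W)) ≠ (1, ⟨y', hy⟩) := fst_ne (by decide)
    obtain ⟨h, hh, hhu⟩ := hB A 1 1
      (fun j => if j = (0, ⟨x', hx⟩) then u₁ else if j = (1, ⟨y', hy⟩) then u₂ else 0) (by
        intro j
        by_cases h0 : j = (0, ⟨x', hx⟩)
        · rw [if_pos h0, h0, pow_one, pow_one, h1]
        · rw [if_neg h0]
          by_cases h0' : j = (1, ⟨y', hy⟩)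
          · rw [if_pos h0', h0', pow_one, pow_one, h2]
          · rw [if_neg h0', map_zero, smul_zero])
    have e1 : h (u (0, ⟨x', hx⟩)) = u₁ := by rw [hhu, if_pos rfl]
    have e2 : h (u (1, ⟨y', hy⟩)) = u₂ := by rw [hhu, if_neg hj.symm, if_pos rfl]
    have h5 : wedge [u (0, ⟨x', hx⟩), u (1, ⟨y', hy⟩)] ∈ S.C B := by
      refine hdiv _ ⟨wedge_mem [_, _], s, hs, ?_⟩
      rw [map_wedge]
      simp only [List.map_cons, List.map_nil, wedge_cons, wedge_nil, mul_one,
        pow_apply_eigen (hu (0, ⟨x', hx⟩)), pow_apply_eigen (hu (1, ⟨y', hy⟩)), map_smul]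
      rw [smul_mul_smul_comm, ← mul_pow, hxy, hBm, ← pow_mul]
    have h6 := S.pull A B h (isHom_of_comm (by rw [hA, hBm]) (pow_comp_pow hh)) _ h5
    rw [map_wedge] at h6
    simp only [List.map_cons, List.map_nil, e1, e2] at h6
    exact Mem.of_list h6
  · intro x hx y hy z hz s hs hxyz A hA T hT hμ
    obtain ⟨⟨x', u₁⟩, ⟨y', u₂⟩, T', rfl, hx', hy', hT'⟩ := exists_two hμ
    obtain ⟨⟨z', u₃⟩, ⟨c', u₄⟩, T'', rfl, hz', hc', hT''⟩ := exists_two (μ := 0) hT'
    rw [Multiset.map_eq_zero] at hT''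
    subst hT''
    simp only at hx' hy' hz' hc'
    subst hx' hy' hz' hc'
    have h1 := hT (x', u₁) (by simp)
    have h2 := hT (y', u₂) (by simp)
    have h3' := hT (z', u₃) (by simp)
    have h4 := hT ((p : Ω) ^ k, u₄) (by simp)
    simp only at h1 h2 h3' h4
    let j₁ : Fin 4 × W := (0, ⟨x', hx⟩)
    let j₂ : Fin 4 × W := (1, ⟨y', hy⟩)
    let j₃ : Fin 4 × W := (2, ⟨z', hz⟩)
    let j₄ : Fin 4 × W := (3, ⟨(p : Ω) ^ k, hWb⟩)
    obtain ⟨h, hh, hhu⟩ := hB A 1 1
      (fun j => if j = j₁ then u₁ else if j = j₂ then u₂ else if j = j₃ then u₃ else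
        if j = j₄ then u₄ else 0) (by
        intro j
        rw [pow_one, pow_one]
        by_cases a1 : j = j₁
        · rw [if_pos a1, a1]; exact h1
        rw [if_neg a1]
        by_cases a2 : j = j₂
        · rw [if_pos a2, a2]; exact h2
        rw [if_neg a2]
        by_cases a3 : j = j₃
        · rw [if_pos a3, a3]; exact h3'
        rw [if_neg a3]
        by_cases a4 : j = j₄
        · rw [if_pos a4, a4]; exact h4
        rw [if_neg a4, map_zero, smul_zero])
    have e1 : h (u j₁) = u₁ := by rw [hhu, if_pos rfl]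
    have e2 : h (u j₂) = u₂ := by
      rw [hhu, if_neg (fst_ne (by decide)), if_pos rfl]
    have e3 : h (u j₃) = u₃ := by
      rw [hhu, if_neg (fst_ne (by decide)), if_neg (fst_ne (by decide)), if_pos rfl]
    have e4 : h (u j₄) = u₄ := by
      rw [hhu, if_neg (fst_ne (by decide)), if_neg (fst_ne (by decide)), if_neg (fst_ne (by decide)),
        if_pos rfl]
    have hsup : IsSupersingularClass B 3 (wedge [u j₁, u j₂, u j₃]) := by
      refine ⟨wedge_mem [_, _, _], s, hs, ?_⟩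
      rw [map_wedge]
      simp only [List.map_cons, List.map_nil, wedge_cons, wedge_nil, mul_one,
        pow_apply_eigen (hu _), map_smul]
      rw [smul_mul_smul_comm, smul_mul_smul_comm, ← mul_pow, ← mul_pow]
      change (x' * (y' * z')) ^ (2 * s) • _ = _
      rw [← mul_assoc, mul_comm 2 s, pow_mul, hxyz, hBm, ← pow_mul, ← pow_mul, ← pow_mul]
      congr 2
      ring
    have hsup1 : IsSupersingularClass B 1 (wedge [u j₄]) := by
      refine ⟨wedge_mem [_], 1, one_pos, ?_⟩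
      rw [map_wedge]
      simp only [List.map_cons, List.map_nil, wedge_cons, wedge_nil, mul_one,
        pow_apply_eigen (hu _), map_smul]
      change ((p : Ω) ^ k) ^ 2 • _ = _
      rw [hBm, ← pow_mul]
      congr 2
      ring
    have h5 := h3 _ _ hsup hsup1
    have h6 := S.pull A B h (isHom_of_comm (by rw [hA, hBm]) (pow_comp_pow hh)) _ h5
    rw [← wedge_append, map_wedge] at h6
    simp only [List.cons_append, List.nil_append, List.map_cons, List.map_nil, e1, e2, e3, e4] at h6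
    exact Mem.of_list h6

/-- All Tate classes on varieties built from `B`. -/
theorem tate_mem_of_base {S : CycleSystem p Ω} {m n : ℕ} (hm : 0 < m) (hn : 0 < n) {Y : Finset Ω}
    (hYw : ∀ y ∈ Y, IsWeil p (2 * m) y)
    (hYr : ∀ y ∈ Y, ∀ z : Ω, aeval z (minpoly ℚ y) = 0 → z ∈ Y)
    (hc : (p : Ω) ^ m ∈ Y) (h0 : ∀ y : Y, y.1 / (p : Ω) ^ m ≠ 0) {n₀ : ℕ} (hn₀ : n₀ ≤ n)
    (hbound : ∀ (G : Type) [AddCommGroup G] (ψ : (Y → ℤ) →+ G),
      (∀ ρ ∈ relGroup m p Y h0, ∑ y, (ρ y).natAbs ≤ n₀ → ψ ρ = 0) →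
        ∀ ρ ∈ relGroup m p Y h0, ψ ρ = 0)
    (hbase : Base S (m * n) (prodSet (Y : Set Ω) n)) {B : AbVar p Ω} (hBm : B.m = 2 * (m * n))
    (hB : ∀ (b : Ω) (w : B.H), w ≠ 0 → B.F w = b • w → b ∈ prodSet (Y : Set Ω) n)
    (C : AbVar p Ω) (hC : IsBuiltFrom C B) (r : ℕ) (x : ExteriorAlgebra Ω C.H) (hx : IsTate C r x) :
    x ∈ S.C C := by
  obtain ⟨s, t, hs, ht, hst, hC⟩ := hC
  obtain ⟨hx, u, hu, hT⟩ := hx
  have h1 := mem_span_eigen C.F C.span_eigen (2 * r) u _ x hx hT
  refine Submodule.span_le.2 ?_ h1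
  rintro _ ⟨v, a, hv0, hv, hprod, rfl⟩
  choose b w hw0 hw hab using fun i => hC (a i) (v i) (hv0 i) (hv i)
  have hbW : ∀ i, b i ∈ prodSet (Y : Set Ω) n := fun i => hB (b i) (w i) (hw0 i) (hw i)
  have hWr : ∀ w ∈ prodSet (Y : Set Ω) n, ∀ z : Ω, aeval z (minpoly ℚ w) = 0 →
      z ∈ prodSet (Y : Set Ω) n := fun w hw z hz =>
    prodSet_root (fun y hy => (hYw y hy).1) (fun y hy z hz => hYr y hy z hz) n hw hz
  obtain ⟨D, e, hDm, _, he, hD⟩ := exists_universal' (p := p) (Nat.mul_pos two_pos hbase.pos)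
    hWr b fun i => ⟨hbase.weil _ (hbW i), hbW i⟩
  obtain ⟨h, hh, hhe⟩ := hD C s t v (by
    intro i
    rw [pow_apply_eigen (hv i), hab])
  have hrel := hbase.rel_of_prod hn hc (fun y hy => by
      have h2 := hYr y hy _ (hYw y hy).conj_root
      have e : (p : Ω) ^ (2 * m) = ((p : Ω) ^ m) ^ 2 := by rw [← pow_mul, mul_comm]
      rwa [e] at h2) h0 hn₀ hbound (List.ofFn fun i => ⟨b i, hbW i⟩)
    (r := r) List.length_ofFn (s := t * u) (Nat.mul_pos ht hu) (by
      rw [List.map_ofFn]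
      have e1 : (Subtype.val ∘ fun i => (⟨b i, hbW i⟩ : prodSet (Y : Set Ω) n)) = b := rfl
      rw [e1, List.prod_ofFn]
      calc (∏ i, b i) ^ (t * u) = ∏ i, (b i ^ t) ^ u := by
            rw [← Finset.prod_pow]
            exact Finset.prod_congr rfl fun i _ => by rw [pow_mul]
        _ = ∏ i, (a i ^ u) ^ s := by
            refine Finset.prod_congr rfl fun i _ => ?_
            rw [← hab i, ← pow_mul, ← pow_mul, mul_comm]
        _ = ((p : Ω) ^ (C.m * r * u)) ^ s := by rw [Finset.prod_pow, hprod]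
        _ = (((p : Ω) ^ (m * n)) ^ (2 * r)) ^ (t * u) := by
            rw [← pow_mul, ← pow_mul, ← pow_mul]
            congr 1
            calc C.m * r * u * s = (s * C.m) * (r * u) := by ring
              _ = m * n * (2 * r * (t * u)) := by rw [hst, hBm]; ring)
  rw [List.map_ofFn] at hrel
  have h4 := hrel D hDm ((List.ofFn fun i => (b i, e i) : List (Ω × D.H)) : Multiset (Ω × D.H)) (by
      intro y hy
      rw [Multiset.mem_coe] at hy
      obtain ⟨i, rfl⟩ := (List.mem_ofFn' _ y).1 hy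
      exact he i)
    (by
      rw [Multiset.map_coe, List.map_ofFn]
      rfl)
  have h5 := Mem.map (A := C) (B := D) (h := h) ⟨s, t, hs, ht, by rw [hst, hBm, hDm], hh⟩ h4
  have h6 := h5 (List.ofFn v) (by
    rw [Multiset.map_map, Multiset.map_coe, List.map_ofFn]
    congr 2
    funext i
    exact (hhe i).symm)
  have e : ExteriorAlgebra.ιMulti Ω (2 * r) v = wedge (List.ofFn v) := by
    rw [ExteriorAlgebra.ιMulti_apply, wedge, List.map_ofFn]
    rfl
  rw [SetLike.mem_coe, e]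
  exact h6

/-- **Codimension two suffices.** For each abelian variety `A` over the field with `q` elements and
all large `n` there is an abelian variety `B` over the field with `q ^ (2 * n)` elements whose
Frobenius eigenvalues are exactly the products of `n` numbers each of which is the square of an
eigenvalue of `A` or is `q`; `A` is built from factors of `B`; and for all cycle systems which contain
the Tate classes of codimension one on `B` they contain all Tate classes on all varieties built from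
factors of `B` iff they contain those of codimension two on `B`, and iff they contain the products of
supersingular classes of degrees three and one on `B`. -/
theorem exists_closed (A : AbVar p Ω) : ∃ n₀ : ℕ, ∀ n ≥ n₀, ∃ B : AbVar p Ω,
    B.m = 2 * (A.m * n) ∧ (∀ b : Ω, HasEigen B b ↔ b ∈ prodSet (squareSet A) n) ∧
    IsBuiltFrom A B ∧ ∀ S : CycleSystem p Ω, TateHolds S B 1 →
      List.TFAE [TateHoldsFor S B, TateHolds S B 2, SupersingularProducts S B] := by
  classical
  have hYfin := squareSet_finite A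
  let Y : Finset Ω := hYfin.toFinset
  have hYY : (Y : Set Ω) = squareSet A := hYfin.coe_toFinset
  have hYmem : ∀ y, y ∈ Y ↔ y ∈ squareSet A := fun y => hYfin.mem_toFinset
  have hYw : ∀ y ∈ Y, IsWeil p (2 * A.m) y := fun y hy => squareSet_isWeil A ((hYmem y).1 hy)
  have hYr : ∀ y ∈ Y, ∀ z : Ω, aeval z (minpoly ℚ y) = 0 → z ∈ Y := fun y hy z hz =>
    (hYmem z).2 (squareSet_root A ((hYmem y).1 hy) hz)
  have hc : (p : Ω) ^ A.m ∈ Y := (hYmem _).2 (q_mem_squareSet A)
  have hp : (p : Ω) ^ A.m ≠ 0 := pow_ne_zero _ (Nat.cast_ne_zero.2 (Fact.out : p.Prime).ne_zero)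
  have h0 : ∀ y : Y, y.1 / (p : Ω) ^ A.m ≠ 0 := fun y => div_ne_zero (hYw y.1 y.2).ne_zero hp
  obtain ⟨n₀, hbound⟩ := exists_bound (relGroup A.m p Y h0)
  refine ⟨n₀ + 1, fun n hn => ?_⟩
  have hn0 : 0 < n := by omega
  have hm := A.m_pos
  have hk : 0 < A.m * n := Nat.mul_pos hm hn0
  have hWw : ∀ w ∈ prodSet (Y : Set Ω) n, IsWeil p (2 * (A.m * n)) w := fun w hw =>
    prodSet_isWeil (fun y hy => hYw y hy) n hw
  have hWr : ∀ w ∈ prodSet (Y : Set Ω) n, ∀ z : Ω, aeval z (minpoly ℚ w) = 0 →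
      z ∈ prodSet (Y : Set Ω) n := fun w hw z hz =>
    prodSet_root (fun y hy => (hYw y hy).1) (fun y hy z hz => hYr y hy z hz) n hw hz
  have hWb : (p : Ω) ^ (A.m * n) ∈ prodSet (Y : Set Ω) n := by
    have := short_mem (m := A.m) (n := n) hc [] (by simp) (by simp)
    simpa [← pow_mul] using this
  have hWfin : (prodSet (Y : Set Ω) n).Finite := prodSet_finite Y.finite_toSet n
  have := hWfin.fintype
  obtain ⟨B, u, hBm, hBW, hu, hB⟩ := exists_universal' (p := p) (k := 2 * (A.m * n))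
    (Nat.mul_pos two_pos hk) hWr (J := Fin 4 × prodSet (Y : Set Ω) n) (fun j => j.2.1)
    (fun j => ⟨hWw _ j.2.2, j.2.2⟩)
  have heig : ∀ b : Ω, HasEigen B b ↔ b ∈ prodSet (Y : Set Ω) n := by
    intro b
    constructor
    · rintro ⟨w, hw, h⟩
      exact hBW b w hw h
    · intro hb
      refine ⟨u (0, ⟨b, hb⟩), ?_, hu _⟩
      intro hzero
      obtain ⟨D, n', e, c, hDm, he1, _, _, i, hi⟩ := exists_isotypic (p := p)
        (Nat.mul_pos two_pos hk) (hWw b hb)
      obtain ⟨h, _, hhu⟩ := hB D 1 1 (fun j => if j = (0, ⟨b, hb⟩) then e (Sum.inl i) else 0) (by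
        intro j
        by_cases hj : j = (0, ⟨b, hb⟩)
        · rw [if_pos hj, hj, pow_one, pow_one, he1, hi]
        · rw [if_neg hj, map_zero, smul_zero])
      have h1 := hhu (0, ⟨b, hb⟩)
      rw [hzero, map_zero, if_pos rfl] at h1
      exact e.ne_zero (Sum.inl i) h1.symm
  have hself : IsBuiltFrom B B := ⟨1, 1, one_pos, one_pos, rfl, fun a v hv h => ⟨a, v, hv, h, rfl⟩⟩
  refine ⟨B, hBm, ?_, ?_, ?_⟩
  · rw [← hYY]; exact heig
  · refine ⟨2 * n, 1, by omega, one_pos, by rw [hBm]; ring, fun a v hv h => ?_⟩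
    have hb : a ^ (2 * n) ∈ prodSet (Y : Set Ω) n := by
      refine ⟨fun _ => a ^ 2, fun _ => ?_, ?_⟩
      · rw [hYY]; exact Or.inl ⟨a, v, hv, h, rfl⟩
      · rw [Finset.prod_const, Finset.card_univ, Fintype.card_fin, pow_mul]
    obtain ⟨w, hw, hw'⟩ := (heig _).2 hb
    exact ⟨_, w, hw, hw', by rw [pow_one]⟩
  · intro S hdiv
    tfae_have 1 → 2 := fun H => H B hself 2
    tfae_have 2 → 3 := fun H x y hx hy => H _ (isTate_mul hx hy)
    tfae_have 3 → 1 := by
      intro H C hC r x hx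
      have hbase : Base S (A.m * n) (prodSet (Y : Set Ω) n) :=
        base_of_universal hk hWw hWr hWb B hBm u hu hB hdiv H
      exact tate_mem_of_base hm hn0 hYw hYr hc h0 (by omega) hbound hbase hBm
        (fun b w hw h => (heig b).1 ⟨w, hw, h⟩) C hC r x hx
    tfae_finish

end

end Pool.Agent.V8H94.CT
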