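import Pool.Agent.V8H94.CT.Defs
import Pool.Agent.V8H71.TC.LinAlg

/-!
# Eigenvectors of Frobenius in the exterior algebra
-/

set_option autoImplicit false

namespace Pool.Agent.V8H94.CT

open Module

variable {Ω : Type} [Field Ω]

theorem map_pow_apply {H : Type} [AddCommGroup H] [Module Ω H] (F : H →ₗ[Ω] H) (s : ℕ)
    (y : ExteriorAlgebra Ω H) :
    ExteriorAlgebra.map (F ^ s) y = ((ExteriorAlgebra.map F).toLinearMap ^ s) y := by
  induction s generalizing y with
  | zero =>
    rw [pow_zero, pow_zero]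
    exact congrArg (fun f : ExteriorAlgebra Ω H →ₐ[Ω] ExteriorAlgebra Ω H => f y)
      ExteriorAlgebra.map_id
  | succ s ih =>
    rw [pow_succ, pow_succ, Module.End.mul_apply, AlgHom.toLinearMap_apply, ← ih,
      Module.End.mul_eq_comp, ← ExteriorAlgebra.map_comp_map]
    rfl

/-- An eigenvector of `map (F ^ s)` in degree `n` is a linear combination of products of `n`
eigenvectors of `F` with the right product of eigenvalues. -/
theorem mem_span_eigen {H : Type} [AddCommGroup H] [Module Ω H] [FiniteDimensional Ω H]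
    (F : H →ₗ[Ω] H) (hF : Submodule.span Ω {v : H | ∃ a : Ω, F v = a • v} = ⊤) (n s : ℕ) (μ : Ω)
    (x : ExteriorAlgebra Ω H) (hx : x ∈ ⋀[Ω]^n H) (h : ExteriorAlgebra.map (F ^ s) x = μ • x) :
    x ∈ Submodule.span Ω {y : ExteriorAlgebra Ω H | ∃ (v : Fin n → H) (a : Fin n → Ω),
      (∀ i, v i ≠ 0) ∧ (∀ i, F (v i) = a i • v i) ∧ ∏ i, a i ^ s = μ ∧
        y = ExteriorAlgebra.ιMulti Ω n v} := by
  rw [map_pow_apply] at h
  have hF' : ⨆ a : Ω, Module.End.eigenspace F a = ⊤ := by
    rw [eq_top_iff, ← hF, Submodule.span_le]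
    rintro v ⟨a, ha⟩
    exact (le_iSup (fun a : Ω => Module.End.eigenspace F a) a)
      (Module.End.mem_eigenspace_iff.2 ha)
  refine Submodule.span_mono ?_ (V8H71.TC.mem_span_iMulti_of_iSup F hF' hx h)
  rintro y ⟨v, a, hva, hv0, hp, rfl⟩
  exact ⟨v, a, hv0, hva, by rw [Finset.prod_pow, hp], rfl⟩

end Pool.Agent.V8H94.CT
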