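import Pool.Agent.V8H94.CT.Comb2
import Pool.Agent.V8H94.CT.Lin

/-!
# All Tate classes
-/

set_option autoImplicit false

namespace Pool.Agent.V8H94.CT

open Module Polynomial

variable {p : ℕ} [Fact p.Prime] {Ω : Type} [Field Ω] [CharZero Ω]

/-- The abelian variety of dimension zero. -/
def zeroVar (p : ℕ) [Fact p.Prime] (Ω : Type) [Field Ω] [CharZero Ω] (m : ℕ) (hm : 0 < m) :
    AbVar p Ω where
  m := m
  m_pos := hm
  H := PUnit
  F := 0
  span_eigen := by
    rw [eq_top_iff]
    intro v _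
    rw [Subsingleton.elim v 0]
    exact Submodule.zero_mem _
  frob := ⟨1, IsFrobPoly.one, by
    rw [Polynomial.map_one]
    refine eq_one_of_monic_natDegree_zero (LinearMap.charpoly_monic _) ?_
    rw [LinearMap.charpoly_natDegree]
    exact Module.finrank_zero_of_subsingleton⟩

variable {S : CycleSystem p Ω} {L : IntermediateField ℚ Ω}

/-- An abelian variety over the field with `p ^ (A.m * t)` elements with given eigenvalues of
Frobenius which maps to `A`. -/
theorem exists_cover [IsAlgClosed Ω] [Normal ℚ L] {A : AbVar p Ω} (hA : FrobeniusIn L A) {t : ℕ}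
    (ht : 0 < t) (l : List (Ω × A.H)) (hl : ∀ x ∈ l, x.2 ≠ 0 ∧ A.F x.2 = x.1 • x.2) :
    ∃ (C : AbVar p Ω) (h : C.H →ₗ[Ω] A.H) (s : List (Ω × C.H)), C.m = A.m * t ∧ FrobeniusIn L C ∧
      (∀ v, h (C.F v) = (A.F ^ t) (h v)) ∧ (∀ x ∈ s, C.F x.2 = x.1 • x.2) ∧
      s.map Prod.fst = l.map (fun x => x.1 ^ t) ∧ s.map (fun x => h x.2) = l.map Prod.snd := by
  induction l with
  | nil =>
    refine ⟨zeroVar p Ω (A.m * t) (Nat.mul_pos A.m_pos ht), 0, [], rfl, ?_, ?_, ?_, rfl, rfl⟩
    · intro a v hv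
      exact absurd (Subsingleton.elim (α := PUnit) v 0) hv
    · intro v; simp
    · intro x hx; simp at hx
  | cons x l ih =>
    obtain ⟨C, h, s, hCm, hCL, hh, hs, hs1, hs2⟩ := ih fun y hy => hl y (List.mem_cons_of_mem _ hy)
    obtain ⟨hx0, hx⟩ := hl x List.mem_cons_self
    have hw : IsWeil p (A.m * t) (x.1 ^ t) := (isWeil_of_eigen A hx0 hx).pow ht
    obtain ⟨u, hu, huL⟩ := hA x.1 x.2 hx0 hx
    have huL' : (x.1 ^ t) ^ u ∈ L := by
      rw [← pow_mul, mul_comm, pow_mul]; exact pow_mem huL t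
    obtain ⟨D, n, b, c, hDm, h1, h2, h3, i₀, hi₀⟩ := exists_isotypic (Nat.mul_pos A.m_pos ht) hw
    have hDL : FrobeniusIn L D := frobeniusIn_of_basis hw hu huL' b h1 h2 h3
    have hm : C.m = D.m := by rw [hCm, hDm]
    have hcoord : ∀ v : D.H, b.coord (Sum.inl i₀) (D.F v) = x.1 ^ t * b.coord (Sum.inl i₀) v := by
      intro v
      have e : (b.coord (Sum.inl i₀)).comp D.F = (x.1 ^ t) • b.coord (Sum.inl i₀) := by
        refine b.ext fun j => ?_
        rcases j with j | j
        · simp only [LinearMap.comp_apply, h1, map_smul, LinearMap.smul_apply, Basis.coord_apply,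
            Basis.repr_self, smul_eq_mul]
          by_cases hj : j = i₀
          · subst hj; rw [hi₀]
          · rw [Finsupp.single_apply, if_neg (by simpa using hj)]; simp
        · simp only [LinearMap.comp_apply, h2, map_smul, LinearMap.smul_apply, Basis.coord_apply,
            Basis.repr_self, smul_eq_mul]
          rw [Finsupp.single_apply, if_neg (by simp)]; simp
      have := LinearMap.congr_fun e v
      simpa using this
    let h' : C.H × D.H →ₗ[Ω] A.H :=
      LinearMap.coprod h ((LinearMap.toSpanSingleton Ω A.H x.2).comp (b.coord (Sum.inl i₀)))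
    refine ⟨C.prod D hm, h', (x.1 ^ t, ((0, b (Sum.inl i₀)) : C.H × D.H)) ::
      s.map (fun y => (y.1, ((y.2, 0) : C.H × D.H))), hCm, frobeniusIn_prod hm hCL hDL, ?_, ?_, ?_,
      ?_⟩
    · rintro ⟨v, w⟩
      change h (C.F v) + b.coord (Sum.inl i₀) (D.F w) • x.2 =
        (A.F ^ t) (h v + b.coord (Sum.inl i₀) w • x.2)
      rw [hh, hcoord, map_add, map_smul, pow_apply_eigen hx, smul_smul, mul_comm]
    · intro y hy
      rcases List.mem_cons.1 hy with rfl | hy
      · change ((C.F 0, D.F (b (Sum.inl i₀))) : C.H × D.H) =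
          (x.1 ^ t) • ((0, b (Sum.inl i₀)) : C.H × D.H)
        rw [h1, map_zero, Prod.smul_mk, smul_zero, hi₀]
      · obtain ⟨z, hz, rfl⟩ := List.mem_map.1 hy
        change ((C.F z.2, D.F 0) : C.H × D.H) = z.1 • ((z.2, 0) : C.H × D.H)
        rw [hs z hz, map_zero, Prod.smul_mk, smul_zero]
    · rw [List.map_cons, List.map_cons, List.map_map, ← hs1]
      rfl
    · rw [List.map_cons, List.map_cons, List.map_map, ← hs2]
      congr 1
      · change h 0 + b.coord (Sum.inl i₀) (b (Sum.inl i₀)) • x.2 = x.2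
        simp
      · refine List.map_congr_left fun y _ => ?_
        change h y.2 + b.coord (Sum.inl i₀) 0 • x.2 = h y.2
        simp

/-- **All Tate classes belong to the system.** -/
theorem tate_mem [IsAlgClosed Ω] [Normal ℚ L] (hS : HasDivisors S L) (hS3 : HasDegreeThree S L)
    (A : AbVar p Ω) (hA : FrobeniusIn L A) (r : ℕ) (x : ExteriorAlgebra Ω A.H) (hx : IsTate A r x) :
    x ∈ S.C A := by
  obtain ⟨hx, s, hs, hT⟩ := hx
  have h1 := mem_span_eigen A.F A.span_eigen (2 * r) s _ x hx hT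
  refine Submodule.span_le.2 ?_ h1
  rintro _ ⟨v, a, hv0, hv, hprod, rfl⟩
  have hp : (p : Ω) ≠ 0 := p_ne_zero
  obtain ⟨C, h, T, hCm, hCL, hh, hT1, hT2, hT3⟩ := exists_cover (t := 2 * s) hA (by omega)
    (List.ofFn fun i => (a i, v i)) (by
      intro y hy
      obtain ⟨i, rfl⟩ := (List.mem_ofFn' _ y).1 hy
      exact ⟨hv0 i, hv i⟩)
  have hk : 0 < A.m * s := Nat.mul_pos A.m_pos hs
  have hgood : ∀ i, Good p L (A.m * s) (a i ^ (2 * s)) := by
    intro i
    have hw := (isWeil_of_eigen A (hv0 i) (hv i)).pow (s := 2 * s) (by omega)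
    refine ⟨hw.1, ⟨(hw.1.tower_top (A := ℚ)).isAlgebraic, fun z hz => ?_⟩, ?_⟩
    · have h2 := hw.2 z hz
      have h3 : ‖z‖ ^ 2 = ((p : ℝ) ^ (A.m * s)) ^ 2 := by
        rw [h2, ← pow_mul]; congr 1; ring
      exact (pow_left_inj₀ (norm_nonneg z) (by positivity) two_ne_zero).1 h3
    · exact pow_mem_pow (hA (a i) (v i) (hv0 i) (hv i)) _
  have hrel := Rel.all (S := S) hS hS3 hk (fun i => a i ^ (2 * s)) hgood (by
    have h2 : ∏ i, a i ^ (2 * s) = (∏ i, a i ^ s) ^ 2 := by
      rw [← Finset.prod_pow]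
      refine Finset.prod_congr rfl fun i _ => ?_
      rw [← pow_mul, mul_comm]
    rw [h2, hprod, ← pow_mul, ← pow_mul]
    congr 1; ring)
  have h4 := hrel C (by rw [hCm]; ring) hCL (T : Multiset (Ω × C.H)) (fun y hy => hT1 y (by simpa using hy))
    (by
      rw [Multiset.map_coe, hT2, List.map_ofFn]
      rfl)
  have h5 := Mem.map (A := A) (B := C) (h := h)
    ⟨2 * s, 1, by omega, one_pos, by rw [hCm]; ring, by
      ext v
      simp [hh]⟩ h4
  have h6 := h5 (List.ofFn v) (by
    rw [Multiset.map_map, Multiset.map_coe]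
    have e : (List.map (⇑h ∘ Prod.snd) T) = List.ofFn v := by
      have : T.map (fun x => h x.2) = List.ofFn v := by
        rw [hT3, List.map_ofFn]; rfl
      rw [← this]; rfl
    rw [e])
  have e : ExteriorAlgebra.ιMulti Ω (2 * r) v = wedge (List.ofFn v) := by
    rw [ExteriorAlgebra.ιMulti_apply, wedge, List.map_ofFn]
    rfl
  rw [SetLike.mem_coe, e]
  exact h6

end Pool.Agent.V8H94.CT
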