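import Pool.Agent.V8H94.CT.Sys
import Pool.Agent.V8H94.CT.WN

/-!
# The group of relations between the products of `n` elements
-/

set_option autoImplicit false

namespace Pool.Agent.V8H94.CT

open Module Polynomial

theorem mem_prodSet_of_list {Ω : Type} [Field Ω] {Y : Set Ω} {n : ℕ} {l : List Ω}
    (hl : ∀ y ∈ l, y ∈ Y) (hn : l.length = n) : l.prod ∈ prodSet Y n := by
  subst hn
  refine ⟨l.get, fun t => hl _ (List.get_mem l t), ?_⟩
  rw [← List.prod_ofFn, List.ofFn_get]

theorem exists_list_of_mem_prodSet {Ω : Type} [Field Ω] {Y : Set Ω} {n : ℕ} {w : Ω}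
    (hw : w ∈ prodSet Y n) : ∃ l : List Ω, (∀ y ∈ l, y ∈ Y) ∧ l.length = n ∧ l.prod = w := by
  obtain ⟨y, hy, rfl⟩ := hw
  refine ⟨List.ofFn y, ?_, List.length_ofFn, List.prod_ofFn⟩
  intro z hz
  obtain ⟨t, rfl⟩ := (List.mem_ofFn' y z).1 hz
  exact hy t

/-- A finitely generated group of relations: it suffices to check the short ones. -/
theorem exists_bound {Y : Type} [Fintype Y] (R : AddSubgroup (Y → ℤ)) :
    ∃ n₀ : ℕ, ∀ (G : Type) [AddCommGroup G] (ψ : (Y → ℤ) →+ G),
      (∀ ρ ∈ R, ∑ y, (ρ y).natAbs ≤ n₀ → ψ ρ = 0) → ∀ ρ ∈ R, ψ ρ = 0 := by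
  classical
  have hfg : (AddSubgroup.toIntSubmodule R).FG := IsNoetherian.noetherian _
  obtain ⟨T, hT⟩ := hfg
  refine ⟨T.sup fun ρ => ∑ y, (ρ y).natAbs, fun G _ ψ h ρ hρ => ?_⟩
  have hle : (AddSubgroup.toIntSubmodule R) ≤ LinearMap.ker ψ.toIntLinearMap := by
    rw [← hT, Submodule.span_le]
    intro τ hτ
    have hτR : τ ∈ R := by
      have : τ ∈ Submodule.span ℤ (T : Set (Y → ℤ)) := Submodule.subset_span hτ
      rw [hT] at this
      exact this
    exact h τ hτR (Finset.le_sup (f := fun ρ : Y → ℤ => ∑ y, (ρ y).natAbs) hτ)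
  exact hle (x := ρ) hρ

variable {p : ℕ} [Fact p.Prime] {Ω : Type} [Field Ω] [CharZero Ω] [IsAlgClosed Ω]
variable {S : CycleSystem p Ω} {m n : ℕ}

section

variable {Y : Finset Ω} (B : Base S (m * n) (prodSet (Y : Set Ω) n)) (hn : 0 < n)
  (hc : (p : Ω) ^ m ∈ Y) (hY : ∀ y ∈ Y, ((p : Ω) ^ m) ^ 2 / y ∈ Y) (hY0 : ∀ y ∈ Y, y ≠ 0)

include hc in
theorem short_mem (l : List Ω) (hl : ∀ y ∈ l, y ∈ Y) (hlen : l.length ≤ n) :
    ((p : Ω) ^ m) ^ (n - l.length) * l.prod ∈ prodSet (Y : Set Ω) n := by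
  have h := mem_prodSet_of_list (Y := (Y : Set Ω)) (n := n)
    (l := List.replicate (n - l.length) ((p : Ω) ^ m) ++ l) (by
      intro y hy
      rcases List.mem_append.1 hy with hy | hy
      · rw [List.eq_of_mem_replicate hy]; exact hc
      · exact hl y hy) (by rw [List.length_append, List.length_replicate]; omega)
  rwa [List.prod_append, List.prod_replicate] at h

include hn hc in
theorem unit_mem {y : Ω} (hy : y ∈ Y) : ((p : Ω) ^ m) ^ (n - 1) * y ∈ prodSet (Y : Set Ω) n := by
  have h := short_mem (m := m) (n := n) hc [y] (by simpa using hy)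
    (by rw [List.length_singleton]; omega)
  simpa using h

/-- The class of `y`. -/
noncomputable def Base.f (y : Y) : AddUnits (relCon S (2 * (m * n))).Quotient :=
  B.cl ⟨_, unit_mem (m := m) hn hc y.2⟩ + B.th

theorem Base.cl_congr {k : ℕ} {W : Set Ω} (B : Base S k W) {x y : W} (h : x.1 = y.1) :
    B.cl x = B.cl y := by
  rw [Subtype.ext h]

theorem Base.cl_short (l : List Y) (hlen : l.length ≤ n)
    (hmem : ((p : Ω) ^ m) ^ (n - l.length) * (l.map Subtype.val).prod ∈ prodSet (Y : Set Ω) n) :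
    B.cl ⟨_, hmem⟩ = (l.map (B.f hn hc)).sum + B.th := by
  induction l with
  | nil =>
    change _ = 0 + B.th
    rw [zero_add]
    refine B.cl_congr ?_
    simp [pow_mul]
  | cons y l ih =>
    have hlen' : l.length ≤ n := by rw [List.length_cons] at hlen; omega
    have hmem' : ((p : Ω) ^ m) ^ (n - l.length) * (l.map Subtype.val).prod ∈
        prodSet (Y : Set Ω) n := by
      have := short_mem (m := m) (n := n) hc (l.map Subtype.val) (by
        intro z hz
        obtain ⟨z', _, rfl⟩ := List.mem_map.1 hz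
        exact z'.2) (by rw [List.length_map]; exact hlen')
      rwa [List.length_map] at this
    have h1 := ih hlen' hmem'
    have h2 := B.cl_add (x := ⟨_, hmem'⟩) (y := ⟨_, unit_mem (m := m) hn hc y.2⟩)
      (w := ⟨_, hmem⟩) (by
        rw [List.length_cons] at hlen
        simp only [List.length_cons, List.map_cons, List.prod_cons]
        have e1 : n - l.length = (n - (l.length + 1)) + 1 := by omega
        have e2 : (p : Ω) ^ (m * n) = ((p : Ω) ^ m) ^ (n - 1) * (p : Ω) ^ m := by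
          rw [← pow_succ, Nat.sub_add_cancel hn, ← pow_mul]
        rw [e1, e2, pow_succ]
        ring)
    rw [h1] at h2
    have e3 : B.th = - B.th := eq_neg_of_add_eq_zero_left B.th_add_th
    have e4 : B.cl ⟨_, hmem⟩ = ((l.map (B.f hn hc)).sum + B.th +
        B.cl ⟨_, unit_mem (m := m) hn hc y.2⟩) - B.th := by
      rw [h2, add_sub_cancel_right]
    rw [e4, List.map_cons, List.sum_cons, Base.f]
    calc (l.map (B.f hn hc)).sum + B.th + B.cl ⟨_, unit_mem (m := m) hn hc y.2⟩ - B.th =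
        B.cl ⟨_, unit_mem (m := m) hn hc y.2⟩ + (l.map (B.f hn hc)).sum + 0 := by abel
      _ = B.cl ⟨_, unit_mem (m := m) hn hc y.2⟩ + (l.map (B.f hn hc)).sum + (B.th + B.th) := by
        rw [B.th_add_th]
      _ = B.cl ⟨_, unit_mem (m := m) hn hc y.2⟩ + B.th + (l.map (B.f hn hc)).sum + B.th := by
        abel

/-- The conjugate of `y`. -/
def bar (m : ℕ) (hY : ∀ y ∈ Y, ((p : Ω) ^ m) ^ 2 / y ∈ Y) (y : Y) : Y := ⟨_, hY y.1 y.2⟩

include hY0 in
theorem Base.f_bar (y : Y) : B.f hn hc (bar m hY y) = - B.f hn hc y := by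
  refine eq_neg_of_add_eq_zero_left ?_
  have h1 : B.cl ⟨_, unit_mem (m := m) hn hc (bar m hY y).2⟩ +
      B.cl ⟨_, unit_mem (m := m) hn hc y.2⟩ = 0 := by
    refine B.cl_add_cl_eq_zero ?_
    have hy := hY0 y.1 y.2
    simp only [bar]
    have e2 : (p : Ω) ^ (2 * (m * n)) = (((p : Ω) ^ m) ^ (n - 1) * (p : Ω) ^ m) ^ 2 := by
      rw [← pow_succ, Nat.sub_add_cancel hn, ← pow_mul, ← pow_mul]
      congr 1; ring
    rw [e2]
    field_simp
  have h2 := B.th_add_th
  calc B.f hn hc (bar m hY y) + B.f hn hc y =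
      (B.cl ⟨_, unit_mem (m := m) hn hc (bar m hY y).2⟩ +
      B.cl ⟨_, unit_mem (m := m) hn hc y.2⟩) + (B.th + B.th) := by
        unfold Base.f; abel
    _ = 0 := by rw [h1, h2, zero_add]

/-- Each vector of exponents is represented by a list. -/
theorem exists_list_of_exponents {G : Type} [AddCommGroup G] (f : Y → G)
    (hf : ∀ y, f (bar m hY y) = - f y) (κ : Y → ℤ) : ∃ l : List Y,
      l.length = ∑ y, (κ y).natAbs ∧ (l.map f).sum = ∑ y, κ y • f y ∧
      (l.map fun y => y.1 / (p : Ω) ^ m).prod = ∏ y, (y.1 / (p : Ω) ^ m) ^ (κ y) := by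
  classical
  have key : ∀ T : Finset Y, ∃ l : List Y,
      l.length = ∑ y ∈ T, (κ y).natAbs ∧ (l.map f).sum = ∑ y ∈ T, κ y • f y ∧
      (l.map fun y => y.1 / (p : Ω) ^ m).prod = ∏ y ∈ T, (y.1 / (p : Ω) ^ m) ^ (κ y) := by
    intro T
    induction T using Finset.induction_on with
    | empty => exact ⟨[], by simp, by simp, by simp⟩
    | insert y T hy ih =>
      obtain ⟨l, h1, h2, h3⟩ := ih
      have hp : (p : Ω) ^ m ≠ 0 := pow_ne_zero m (Nat.cast_ne_zero.2 (Fact.out : p.Prime).ne_zero)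
      rcases le_total 0 (κ y) with h | h
      · refine ⟨List.replicate (κ y).natAbs y ++ l, ?_, ?_, ?_⟩
        · rw [List.length_append, List.length_replicate, h1, Finset.sum_insert hy]
        · rw [List.map_append, List.sum_append, h2, Finset.sum_insert hy, List.map_replicate,
            List.sum_replicate, ← natCast_zsmul, Int.natAbs_of_nonneg h]
        · rw [List.map_append, List.prod_append, h3, Finset.prod_insert hy, List.map_replicate,
            List.prod_replicate, ← zpow_natCast, Int.natAbs_of_nonneg h]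
      · refine ⟨List.replicate (κ y).natAbs (bar m hY y) ++ l, ?_, ?_, ?_⟩
        · rw [List.length_append, List.length_replicate, h1, Finset.sum_insert hy]
        · rw [List.map_append, List.sum_append, h2, Finset.sum_insert hy, List.map_replicate,
            List.sum_replicate, ← natCast_zsmul, Int.ofNat_natAbs_of_nonpos h, hf, smul_neg,
            neg_smul, neg_neg]
        · rw [List.map_append, List.prod_append, h3, Finset.prod_insert hy, List.map_replicate,
            List.prod_replicate, ← zpow_natCast, Int.ofNat_natAbs_of_nonpos h]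
          congr 1
          have e : ((bar m hY y).1 / (p : Ω) ^ m) = (y.1 / (p : Ω) ^ m)⁻¹ := by
            simp only [bar]
            rw [inv_div, div_div, mul_comm, ← div_div, sq, mul_div_cancel_left₀ _ hp]
          rw [e, inv_zpow, zpow_neg, inv_inv]
  simpa using key Finset.univ

/-- The group of relations between the elements of `Y`. -/
def relGroup (m : ℕ) (p : ℕ) (Y : Finset Ω) (h0 : ∀ y : Y, y.1 / (p : Ω) ^ m ≠ 0) :
    AddSubgroup (Y → ℤ) where
  carrier := {κ | ∃ s : ℕ, 0 < s ∧ (∏ y, (y.1 / (p : Ω) ^ m) ^ (κ y)) ^ s = 1}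
  zero_mem' := ⟨1, one_pos, by simp⟩
  add_mem' := by
    rintro a b ⟨s, hs, h⟩ ⟨t, ht, h'⟩
    refine ⟨s * t, Nat.mul_pos hs ht, ?_⟩
    have e : ∏ y : Y, (y.1 / (p : Ω) ^ m) ^ ((a + b) y) =
        (∏ y : Y, (y.1 / (p : Ω) ^ m) ^ (a y)) * ∏ y : Y, (y.1 / (p : Ω) ^ m) ^ (b y) := by
      rw [← Finset.prod_mul_distrib]
      refine Finset.prod_congr rfl fun y _ => ?_
      rw [Pi.add_apply, zpow_add₀ (h0 y)]
    rw [e, mul_pow, pow_mul, h, one_pow, one_mul, mul_comm s t, pow_mul, h', one_pow]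
  neg_mem' := by
    rintro a ⟨s, hs, h⟩
    refine ⟨s, hs, ?_⟩
    have e : ∏ y : Y, (y.1 / (p : Ω) ^ m) ^ ((-a) y) = (∏ y : Y, (y.1 / (p : Ω) ^ m) ^ (a y))⁻¹ := by
      rw [← Finset.prod_inv_distrib]
      refine Finset.prod_congr rfl fun y _ => ?_
      rw [Pi.neg_apply, zpow_neg]
    rw [e, inv_pow, h, inv_one]

theorem exists_exponents {G : Type} [AddCommGroup G] (f : Y → G)
    (h0 : ∀ y : Y, y.1 / (p : Ω) ^ m ≠ 0) (l : List Y) : ∃ κ : Y → ℤ,
      (l.map f).sum = ∑ y, κ y • f y ∧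
      (l.map fun y => y.1 / (p : Ω) ^ m).prod = ∏ y, (y.1 / (p : Ω) ^ m) ^ (κ y) := by
  classical
  induction l with
  | nil => exact ⟨0, by simp, by simp⟩
  | cons y l ih =>
    obtain ⟨κ, h1, h2⟩ := ih
    refine ⟨Pi.single y 1 + κ, ?_, ?_⟩
    · rw [List.map_cons, List.sum_cons, h1]
      have e : ∀ z, (Pi.single (M := fun _ : Y => ℤ) y 1 + κ) z • f z =
          (Pi.single (M := fun _ : Y => ℤ) y 1 z) • f z + κ z • f z := by
        intro z; rw [Pi.add_apply, add_smul]
      rw [Finset.sum_congr rfl fun z _ => e z, Finset.sum_add_distrib]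
      congr 1
      rw [Finset.sum_eq_single y]
      · simp
      · intro z _ hz; rw [Pi.single_eq_of_ne hz, zero_smul]
      · intro h; exact absurd (Finset.mem_univ y) h
    · rw [List.map_cons, List.prod_cons, h2]
      have e : ∀ z : Y, (z.1 / (p : Ω) ^ m) ^ ((Pi.single (M := fun _ : Y => ℤ) y 1 + κ) z) =
          (z.1 / (p : Ω) ^ m) ^ (Pi.single (M := fun _ : Y => ℤ) y 1 z) *
            (z.1 / (p : Ω) ^ m) ^ (κ z) := by
        intro z; rw [Pi.add_apply, zpow_add₀ (h0 z)]
      rw [Finset.prod_congr rfl fun z _ => e z, Finset.prod_mul_distrib]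
      congr 1
      rw [Finset.prod_eq_single y]
      · simp
      · intro z _ hz; rw [Pi.single_eq_of_ne hz, zpow_zero]
      · intro h; exact absurd (Finset.mem_univ y) h

theorem prod_conj_list (m : ℕ) (l : List Y) :
    (l.map fun y => y.1 / (p : Ω) ^ m).prod * ((p : Ω) ^ m) ^ l.length =
      (l.map Subtype.val).prod := by
  have hp : (p : Ω) ^ m ≠ 0 := pow_ne_zero m (Nat.cast_ne_zero.2 (Fact.out : p.Prime).ne_zero)
  induction l with
  | nil => simp
  | cons y l ih =>
    rw [List.map_cons, List.prod_cons, List.length_cons, List.map_cons, List.prod_cons, ← ih,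
      pow_succ]
    field_simp

include B hn hc hY in
/-- **All relations between the elements of `prodSet Y n`.** -/
theorem Base.rel_of_prod (h0 : ∀ y : Y, y.1 / (p : Ω) ^ m ≠ 0) {n₀ : ℕ} (hn₀ : n₀ ≤ n)
    (hbound : ∀ (G : Type) [AddCommGroup G] (ψ : (Y → ℤ) →+ G),
      (∀ ρ ∈ relGroup m p Y h0, ∑ y, (ρ y).natAbs ≤ n₀ → ψ ρ = 0) →
        ∀ ρ ∈ relGroup m p Y h0, ψ ρ = 0)
    (l : List (prodSet (Y : Set Ω) n)) {r : ℕ} (hr : l.length = 2 * r) {s : ℕ} (hs : 0 < s)
    (hl : (l.map Subtype.val).prod ^ s = (((p : Ω) ^ (m * n)) ^ (2 * r)) ^ s) :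
    RelA S (2 * (m * n)) ((l.map Subtype.val : List Ω) : Multiset Ω) := by
  have hp : (p : Ω) ^ m ≠ 0 := pow_ne_zero m (Nat.cast_ne_zero.2 (Fact.out : p.Prime).ne_zero)
  have hY0 : ∀ y ∈ Y, y ≠ 0 := by
    intro y hy h
    exact h0 ⟨y, hy⟩ (by simp [h])
  -- the homomorphism given by the classes
  let ψ : (Y → ℤ) →+ AddUnits (relCon S (2 * (m * n))).Quotient :=
    AddMonoidHom.mk' (fun κ => ∑ y, κ y • B.f hn hc y) (by
      intro a b
      rw [← Finset.sum_add_distrib]
      exact Finset.sum_congr rfl fun y _ => add_zsmul _ _ _)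
  have hψ : ∀ ρ ∈ relGroup m p Y h0, ψ ρ = 0 := by
    refine hbound (AddUnits (relCon S (2 * (m * n))).Quotient) ψ ?_
    rintro ρ ⟨u, hu, hρ⟩ hle
    obtain ⟨L, h1, h2, h3⟩ := exists_list_of_exponents (m := m) hY (B.f hn hc)
      (B.f_bar hn hc hY hY0) ρ
    have hLn : L.length ≤ n := by rw [h1]; exact hle.trans hn₀
    have hmem : ((p : Ω) ^ m) ^ (n - L.length) * (L.map Subtype.val).prod ∈
        prodSet (Y : Set Ω) n := by
      have := short_mem (m := m) (n := n) hc (L.map Subtype.val) (by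
        intro z hz
        obtain ⟨z', _, rfl⟩ := List.mem_map.1 hz
        exact z'.2) (by rw [List.length_map]; exact hLn)
      rwa [List.length_map] at this
    have h4 := B.cl_short hn hc L hLn hmem
    have h5 : B.cl ⟨_, hmem⟩ = B.th := by
      refine B.cl_eq_of_pow (y := ⟨(p : Ω) ^ (m * n), B.base⟩) hu ?_
      change (((p : Ω) ^ m) ^ (n - L.length) * (L.map Subtype.val).prod) ^ u =
        ((p : Ω) ^ (m * n)) ^ u
      rw [← prod_conj_list (p := p) m L, h3, mul_comm (∏ y : Y, _) _, ← mul_assoc, ← pow_add,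
        Nat.sub_add_cancel hLn, mul_pow, hρ, mul_one, ← pow_mul (p : Ω) m n]
    rw [h5] at h4
    have h6 : (L.map (B.f hn hc)).sum = 0 := by
      have : B.th = (L.map (B.f hn hc)).sum + B.th := h4
      exact (add_eq_right.1 this.symm)
    change ∑ y, ρ y • B.f hn hc y = 0
    rw [← h2, h6]
  -- all factors
  have key : ∀ l : List (prodSet (Y : Set Ω) n), ∃ L : List Y, L.length = l.length * n ∧
      (L.map Subtype.val).prod = (l.map Subtype.val).prod ∧
      (l.map B.cl).sum = (L.map (B.f hn hc)).sum + l.length • B.th := by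
    intro l
    induction l with
    | nil => exact ⟨[], by simp, by simp, by simp⟩
    | cons w l ih =>
      obtain ⟨L, h1, h2, h3⟩ := ih
      obtain ⟨lw, hlw, hlen, hprod⟩ := exists_list_of_mem_prodSet w.2
      lift lw to List Y using hlw
      rw [List.length_map] at hlen
      have hmem : ((p : Ω) ^ m) ^ (n - lw.length) * (lw.map Subtype.val).prod ∈
          prodSet (Y : Set Ω) n := by
        rw [hlen, Nat.sub_self, pow_zero, one_mul, hprod]
        exact w.2
      have h4 := B.cl_short hn hc lw hlen.le hmem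
      have h5 : B.cl w = B.cl ⟨_, hmem⟩ := B.cl_congr (by
        change w.1 = ((p : Ω) ^ m) ^ (n - lw.length) * (lw.map Subtype.val).prod
        rw [hlen, Nat.sub_self, pow_zero, one_mul, hprod])
      refine ⟨lw ++ L, ?_, ?_, ?_⟩
      · rw [List.length_append, h1, hlen, List.length_cons]; ring
      · rw [List.map_append, List.prod_append, h2, hprod, List.map_cons, List.prod_cons]
      · rw [List.map_cons, List.sum_cons, h3, h5, h4, List.map_append, List.sum_append,
          List.length_cons, succ_nsmul]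
        abel
  obtain ⟨L, h1, h2, h3⟩ := key l
  obtain ⟨κ, h4, h5⟩ := exists_exponents (m := m) (p := p) (B.f hn hc) h0 L
  refine B.rel_of_sum l ?_
  rw [h3, h4]
  have h6 : ∑ y, κ y • B.f hn hc y = 0 := by
    refine hψ κ ⟨s, hs, ?_⟩
    rw [← h5]
    have h7 := prod_conj_list m L (p := p)
    rw [h2, h1, hr] at h7
    have h8 : (L.map fun y => y.1 / (p : Ω) ^ m).prod ^ s *
        (((p : Ω) ^ m) ^ (2 * r * n)) ^ s = 1 * (((p : Ω) ^ m) ^ (2 * r * n)) ^ s := by
      rw [← mul_pow, h7, hl, one_mul, ← pow_mul, ← pow_mul, ← pow_mul, ← pow_mul]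
      congr 1; ring
    exact mul_right_cancel₀ (pow_ne_zero s (pow_ne_zero _ hp)) h8
  rw [h6, hr, zero_add, mul_nsmul, two_nsmul, B.th_add_th, nsmul_zero]

end

end Pool.Agent.V8H94.CT
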