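import Pool.Agent.V8H94.CT.Cover

/-!
# Classes supported in codimension `r`
-/

set_option autoImplicit false

namespace Pool.Agent.V8H94.CT

open Module Polynomial

variable {p : ℕ} [Fact p.Prime] {Ω : Type} [Field Ω] [CharZero Ω]

/-- The classes of degree `j + 2 * r` on `A` which are supported in codimension `r`: linear
combinations of the images `x` of classes `y` of degree `j` on abelian varieties `C` under classes `z`
of the system on `A × C` (correspondences), of codimension `r + dim C`: the push-forward to `A` of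
`z * y` is `x`, that is, `z * y` is the exterior product of `x` with the class of a point of `C` (the
product of the elements of a basis of the first cohomology of `C`). -/
def Coniveau (S : CycleSystem p Ω) (A : AbVar p Ω) (j r : ℕ) :
    Submodule Ω (ExteriorAlgebra Ω A.H) :=
  Submodule.span Ω {x | x ∈ ⋀[Ω]^(j + 2 * r) A.H ∧
    ∃ (C : AbVar p Ω) (hm : A.m = C.m) (N : ℕ) (b : Basis (Fin N) Ω C.H)
      (y : ExteriorAlgebra Ω C.H) (z : ExteriorAlgebra Ω (A.H × C.H)),
      y ∈ ⋀[Ω]^j C.H ∧ z ∈ S.C (A.prod C hm) ∧ z ∈ ⋀[Ω]^(N + 2 * r) (A.H × C.H) ∧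
      z * ExteriorAlgebra.map (LinearMap.inr Ω A.H C.H) y =
        ExteriorAlgebra.map (LinearMap.inl Ω A.H C.H) x *
          ExteriorAlgebra.map (LinearMap.inr Ω A.H C.H) (ExteriorAlgebra.ιMulti Ω N b)}

omit [CharZero Ω] in
/-- The product of the eigenvectors in a list is an eigenvector. -/
theorem map_wedge_eigen {H : Type} [AddCommGroup H] [Module Ω H] (F : H →ₗ[Ω] H)
    (l : List (Ω × H)) (hl : ∀ x ∈ l, F x.2 = x.1 • x.2) :
    ExteriorAlgebra.map F (wedge (l.map Prod.snd)) =
      (l.map Prod.fst).prod • wedge (R := Ω) (l.map Prod.snd) := by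
  induction l with
  | nil => simp
  | cons x l ih =>
    rw [List.map_cons, wedge_cons, map_mul, ih fun y hy => hl y (List.mem_cons_of_mem _ hy),
      ExteriorAlgebra.map_apply_ι, hl x List.mem_cons_self, List.map_cons, List.prod_cons, map_smul,
      smul_mul_smul_comm]

omit [CharZero Ω] in
theorem map_pow_wedge_eigen {H : Type} [AddCommGroup H] [Module Ω H] (F : H →ₗ[Ω] H)
    (l : List (Ω × H)) (hl : ∀ x ∈ l, F x.2 = x.1 • x.2) (s : ℕ) :
    ExteriorAlgebra.map (F ^ s) (wedge (l.map Prod.snd)) =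
      (l.map Prod.fst).prod ^ s • wedge (R := Ω) (l.map Prod.snd) := by
  induction s with
  | zero =>
    rw [pow_zero, pow_zero, one_smul]
    exact congrArg (fun f : ExteriorAlgebra Ω H →ₐ[Ω] ExteriorAlgebra Ω H => f _)
      ExteriorAlgebra.map_id
  | succ s ih =>
    have h : ExteriorAlgebra.map (F ^ (s + 1)) =
        (ExteriorAlgebra.map (F ^ s)).comp (ExteriorAlgebra.map F) := by
      rw [ExteriorAlgebra.map_comp_map, pow_succ, Module.End.mul_eq_comp]
    rw [h, AlgHom.comp_apply, map_wedge_eigen F l hl, map_smul, ih, smul_smul, pow_succ, mul_comm]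

/-- A basis of the cohomology of an isotypic abelian variety which contains a given eigenvector. -/
theorem exists_single_basis [IsAlgClosed Ω] {k : ℕ} (hk : 0 < k) {W : Set Ω}
    (hW : ∀ w ∈ W, ∀ b : Ω, aeval b (minpoly ℚ w) = 0 → b ∈ W) {a : Ω} (ha : IsWeil p k a)
    (haW : a ∈ W) :
    ∃ (D : AbVar p Ω) (N g : ℕ) (b : Basis (Fin N) Ω D.H) (y : D.H) (Z : List (Ω × D.H)),
      D.m = k ∧ (∀ (a' : Ω) (v : D.H), v ≠ 0 → D.F v = a' • v → a' ∈ W) ∧ D.F y = a • y ∧
      (∀ x ∈ Z, D.F x.2 = x.1 • x.2) ∧ (y :: Z.map Prod.snd).Perm (List.ofFn b) ∧ N = 2 * g ∧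
      a * (Z.map Prod.fst).prod = ((p : Ω) ^ k) ^ g := by
  classical
  obtain ⟨D, n, b, c, hDm, h1, h2, h3, i₀, hi₀⟩ := exists_isotypic hk ha
  have hiso := ha.isIsotypic
  have hc0 : ∀ i, c i ≠ 0 := fun i => ha.root_ne_zero (h3 i)
  let d : Fin n ⊕ Fin n → Ω := Sum.elim c fun i => (p : Ω) ^ k / c i
  have hd : ∀ j, D.F (b j) = d j • b j := by
    rintro (i | i)
    · exact h1 i
    · exact h2 i
  let e : Fin n ⊕ Fin n ≃ Fin (n + n) := finSumFinEquiv
  let T : Finset (Fin n ⊕ Fin n) := Finset.univ.erase (Sum.inl i₀)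
  have hT : (Sum.inl i₀ :: T.toList).Perm (List.ofFn e.symm) := by
    rw [← Multiset.coe_eq_coe, ← Multiset.cons_coe, Finset.coe_toList]
    have h5 : (Sum.inl i₀) ::ₘ T.val = (Finset.univ : Finset (Fin n ⊕ Fin n)).val := by
      rw [← Finset.insert_val_of_notMem (Finset.notMem_erase _ _),
        Finset.insert_erase (Finset.mem_univ _)]
    rw [h5]
    have h6 : (List.ofFn e.symm).Nodup := List.nodup_ofFn.2 e.symm.injective
    have h7 : ((List.ofFn e.symm : List _) : Multiset (Fin n ⊕ Fin n)).toFinset = Finset.univ := by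
      ext x
      simp only [Multiset.mem_toFinset, Multiset.mem_coe, Finset.mem_univ, iff_true]
      rw [List.mem_ofFn]
      exact ⟨e x, e.symm_apply_apply x⟩
    rw [← h7, Multiset.toFinset_val, Multiset.dedup_eq_self.2 (Multiset.coe_nodup.2 h6)]
  refine ⟨D, n + n, n, b.reindex e, b (Sum.inl i₀), T.toList.map (fun j => (d j, b j)), hDm, ?_,
    ?_, ?_, ?_, by ring, ?_⟩
  · intro a' v hv h
    obtain ⟨j, hj⟩ := eigenvalue_of_basis b (d := d) hd hv h
    rcases j with i | i
    · rw [hj]; exact hW a haW _ (h3 i)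
    · rw [hj]
      refine hW a haW _ ?_
      have h4 : minpoly ℚ (c i) = minpoly ℚ a :=
        (minpoly.eq_of_irreducible_of_monic hiso.irreducible (h3 i) hiso.monic).symm
      have h5 := (hiso.isWeil (h3 i)).conj_root
      rw [h4] at h5
      exact h5
  · rw [h1, hi₀]
  · intro x hx
    obtain ⟨j, _, rfl⟩ := List.mem_map.1 hx
    exact hd j
  · have h5 := hT.map b
    rw [List.map_cons, List.map_ofFn] at h5
    rw [List.map_map]
    have h6 : List.ofFn (b.reindex e) = List.ofFn (b ∘ e.symm) := by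
      congr 1
      exact b.coe_reindex e
    rw [h6]
    exact h5
  · have h5 := (hT.map d).prod_eq
    rw [List.map_cons, List.prod_cons, List.map_ofFn, List.prod_ofFn] at h5
    have h6 : d (Sum.inl i₀) = a := hi₀
    rw [h6] at h5
    rw [List.map_map]
    refine h5.trans ?_
    rw [← Equiv.prod_comp e (fun j => (d ∘ e.symm) j)]
    have h7 : ∀ j, (d ∘ e.symm) (e j) = d j := fun j => by
      rw [Function.comp_apply, e.symm_apply_apply]
    simp only [h7]
    rw [Fintype.prod_sum_type, ← Finset.prod_mul_distrib]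
    have h8 : ∀ i, d (Sum.inl i) * d (Sum.inr i) = (p : Ω) ^ k := fun i => by
      change c i * ((p : Ω) ^ k / c i) = _
      rw [mul_div_cancel₀ _ (hc0 i)]
    rw [Finset.prod_congr rfl fun i _ => h8 i, Finset.prod_const, Finset.card_univ, Fintype.card_fin]

/-- A basis of the cohomology of an abelian variety which contains eigenvectors with given
eigenvalues. -/
theorem exists_basis_cover [IsAlgClosed Ω] {k : ℕ} (hk : 0 < k) {W : Set Ω}
    (hW : ∀ w ∈ W, ∀ b : Ω, aeval b (minpoly ℚ w) = 0 → b ∈ W) (w : List Ω)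
    (hw : ∀ x ∈ w, IsWeil p k x ∧ x ∈ W) :
    ∃ (C : AbVar p Ω) (N g : ℕ) (b : Basis (Fin N) Ω C.H) (Y Z : List (Ω × C.H)),
      C.m = k ∧ (∀ (a' : Ω) (v : C.H), v ≠ 0 → C.F v = a' • v → a' ∈ W) ∧
      (∀ x ∈ Y, C.F x.2 = x.1 • x.2) ∧ (∀ x ∈ Z, C.F x.2 = x.1 • x.2) ∧ Y.map Prod.fst = w ∧
      (Y.map Prod.snd ++ Z.map Prod.snd).Perm (List.ofFn b) ∧ N = 2 * g ∧
      w.prod * (Z.map Prod.fst).prod = ((p : Ω) ^ k) ^ g := by
  induction w with
  | nil =>
    have : Subsingleton (zeroVar p Ω k hk).H := inferInstanceAs (Subsingleton PUnit)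
    refine ⟨zeroVar p Ω k hk, 0, 0, Basis.empty _, [], [], rfl, ?_, by simp, by simp, rfl,
      by simp, rfl, by simp⟩
    intro a v hv
    exact absurd (Subsingleton.elim v 0) hv
  | cons a w ih =>
    obtain ⟨C, N, g, b, Y, Z, hCm, hCW, hY, hZ, hYw, hP, hN, hprod⟩ :=
      ih fun x hx => hw x (List.mem_cons_of_mem _ hx)
    obtain ⟨ha, haW⟩ := hw a List.mem_cons_self
    obtain ⟨D, N', g', b', y, Z', hDm, hDW, hy, hZ', hP', hN', hprod'⟩ :=
      exists_single_basis hk hW ha haW
    have hm : D.m = C.m := by rw [hDm, hCm]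
    let il : D.H → D.H × C.H := fun v => (v, 0)
    let ir : C.H → D.H × C.H := fun v => (0, v)
    have hl : ∀ (c : Ω) (v : D.H), D.F v = c • v → (D.prod C hm).F (il v) = c • il v := by
      intro c v h
      change (D.F v, C.F 0) = c • ((v, 0) : D.H × C.H)
      rw [h, map_zero, Prod.smul_mk, smul_zero]
    have hr : ∀ (c : Ω) (v : C.H), C.F v = c • v → (D.prod C hm).F (ir v) = c • ir v := by
      intro c v h
      change (D.F 0, C.F v) = c • ((0, v) : D.H × C.H)
      rw [h, map_zero, Prod.smul_mk, smul_zero]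
    refine ⟨D.prod C hm, N' + N, g' + g, (b'.prod b).reindex finSumFinEquiv,
      (a, il y) :: Y.map (fun x => (x.1, ir x.2)),
      Z'.map (fun x => (x.1, il x.2)) ++ Z.map (fun x => (x.1, ir x.2)), hDm,
      eigen_prod hm hDW hCW, ?_, ?_, ?_, ?_, by omega, ?_⟩
    · intro x hx
      rcases List.mem_cons.1 hx with rfl | hx
      · exact hl _ _ hy
      · obtain ⟨x', hx', rfl⟩ := List.mem_map.1 hx
        exact hr _ _ (hY x' hx')
    · intro x hx
      rcases List.mem_append.1 hx with hx | hx
      · obtain ⟨x', hx', rfl⟩ := List.mem_map.1 hx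
        exact hl _ _ (hZ' x' hx')
      · obtain ⟨x', hx', rfl⟩ := List.mem_map.1 hx
        exact hr _ _ (hZ x' hx')
    · rw [List.map_cons, List.map_map, ← hYw]
      rfl
    · have e0 : List.ofFn ((b'.prod b).reindex finSumFinEquiv) =
          (List.ofFn b').map il ++ (List.ofFn b).map ir := by
        rw [List.ofFn_add, List.map_ofFn, List.map_ofFn]
        congr 1
        · congr 1
          funext i
          rw [Basis.reindex_apply]
          change (b'.prod b) (finSumFinEquiv.symm (Fin.castAdd N i)) = _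
          rw [finSumFinEquiv_symm_apply_castAdd]
          simp [il, Basis.prod_apply]
        · congr 1
          funext i
          rw [Basis.reindex_apply, finSumFinEquiv_symm_apply_natAdd]
          simp [ir, Basis.prod_apply]
      have e1 : (((a, il y) :: Y.map (fun x => (x.1, ir x.2))).map Prod.snd ++
          (Z'.map (fun x => (x.1, il x.2)) ++ Z.map (fun x => (x.1, ir x.2))).map Prod.snd) =
          il y :: ((Y.map Prod.snd).map ir ++ ((Z'.map Prod.snd).map il ++
            (Z.map Prod.snd).map ir)) := by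
        simp only [List.map_cons, List.map_append, List.map_map, List.cons_append]
        rfl
      have e2 : (il y :: ((Y.map Prod.snd).map ir ++ ((Z'.map Prod.snd).map il ++
            (Z.map Prod.snd).map ir))).Perm
          (((y :: Z'.map Prod.snd).map il) ++ ((Y.map Prod.snd ++ Z.map Prod.snd).map ir)) := by
        rw [List.map_cons, List.cons_append, List.map_append]
        refine List.Perm.cons _ ?_
        rw [← List.append_assoc, ← List.append_assoc]
        exact List.Perm.append_right _ List.perm_append_comm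
      have e3 := e2.trans ((hP'.map il).append (hP.map ir))
      exact (e1 ▸ (e0 ▸ e3 : _) : _)
    · have e1 : ((Z'.map (fun x : Ω × D.H => (x.1, il x.2)) ++
          Z.map (fun x : Ω × C.H => (x.1, ir x.2))).map Prod.fst).prod =
          (Z'.map Prod.fst).prod * (Z.map Prod.fst).prod := by
        rw [List.map_append, List.prod_append, List.map_map, List.map_map]
        rfl
      rw [List.prod_cons]
      refine (congrArg (fun t => a * w.prod * t) e1).trans ?_
      rw [pow_add, ← hprod, ← hprod']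
      ring

omit [CharZero Ω] in
theorem ofFn_wedge {H : Type} [AddCommGroup H] [Module Ω H] {N : ℕ} (v : Fin N → H) :
    wedge (List.ofFn v) = ExteriorAlgebra.ιMulti Ω N v := by
  rw [ExteriorAlgebra.ιMulti_apply, wedge, List.map_ofFn]
  rfl

/-- **Products of eigenvectors are supported in codimension `r`** if the product of their eigenvalues
is `q ^ r` times a product of Weil numbers in the set `W` and all Tate classes on the abelian
varieties with Frobenius eigenvalues in `W` belong to the system. -/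
theorem mem_coniveau [IsAlgClosed Ω] {S : CycleSystem p Ω} {A : AbVar p Ω} {W : Set Ω}
    (hW : ∀ w ∈ W, ∀ b : Ω, aeval b (minpoly ℚ w) = 0 → b ∈ W)
    (hWeil : ∀ w ∈ W, IsWeil p A.m w)
    (hAW : ∀ (a : Ω) (v : A.H), v ≠ 0 → A.F v = a • v → a ∈ W)
    (hS : ∀ B : AbVar p Ω, B.m = A.m → (∀ (a : Ω) (v : B.H), v ≠ 0 → B.F v = a • v → a ∈ W) →
      ∀ (r : ℕ) (x : ExteriorAlgebra Ω B.H), IsTate B r x → x ∈ S.C B)
    (r : ℕ) (u : List (Ω × A.H)) (hu : ∀ x ∈ u, A.F x.2 = x.1 • x.2) (w : List Ω)
    (hw : ∀ x ∈ w, x ∈ W) (hlen : u.length = w.length + 2 * r) {s : ℕ} (hs : 0 < s)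
    (hprod : (u.map Prod.fst).prod ^ s = ((p : Ω) ^ (A.m * r) * w.prod) ^ s) :
    wedge (u.map Prod.snd) ∈ Coniveau S A w.length r := by
  obtain ⟨C, N, g, b, Y, Z, hCm, hCW, hY, hZ, hYw, hP, hN, hprodC⟩ :=
    exists_basis_cover A.m_pos hW w fun x hx => ⟨hWeil x (hw x hx), hw x hx⟩
  have hm : A.m = C.m := hCm.symm
  have hYl : Y.length = w.length := by rw [← hYw, List.length_map]
  have hNl : Y.length + Z.length = N := by
    have := hP.length_eq
    rw [List.length_append, List.length_map, List.length_map, List.length_ofFn] at this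
    exact this
  let l : List (Ω × (A.H × C.H)) :=
    u.map (fun x => (x.1, LinearMap.inl Ω A.H C.H x.2)) ++
      Z.map (fun x => (x.1, LinearMap.inr Ω A.H C.H x.2))
  have hl1 : l.map Prod.fst = u.map Prod.fst ++ Z.map Prod.fst := by
    simp only [l, List.map_append, List.map_map]
    rfl
  have hl2 : l.map Prod.snd = (u.map Prod.snd).map (LinearMap.inl Ω A.H C.H) ++
      (Z.map Prod.snd).map (LinearMap.inr Ω A.H C.H) := by
    simp only [l, List.map_append, List.map_map]
    rfl
  have hll : l.length = u.length + Z.length := by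
    simp only [l, List.length_append, List.length_map]
  have hl : ∀ x ∈ l, (A.F.prodMap C.F) x.2 = x.1 • x.2 := by
    intro x hx
    rcases List.mem_append.1 hx with hx | hx
    · obtain ⟨x', hx', rfl⟩ := List.mem_map.1 hx
      change (A.F x'.2, C.F 0) = x'.1 • ((x'.2, 0) : A.H × C.H)
      rw [hu x' hx', map_zero, Prod.smul_mk, smul_zero]
    · obtain ⟨x', hx', rfl⟩ := List.mem_map.1 hx
      change (A.F 0, C.F x'.2) = x'.1 • ((0, x'.2) : A.H × C.H)
      rw [hZ x' hx', map_zero, Prod.smul_mk, smul_zero]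
  let z : ExteriorAlgebra Ω (A.H × C.H) := wedge (l.map Prod.snd)
  have hzdeg : ∀ n, n = l.length → z ∈ ⋀[Ω]^n (A.H × C.H) := by
    rintro n rfl
    have := wedge_mem (R := Ω) (l.map Prod.snd)
    rwa [List.length_map] at this
  have hzT : IsTate (A.prod C hm) (r + g) z := by
    refine ⟨hzdeg _ (by rw [hll]; omega), s, hs, ?_⟩
    have e1 : ExteriorAlgebra.map ((A.F.prodMap C.F : A.H × C.H →ₗ[Ω] A.H × C.H) ^ s) z =
        (l.map Prod.fst).prod ^ s • z :=
      map_pow_wedge_eigen _ l hl s
    have e2 : (l.map Prod.fst).prod ^ s = (p : Ω) ^ (A.m * (r + g) * s) := by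
      rw [hl1, List.prod_append, mul_pow, hprod, ← mul_pow, mul_assoc, hprodC, ← pow_mul,
        ← pow_add, ← pow_mul]
      congr 1
      ring
    exact e1.trans (congrArg (fun t => t • z) e2)
  have hzS : z ∈ S.C (A.prod C hm) := hS (A.prod C hm) rfl (eigen_prod hm hAW hCW) (r + g) z hzT
  have hmul : z * ExteriorAlgebra.map (LinearMap.inr Ω A.H C.H) (wedge (Y.map Prod.snd)) =
      wedge ((u.map Prod.snd).map (LinearMap.inl Ω A.H C.H)) *
        wedge (((Z.map Prod.snd) ++ (Y.map Prod.snd)).map (LinearMap.inr Ω A.H C.H)) := by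
    have hz : z = wedge ((u.map Prod.snd).map (LinearMap.inl Ω A.H C.H)) *
        wedge ((Z.map Prod.snd).map (LinearMap.inr Ω A.H C.H)) := by
      change wedge (l.map Prod.snd) = _
      rw [hl2, wedge_append]
    rw [hz, map_wedge, List.map_append, wedge_append, mul_assoc]
  have hperm : (((Z.map Prod.snd) ++ (Y.map Prod.snd)).map (LinearMap.inr Ω A.H C.H)).Perm
      ((List.ofFn b).map (LinearMap.inr Ω A.H C.H)) :=
    (List.perm_append_comm.trans hP).map _
  have hb : wedge ((List.ofFn b).map (LinearMap.inr Ω A.H C.H)) =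
      ExteriorAlgebra.map (LinearMap.inr Ω A.H C.H) (ExteriorAlgebra.ιMulti Ω N b) := by
    rw [← map_wedge, ofFn_wedge]
  have hu' : wedge ((u.map Prod.snd).map (LinearMap.inl Ω A.H C.H)) =
      ExteriorAlgebra.map (LinearMap.inl Ω A.H C.H) (wedge (u.map Prod.snd)) := by
    rw [← map_wedge]
  have hydeg : wedge (R := Ω) (Y.map Prod.snd) ∈ ⋀[Ω]^w.length C.H := by
    have := wedge_mem (R := Ω) (Y.map Prod.snd)
    rwa [List.length_map, hYl] at this
  have hxdeg : wedge (R := Ω) (u.map Prod.snd) ∈ ⋀[Ω]^(w.length + 2 * r) A.H := by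
    have := wedge_mem (R := Ω) (u.map Prod.snd)
    rwa [List.length_map, hlen] at this
  refine Submodule.subset_span ⟨hxdeg, ?_⟩
  rcases wedge_perm (R := Ω) hperm with h | h
  · refine ⟨C, hm, N, b, wedge (Y.map Prod.snd), z, hydeg, hzS, hzdeg _ (by rw [hll]; omega), ?_⟩
    rw [hmul, h, hb, hu']
  · refine ⟨C, hm, N, b, - wedge (Y.map Prod.snd), z, neg_mem hydeg, hzS,
      hzdeg _ (by rw [hll]; omega), ?_⟩
    rw [map_neg, mul_neg, hmul, h, hb, hu', mul_neg, neg_neg]

end Pool.Agent.V8H94.CT
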