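import Mathlib

/-!
# Abelian varieties over finite fields up to isogeny
-/

set_option autoImplicit false

namespace Pool.Agent.V8H94.CT

open Module Polynomial

/-- `P ^ e` is the characteristic polynomial of the Frobenius endomorphism of an abelian variety over
the field with `p ^ m` elements which is isogenous to a power of a simple one, or `e = 0` (Honda and
Tate): `P` is monic and irreducible with integral coefficients, its complex roots have absolute value
`p ^ (m / 2)`, `e` is even if `P` has a real root, and for each irreducible factor `g` of `P` over the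
`p`-adic numbers the product of `e` with the `p`-adic valuation of `g 0` is divisible by `m`. -/
structure IsIsotypic (p : ℕ) [Fact p.Prime] (m : ℕ) (P : ℚ[X]) (e : ℕ) : Prop where
  monic : P.Monic
  irreducible : Irreducible P
  integral : ∃ P₀ : ℤ[X], P₀.map (Int.castRingHom ℚ) = P
  weil : ∀ z : ℂ, aeval z P = 0 → ‖z‖ ^ 2 = (p : ℝ) ^ m
  real : (∃ x : ℝ, aeval x P = 0) → Even e
  padic : ∀ g : ℚ_[p][X], g.Monic → Irreducible g → g ∣ P.map (algebraMap ℚ ℚ_[p]) →
    (m : ℤ) ∣ e * (g.coeff 0).valuation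

/-- The characteristic polynomials of the Frobenius endomorphisms of the abelian varieties over the
field with `p ^ m` elements (Honda and Tate). -/
inductive IsFrobPoly (p : ℕ) [Fact p.Prime] (m : ℕ) : ℚ[X] → Prop
  | one : IsFrobPoly p m 1
  | mul {f P : ℚ[X]} {e : ℕ} : IsFrobPoly p m f → IsIsotypic p m P e → IsFrobPoly p m (f * P ^ e)

theorem IsFrobPoly.mul' {p : ℕ} [Fact p.Prime] {m : ℕ} {f g : ℚ[X]} (hf : IsFrobPoly p m f)
    (hg : IsFrobPoly p m g) : IsFrobPoly p m (f * g) := by
  induction hg with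
  | one => simpa using hf
  | mul _ h ih => rw [← mul_assoc]; exact IsFrobPoly.mul ih h

/-- An abelian variety `A` over a finite field with `p ^ m` elements, up to isogeny: its first
cohomology `H` with coefficients in `Ω` and the Frobenius endomorphism `F` of `H`, which is
diagonalizable, and whose characteristic polynomial is one of the polynomials in the theorem of Honda
and Tate. -/
structure AbVar (p : ℕ) [Fact p.Prime] (Ω : Type) [Field Ω] [CharZero Ω] : Type 1 where
  m : ℕ
  m_pos : 0 < m
  H : Type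
  [grp : AddCommGroup H]
  [mod : Module Ω H]
  [fin : FiniteDimensional Ω H]
  F : H →ₗ[Ω] H
  span_eigen : Submodule.span Ω {v : H | ∃ a : Ω, F v = a • v} = ⊤
  frob : ∃ f : ℚ[X], IsFrobPoly p m f ∧ F.charpoly = f.map (algebraMap ℚ Ω)

attribute [instance] AbVar.grp AbVar.mod AbVar.fin

section

variable {p : ℕ} [Fact p.Prime] {Ω : Type} [Field Ω] [CharZero Ω]

omit [CharZero Ω] in
theorem span_eigen_prod {H H' : Type} [AddCommGroup H] [Module Ω H] [AddCommGroup H']
    [Module Ω H'] {F : H →ₗ[Ω] H} {F' : H' →ₗ[Ω] H'}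
    (h : Submodule.span Ω {v : H | ∃ a : Ω, F v = a • v} = ⊤)
    (h' : Submodule.span Ω {v : H' | ∃ a : Ω, F' v = a • v} = ⊤) :
    Submodule.span Ω {v : H × H' | ∃ a : Ω, (F.prodMap F') v = a • v} = ⊤ := by
  rw [eq_top_iff, ← LinearMap.sup_range_inl_inr, LinearMap.range_eq_map,
    LinearMap.range_eq_map, ← h, ← h', Submodule.map_span, Submodule.map_span]
  refine sup_le (Submodule.span_mono ?_) (Submodule.span_mono ?_)
  · rintro _ ⟨v, ⟨a, ha⟩, rfl⟩
    exact ⟨a, by simp [ha]⟩
  · rintro _ ⟨v, ⟨a, ha⟩, rfl⟩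
    exact ⟨a, by simp [ha]⟩

theorem frob_prod (A B : AbVar p Ω) (h : A.m = B.m) :
    ∃ f : ℚ[X], IsFrobPoly p A.m f ∧ (A.F.prodMap B.F).charpoly = f.map (algebraMap ℚ Ω) := by
  obtain ⟨f, hf, hf'⟩ := A.frob
  obtain ⟨g, hg, hg'⟩ := B.frob
  rw [← h] at hg
  exact ⟨f * g, hf.mul' hg, by rw [LinearMap.charpoly_prodMap, hf', hg', Polynomial.map_mul]⟩

/-- The product of two abelian varieties over the same field. -/
def AbVar.prod (A B : AbVar p Ω) (h : A.m = B.m) : AbVar p Ω where
  m := A.m
  m_pos := A.m_pos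
  H := A.H × B.H
  F := A.F.prodMap B.F
  span_eigen := span_eigen_prod A.span_eigen B.span_eigen
  frob := frob_prod A B h

/-- `b` is an eigenvalue of the Frobenius endomorphism of `A`. -/
def HasEigen (A : AbVar p Ω) (b : Ω) : Prop := ∃ w : A.H, w ≠ 0 ∧ A.F w = b • w

end

end Pool.Agent.V8H94.CT
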