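import Pool.Agent.V8H94.CT.Objects

/-!
# Cohomology algebras, Tate classes and cycle systems
-/

set_option autoImplicit false

namespace Pool.Agent.V8H94.TC

open Module Pool.Agent.V8H94.CT

section

variable {p : ℕ} [Fact p.Prime] {Ω : Type} [Field Ω] [CharZero Ω]

/-- The map of exterior algebras given by a linear map. -/
noncomputable def extMap {K H H' : Type} [Field K] [AddCommGroup H] [Module K H] [AddCommGroup H']
    [Module K H'] (h : H →ₗ[K] H') (x : ExteriorAlgebra K H) : ExteriorAlgebra K H' :=
  ExteriorAlgebra.map h x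

/-- The product of the elements of a basis in the exterior algebra. -/
noncomputable def extTop {K H : Type} [Field K] [AddCommGroup H] [Module K H] {n : ℕ}
    (b : Basis (Fin n) K H) : ExteriorAlgebra K H :=
  ExteriorAlgebra.ιMulti K n b

/-- The power `F ^ s` of the Frobenius endomorphism of `H = H ^ 1 (A)`. -/
def frobPow (A : AbVar p Ω) (s : ℕ) : A.H →ₗ[Ω] A.H := A.F ^ s

/-- The cohomology algebra of `A`: the exterior algebra of the first cohomology. -/
def Coh (A : AbVar p Ω) : Type := ExteriorAlgebra Ω A.H

noncomputable instance instRing (A : AbVar p Ω) : Ring (Coh A) :=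
  (inferInstance : Ring (ExteriorAlgebra Ω A.H))

noncomputable instance instAlgebra (A : AbVar p Ω) : Algebra Ω (Coh A) :=
  (inferInstance : Algebra Ω (ExteriorAlgebra Ω A.H))

/-- The cohomology of degree `n`: the exterior power. -/
def deg (A : AbVar p Ω) (n : ℕ) : Submodule Ω (Coh A) := ⋀[Ω]^n A.H

/-- The pull-back on the cohomology algebras given by a linear map of the first cohomology. -/
noncomputable def pull (A B : AbVar p Ω) (h : B.H →ₗ[Ω] A.H) (x : Coh B) : Coh A := extMap h x

/-- The action of the power `F ^ s` of Frobenius on the cohomology algebra. -/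
noncomputable def frob (A : AbVar p Ω) (s : ℕ) (x : Coh A) : Coh A := pull A A (frobPow A s) x

/-- The product of the elements of a basis of the first cohomology: up to a factor the class of a
point. -/
noncomputable def point (B : AbVar p Ω) {n : ℕ} (b : Basis (Fin n) Ω B.H) : Coh B := extTop b

/-- The inclusion of `H ^ 1 (A)` in `H ^ 1 (A × B) = H ^ 1 (A) × H ^ 1 (B)`. -/
def inclFst (A B : AbVar p Ω) (hm : A.m = B.m) : A.H →ₗ[Ω] (A.prod B hm).H :=
  LinearMap.inl Ω A.H B.H

/-- The inclusion of `H ^ 1 (B)` in `H ^ 1 (A × B) = H ^ 1 (A) × H ^ 1 (B)`. -/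
def inclSnd (A B : AbVar p Ω) (hm : A.m = B.m) : B.H →ₗ[Ω] (A.prod B hm).H :=
  LinearMap.inr Ω A.H B.H

/-- The pull-back along the projection `A × B → A`. -/
noncomputable def pullFst (A B : AbVar p Ω) (hm : A.m = B.m) (x : Coh A) : Coh (A.prod B hm) :=
  pull (A.prod B hm) A (inclFst A B hm) x

/-- The pull-back along the projection `A × B → B`. -/
noncomputable def pullSnd (A B : AbVar p Ω) (hm : A.m = B.m) (x : Coh B) : Coh (A.prod B hm) :=
  pull (A.prod B hm) B (inclSnd A B hm) x

/-- `h` is a linear combination of the maps `H ^ 1 (B) → H ^ 1 (A)` which are induced by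
homomorphisms `A → B` over the algebraic closure of the finite fields: it commutes with the Frobenius
endomorphisms over a common finite extension of the fields of definition (theorem of Tate). -/
def IsHom (A B : AbVar p Ω) (h : B.H →ₗ[Ω] A.H) : Prop :=
  ∃ s t : ℕ, 0 < s ∧ 0 < t ∧ s * A.m = t * B.m ∧ ∀ v : B.H, h (frobPow B t v) = frobPow A s (h v)

/-- A system of cohomology classes `C A` on all abelian varieties `A` over finite fields of
characteristic `p` with the formal properties of the linear combinations of the classes of algebraic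
cycles (defined over the algebraic closure): it is stable under linear combinations, cup products and
pull-backs, and if the exterior product of a class `x` on `A` with the class of a point of `B` belongs
to the system then so does `x`, its push-forward to `A`, up to a factor. -/
structure CycleSystem (p : ℕ) [Fact p.Prime] (Ω : Type) [Field Ω] [CharZero Ω] : Type 1 where
  C : ∀ A : AbVar p Ω, Submodule Ω (Coh A)
  one_mem : ∀ A, 1 ∈ C A
  mul_mem : ∀ A, ∀ x ∈ C A, ∀ y ∈ C A, x * y ∈ C A
  pull_mem : ∀ (A B : AbVar p Ω) (h : B.H →ₗ[Ω] A.H), IsHom A B h → ∀ x ∈ C B, pull A B h x ∈ C A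
  push_mem : ∀ (A B : AbVar p Ω) (hm : A.m = B.m) (n : ℕ) (b : Basis (Fin n) Ω B.H) (x : Coh A),
    pullFst A B hm x * pullSnd A B hm (point B b) ∈ C (A.prod B hm) → x ∈ C A

/-- The class `x` in the cohomology algebra of `A` is a Tate class of codimension `r` over a finite
extension of the field of definition. -/
def IsTate (A : AbVar p Ω) (r : ℕ) (x : Coh A) : Prop :=
  x ∈ deg A (2 * r) ∧ ∃ s : ℕ, 0 < s ∧ frob A s x = ((p : Ω) ^ (A.m * r * s)) • x

/-- The class `x` in the cohomology of degree `n` of `A` is supersingular: with `q = p ^ A.m`, for some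
`s > 0` the Frobenius endomorphism of the field with `q ^ (2 * s)` elements acts on `x` as
multiplication by `q ^ (n * s)`. -/
def IsSupersingularClass (A : AbVar p Ω) (n : ℕ) (x : Coh A) : Prop :=
  x ∈ deg A n ∧ ∃ s : ℕ, 0 < s ∧ frob A (2 * s) x = ((p : Ω) ^ (A.m * n * s)) • x

/-- Over a common finite extension of the fields of definition the Frobenius eigenvalues of `C` are
among those of `B`. By Honda and Tate this means that over the algebraic closure each simple factor of
`C` is isogenous to one of `B`, so that `C` is isogenous to a factor of a power of `B`. -/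
def IsBuiltFrom (C B : AbVar p Ω) : Prop :=
  ∃ s t : ℕ, 0 < s ∧ 0 < t ∧ s * C.m = t * B.m ∧
    ∀ a : Ω, HasEigen C a → ∃ b : Ω, HasEigen B b ∧ a ^ s = b ^ t

/-- The squares of the Frobenius eigenvalues of `A`, and `q`. -/
def squares (A : AbVar p Ω) : Set Ω := {y | (∃ a, HasEigen A a ∧ y = a ^ 2) ∨ y = (p : Ω) ^ A.m}

/-- The products of `n` elements of `squares A`. -/
def products (A : AbVar p Ω) (n : ℕ) : Set Ω :=
  {w | ∃ y : Fin n → Ω, (∀ t, y t ∈ squares A) ∧ w = ∏ t, y t}

/-- The system contains the Tate classes of codimension `r` on `B`. -/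
def TateHolds (S : CycleSystem p Ω) (B : AbVar p Ω) (r : ℕ) : Prop :=
  ∀ x : Coh B, IsTate B r x → x ∈ S.C B

/-- The system contains the Tate classes of all codimensions on all varieties built from factors
of `B`. -/
def TateHoldsFor (S : CycleSystem p Ω) (B : AbVar p Ω) : Prop :=
  ∀ C : AbVar p Ω, IsBuiltFrom C B → ∀ r : ℕ, TateHolds S C r

/-- The system contains the products of the supersingular classes of degree three and one. -/
def SupersingularProducts (S : CycleSystem p Ω) (B : AbVar p Ω) : Prop :=
  ∀ x y : Coh B, IsSupersingularClass B 3 x → IsSupersingularClass B 1 y → x * y ∈ S.C B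

end

end Pool.Agent.V8H94.TC
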