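import Pool.Agent.V8H94.CT.Fin
import Pool.Agent.V8H94.CT.PubDefs

/-!
# Codimension two suffices
-/

set_option autoImplicit false

namespace Pool.Agent.V8H94.TC

open Module Pool.Agent.V8H94.CT

section

variable {p : ℕ} [Fact p.Prime] {Ω : Type} [Field Ω] [CharZero Ω]

/-- The corresponding system in the other notation. -/
def CycleSystem.toCT (S : CycleSystem p Ω) : CT.CycleSystem p Ω where
  C := S.C
  one_mem := S.one_mem
  mul_mem := S.mul_mem
  pull A B h hh x hx := by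
    obtain ⟨s, t, hs, ht, hst, hc⟩ := hh
    exact S.pull_mem A B h ⟨s, t, hs, ht, hst, fun v => LinearMap.congr_fun hc v⟩ x hx
  push A B hm n b x hx := S.push_mem A B hm n b x hx

theorem isTate_iff (A : AbVar p Ω) (r : ℕ) (x : Coh A) : IsTate A r x ↔ CT.IsTate A r x := Iff.rfl

theorem isSupersingularClass_iff (A : AbVar p Ω) (r : ℕ) (x : Coh A) :
    IsSupersingularClass A r x ↔ CT.IsSupersingularClass A r x := Iff.rfl

theorem isBuiltFrom_iff (C B : AbVar p Ω) : IsBuiltFrom C B ↔ CT.IsBuiltFrom C B := by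
  constructor
  · rintro ⟨s, t, hs, ht, hst, h⟩
    refine ⟨s, t, hs, ht, hst, fun a v hv hav => ?_⟩
    obtain ⟨b, ⟨w, hw, hbw⟩, hab⟩ := h a ⟨v, hv, hav⟩
    exact ⟨b, w, hw, hbw, hab⟩
  · rintro ⟨s, t, hs, ht, hst, h⟩
    refine ⟨s, t, hs, ht, hst, ?_⟩
    rintro a ⟨v, hv, hav⟩
    obtain ⟨b, w, hw, hbw, hab⟩ := h a v hv hav
    exact ⟨b, ⟨w, hw, hbw⟩, hab⟩

theorem squares_eq (A : AbVar p Ω) : squares A = squareSet A := by
  ext y
  constructor
  · rintro (⟨a, ⟨v, hv, h⟩, rfl⟩ | rfl)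
    · exact Or.inl ⟨a, v, hv, h, rfl⟩
    · exact Or.inr rfl
  · rintro (⟨a, v, hv, h, rfl⟩ | h)
    · exact Or.inl ⟨a, ⟨v, hv, h⟩, rfl⟩
    · exact Or.inr h

theorem products_eq (A : AbVar p Ω) (n : ℕ) : products A n = prodSet (squareSet A) n := by
  unfold products prodSet
  rw [squares_eq]

/-- **Codimension two suffices.** -/
theorem codimension_two [IsAlgClosed Ω] (A : AbVar p Ω) : ∃ n₀ : ℕ, ∀ n ≥ n₀, ∃ B : AbVar p Ω,
    B.m = 2 * (A.m * n) ∧ (∀ b : Ω, HasEigen B b ↔ b ∈ products A n) ∧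
    IsBuiltFrom A B ∧ ∀ S : CycleSystem p Ω, TateHolds S B 1 →
      List.TFAE [TateHoldsFor S B, TateHolds S B 2, SupersingularProducts S B] := by
  obtain ⟨n₀, h⟩ := exists_closed A
  refine ⟨n₀, fun n hn => ?_⟩
  obtain ⟨B, hBm, hB, hAB, hS⟩ := h n hn
  refine ⟨B, hBm, ?_, (isBuiltFrom_iff A B).2 hAB, fun S hdiv => ?_⟩
  · rw [products_eq]; exact hB
  · have h1 := hS S.toCT hdiv
    have e : TateHoldsFor S B ↔ CT.TateHoldsFor S.toCT B :=
      ⟨fun H C hC => H C ((isBuiltFrom_iff C B).2 hC),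
        fun H C hC => H C ((isBuiltFrom_iff C B).1 hC)⟩
    tfae_have 1 → 2 := fun H => (h1.out 0 1).1 (e.1 H)
    tfae_have 2 → 3 := fun H => (h1.out 1 2).1 H
    tfae_have 3 → 1 := fun H => e.2 ((h1.out 2 0).1 H)
    tfae_finish

end

end Pool.Agent.V8H94.TC
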