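import Pool.Agent.V8H94.CT.Defs

/-!
# Products of eigenvectors of Frobenius in a cycle system
-/

set_option autoImplicit false

namespace Pool.Agent.V8H94.CT

open Module

section Perm

variable {R M : Type} [CommRing R] [AddCommGroup M] [Module R M]

/-- The product of vectors in the exterior algebra. -/
def wedge (l : List M) : ExteriorAlgebra R M := (l.map (ExteriorAlgebra.ι R)).prod

@[simp] theorem wedge_nil : wedge (R := R) ([] : List M) = 1 := rfl

@[simp] theorem wedge_cons (v : M) (l : List M) :
    wedge (R := R) (v :: l) = ExteriorAlgebra.ι R v * wedge l := by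
  simp [wedge]

theorem wedge_append (l l' : List M) : wedge (R := R) (l ++ l') = wedge l * wedge l' := by
  simp [wedge]

theorem wedge_perm {l l' : List M} (h : l.Perm l') :
    wedge (R := R) l = wedge l' ∨ wedge (R := R) l = - wedge l' := by
  induction h with
  | nil => exact Or.inl rfl
  | cons x _ ih =>
    rcases ih with h | h
    · left; simp [h]
    · right; simp [h]
  | swap x y l =>
    right
    have h := ExteriorAlgebra.ι_add_mul_swap (R := R) y x
    have h1 : ExteriorAlgebra.ι R y * ExteriorAlgebra.ι R x =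
        - (ExteriorAlgebra.ι R x * ExteriorAlgebra.ι R y) := eq_neg_of_add_eq_zero_left h
    simp only [wedge_cons, ← mul_assoc, h1, neg_mul]
  | trans _ _ h1 h2 =>
    rcases h1 with h1 | h1 <;> rcases h2 with h2 | h2 <;> simp [h1, h2]

theorem map_wedge {N : Type} [AddCommGroup N] [Module R N] (f : M →ₗ[R] N) (l : List M) :
    ExteriorAlgebra.map f (wedge l) = wedge (l.map f) := by
  induction l with
  | nil => simp
  | cons v l ih => simp [ih]

theorem wedge_mem (l : List M) : wedge (R := R) l ∈ ⋀[R]^l.length M := by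
  have h : wedge (R := R) l = ExteriorAlgebra.ιMulti R l.length l.get := by
    rw [ExteriorAlgebra.ιMulti_apply, wedge]
    congr 1
    apply List.ext_get <;> simp
  rw [h]
  exact ExteriorAlgebra.ιMulti_range R l.length ⟨_, rfl⟩

end Perm

section

variable {p : ℕ} [Fact p.Prime] {Ω : Type} [Field Ω] [CharZero Ω]

/-- The product of the vectors in `s` belongs to the system (it is defined up to the sign). -/
def Mem (S : CycleSystem p Ω) (A : AbVar p Ω) (s : Multiset A.H) : Prop :=
  ∀ l : List A.H, (l : Multiset A.H) = s → wedge l ∈ S.C A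

theorem Mem.of_list {S : CycleSystem p Ω} {A : AbVar p Ω} {l : List A.H} (h : wedge l ∈ S.C A) :
    Mem S A (l : Multiset A.H) := by
  intro l' hl'
  rcases wedge_perm (R := Ω) (Multiset.coe_eq_coe.1 hl') with h1 | h1
  · rw [h1]; exact h
  · rw [h1]; exact (S.C A).neg_mem h

theorem Mem.zero (S : CycleSystem p Ω) (A : AbVar p Ω) : Mem S A 0 :=
  Mem.of_list (l := []) (by simpa using S.one_mem A)

theorem Mem.add {S : CycleSystem p Ω} {A : AbVar p Ω} {s t : Multiset A.H} (hs : Mem S A s)
    (ht : Mem S A t) : Mem S A (s + t) := by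
  induction s using Quotient.inductionOn with
  | _ l =>
  induction t using Quotient.inductionOn with
  | _ l' =>
  change Mem S A ((l : Multiset A.H) + (l' : Multiset A.H))
  rw [Multiset.coe_add]
  refine Mem.of_list ?_
  rw [wedge_append]
  exact S.mul_mem A _ (hs l rfl) _ (ht l' rfl)

theorem Mem.sum {S : CycleSystem p Ω} {A : AbVar p Ω} {ι : Type} (T : Finset ι)
    (s : ι → Multiset A.H) (hs : ∀ i ∈ T, Mem S A (s i)) : Mem S A (∑ i ∈ T, s i) := by
  classical
  induction T using Finset.induction_on with
  | empty => simpa using Mem.zero S A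
  | insert i T hi ih =>
    rw [Finset.sum_insert hi]
    exact (hs i (Finset.mem_insert_self i T)).add
      (ih fun j hj => hs j (Finset.mem_insert_of_mem hj))

theorem Mem.map {S : CycleSystem p Ω} {A B : AbVar p Ω} {h : B.H →ₗ[Ω] A.H} (hh : IsHom A B h)
    {s : Multiset B.H} (hs : Mem S B s) : Mem S A (s.map h) := by
  induction s using Quotient.inductionOn with
  | _ l =>
  change Mem S A ((l : Multiset B.H).map h)
  rw [Multiset.map_coe]
  refine Mem.of_list ?_
  rw [← map_wedge]
  exact S.pull A B h hh _ (hs l rfl)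

/-- For all abelian varieties over the field with `p ^ M` elements with Frobenius eigenvalues in `L`
the products of eigenvectors of Frobenius for the eigenvalues in `μ` belong to the system. -/
def Rel (S : CycleSystem p Ω) (L : IntermediateField ℚ Ω) (M : ℕ) (μ : Multiset Ω) : Prop :=
  ∀ A : AbVar p Ω, A.m = M → FrobeniusIn L A → ∀ s : Multiset (Ω × A.H),
    (∀ x ∈ s, A.F x.2 = x.1 • x.2) → s.map Prod.fst = μ → Mem S A (s.map Prod.snd)

theorem exists_split {α β : Type} (f : α → β) (μ : Multiset β) :
    ∀ (s : Multiset α) (ν : Multiset β), s.map f = μ + ν →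
      ∃ s₁ s₂ : Multiset α, s = s₁ + s₂ ∧ s₁.map f = μ ∧ s₂.map f = ν := by
  classical
  induction μ using Multiset.induction_on with
  | empty => intro s ν h; exact ⟨0, s, by simp, by simp, by simpa using h⟩
  | cons b μ ih =>
    intro s ν h
    rw [Multiset.cons_add] at h
    obtain ⟨a, ha, hab, h'⟩ := (Multiset.map_eq_cons f s (μ + ν) b).2 h
    obtain ⟨s₁, s₂, h1, h2, h3⟩ := ih _ ν h'
    refine ⟨a ::ₘ s₁, s₂, ?_, ?_, h3⟩
    · rw [Multiset.cons_add, ← h1, Multiset.cons_erase ha]
    · simp [hab, h2]

variable {S : CycleSystem p Ω} {L : IntermediateField ℚ Ω} {M : ℕ}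

theorem Rel.zero : Rel S L M 0 := by
  intro A _ _ s _ h
  rw [Multiset.map_eq_zero] at h
  subst h
  simpa using Mem.zero S A

theorem Rel.add {μ ν : Multiset Ω} (hμ : Rel S L M μ) (hν : Rel S L M ν) : Rel S L M (μ + ν) := by
  intro A hA hL s hs h
  obtain ⟨s₁, s₂, rfl, h1, h2⟩ := exists_split _ μ s ν h
  rw [Multiset.map_add]
  exact (hμ A hA hL s₁ (fun x hx => hs x (Multiset.mem_add.2 (Or.inl hx))) h1).add
    (hν A hA hL s₂ (fun x hx => hs x (Multiset.mem_add.2 (Or.inr hx))) h2)

theorem Rel.nsmul {μ : Multiset Ω} (hμ : Rel S L M μ) (n : ℕ) : Rel S L M (n • μ) := by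
  induction n with
  | zero => simpa using Rel.zero
  | succ n ih => rw [succ_nsmul]; exact ih.add hμ

end

end Pool.Agent.V8H94.CT
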