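import Pool.Agent.V8H94.CT.Defs

/-!
# Weil numbers and isotypic abelian varieties
-/

set_option autoImplicit false

namespace Pool.Agent.V8H94.CT

open Module Polynomial

variable {p : ℕ} [Fact p.Prime] {Ω : Type} [Field Ω] [CharZero Ω] [IsAlgClosed Ω]

/-- `a` is a Weil number for `p ^ M`. -/
def IsWeil (p M : ℕ) (a : Ω) : Prop :=
  IsIntegral ℤ a ∧ ∀ z : ℂ, aeval z (minpoly ℚ a) = 0 → ‖z‖ ^ 2 = (p : ℝ) ^ M

section Lift

omit [IsAlgClosed Ω]


theorem forall_conj (φ : ℂ → Prop) (x : algebraicClosure ℚ Ω) :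
    (∀ z : ℂ, aeval z (minpoly ℚ (x : Ω)) = 0 → φ z) ↔
      ∀ σ : algebraicClosure ℚ Ω →+* ℂ, φ (σ x) := by
  have hm : minpoly ℚ (x : Ω) = minpoly ℚ x :=
    minpoly.algebraMap_eq (algebraMap (algebraicClosure ℚ Ω) Ω).injective x
  have : Algebra.IsAlgebraic ℚ (algebraicClosure ℚ Ω) := algebraicClosure.isAlgebraic ℚ Ω
  rw [hm]
  constructor
  · intro h σ
    apply h
    have h1 := Polynomial.aeval_algHom_apply (RingHom.toRatAlgHom σ) x (minpoly ℚ x)
    rw [minpoly.aeval, map_zero] at h1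
    exact h1
  · intro h z hz
    have h2 : z ∈ (minpoly ℚ x).rootSet ℂ := by
      rw [mem_rootSet]
      exact ⟨minpoly.ne_zero (Algebra.IsIntegral.isIntegral x), hz⟩
    rw [← Algebra.IsAlgebraic.range_eval_eq_rootSet_minpoly (F := ℚ)
      (K := algebraicClosure ℚ Ω) ℂ x] at h2
    obtain ⟨ψ, hψ⟩ := h2
    rw [← hψ]
    exact h ψ.toRingHom

theorem exists_lift {a : Ω} (ha : IsAlgebraic ℚ a) :
    ∃ x : algebraicClosure ℚ Ω, (x : Ω) = a :=
  ⟨⟨a, mem_algebraicClosure_iff.2 ha⟩, rfl⟩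

theorem isAlgebraic_of_isIntegral {a : Ω} (ha : IsIntegral ℤ a) : IsAlgebraic ℚ a :=
  (ha.tower_top (A := ℚ)).isAlgebraic

variable (Ω) in
theorem exists_emb : Nonempty (algebraicClosure ℚ Ω →+* ℂ) := by
  have : Algebra.IsAlgebraic ℚ (algebraicClosure ℚ Ω) := algebraicClosure.isAlgebraic ℚ Ω
  exact ⟨(IsAlgClosed.lift (R := ℚ) (S := algebraicClosure ℚ Ω) (M := ℂ)).toRingHom⟩

end Lift

theorem exists_isotypic_of_root {m : ℕ} {f : ℚ[X]} (hf : IsFrobPoly p m f) {a : Ω}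
    (ha : aeval a f = 0) : ∃ (P : ℚ[X]) (e : ℕ), IsIsotypic p m P e ∧ aeval a P = 0 := by
  induction hf with
  | one => simp at ha
  | mul _ h ih =>
    rw [map_mul, map_pow] at ha
    rcases mul_eq_zero.1 ha with h1 | h1
    · exact ih h1
    · exact ⟨_, _, h, by by_contra hne; exact pow_ne_zero _ hne h1⟩

theorem IsIsotypic.isWeil {m : ℕ} {P : ℚ[X]} {e : ℕ} (h : IsIsotypic p m P e) {a : Ω}
    (ha : aeval a P = 0) : IsWeil p m a := by
  obtain ⟨P₀, hP₀⟩ := h.integral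
  have hmin : minpoly ℚ a = P := (minpoly.eq_of_irreducible_of_monic h.irreducible ha h.monic).symm
  refine ⟨⟨P₀, ?_, ?_⟩, fun z hz => h.weil z (hmin ▸ hz)⟩
  · apply Polynomial.monic_of_injective (f := Int.castRingHom ℚ) Int.cast_injective
    rw [hP₀]; exact h.monic
  · rw [← hP₀] at ha
    rw [aeval_def, eval₂_map,
      RingHom.ext_int ((algebraMap ℚ Ω).comp (Int.castRingHom ℚ)) (algebraMap ℤ Ω)] at ha
    exact ha

-- W2: eigenvalues are Weil numbers
theorem isWeil_of_eigen (A : AbVar p Ω) {a : Ω} {v : A.H} (hv : v ≠ 0) (h : A.F v = a • v) :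
    IsWeil p A.m a := by
  obtain ⟨f, hf, hc⟩ := A.frob
  have h1 : Module.End.HasEigenvalue A.F a :=
    Module.End.hasEigenvalue_of_hasEigenvector ⟨Module.End.mem_eigenspace_iff.2 h, hv⟩
  rw [Module.End.hasEigenvalue_iff_isRoot_charpoly] at h1
  have h2 : aeval a f = 0 := by
    rw [aeval_def, ← eval_map, ← hc]
    exact h1
  obtain ⟨P, e, hP, ha⟩ := exists_isotypic_of_root hf h2
  exact hP.isWeil ha

/-- all archimedean absolute values of `a` are `r` -/
def HasAbs (r : ℝ) (a : Ω) : Prop :=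
  IsAlgebraic ℚ a ∧ ∀ z : ℂ, aeval z (minpoly ℚ a) = 0 → ‖z‖ = r

theorem hasAbs_coe {r : ℝ} (x : algebraicClosure ℚ Ω) :
    HasAbs r (x : Ω) ↔ ∀ σ : algebraicClosure ℚ Ω →+* ℂ, ‖σ x‖ = r := by
  rw [HasAbs, forall_conj (fun z => ‖z‖ = r)]
  exact and_iff_right (mem_algebraicClosure_iff.1 x.2)

theorem HasAbs.mul {r s : ℝ} {a b : Ω} (ha : HasAbs r a) (hb : HasAbs s b) :
    HasAbs (r * s) (a * b) := by
  obtain ⟨x, rfl⟩ := exists_lift ha.1
  obtain ⟨y, rfl⟩ := exists_lift hb.1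
  have := hasAbs_coe (r := r * s) (x * y)
  push_cast at this
  rw [this]
  intro σ
  rw [map_mul, norm_mul, (hasAbs_coe x).1 ha σ, (hasAbs_coe y).1 hb σ]

theorem HasAbs.inv {r : ℝ} {a : Ω} (ha : HasAbs r a) : HasAbs r⁻¹ a⁻¹ := by
  obtain ⟨x, rfl⟩ := exists_lift ha.1
  have := hasAbs_coe (r := r⁻¹) (x⁻¹)
  push_cast at this
  rw [this]
  intro σ
  rw [map_inv₀, norm_inv, (hasAbs_coe x).1 ha σ]

theorem HasAbs.natCast (n : ℕ) : HasAbs (n : ℝ) (n : Ω) := by
  have := hasAbs_coe (Ω := Ω) (r := (n : ℝ)) (n : algebraicClosure ℚ Ω)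
  push_cast at this
  rw [this]
  intro σ
  rw [map_natCast, Complex.norm_natCast]

theorem HasAbs.root {r : ℝ} (hr : 0 ≤ r) {a : Ω} {N : ℕ} (hN : 0 < N) (ha : HasAbs (r ^ N) (a ^ N)) :
    HasAbs r a := by
  obtain ⟨x, rfl⟩ := exists_lift (IsAlgebraic.of_pow hN ha.1)
  have h1 := hasAbs_coe (r := r ^ N) (x ^ N)
  push_cast at h1
  rw [hasAbs_coe]
  intro σ
  have h2 := h1.1 ha σ
  rw [map_pow, norm_pow] at h2
  exact (pow_left_inj₀ (norm_nonneg _) hr hN.ne').1 h2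

-- W3 powers
theorem IsWeil.pow {M : ℕ} {a : Ω} (ha : IsWeil p M a) {s : ℕ} (hs : 0 < s) :
    IsWeil p (M * s) (a ^ s) := by
  refine ⟨ha.1.pow s, ?_⟩
  obtain ⟨x, rfl⟩ := exists_lift (isAlgebraic_of_isIntegral ha.1)
  have h1 := (forall_conj (fun z => ‖z‖ ^ 2 = (p : ℝ) ^ M) x).1 ha.2
  have h2 := (forall_conj (fun z => ‖z‖ ^ 2 = (p : ℝ) ^ (M * s)) (x ^ s))
  push_cast at h2
  rw [h2]
  intro σ
  rw [map_pow, norm_pow, ← pow_mul, mul_comm s 2, pow_mul, h1 σ, ← pow_mul]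

-- W5: the conjugate number
theorem IsWeil.conj_root {M : ℕ} {a : Ω} (ha : IsWeil p M a) :
    aeval ((p : Ω) ^ M / a) (minpoly ℚ a) = 0 := by
  obtain ⟨x, rfl⟩ := exists_lift (isAlgebraic_of_isIntegral ha.1)
  have h1 := (forall_conj (fun z => ‖z‖ ^ 2 = (p : ℝ) ^ M) x).1 ha.2
  obtain ⟨σ⟩ := exists_emb Ω
  have hm : minpoly ℚ (x : Ω) = minpoly ℚ x :=
    minpoly.algebraMap_eq (algebraMap (algebraicClosure ℚ Ω) Ω).injective x
  rw [hm]
  have hp : (0 : ℝ) < (p : ℝ) ^ M := by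
    have := (Fact.out : p.Prime).pos
    positivity
  have hx0 : σ x ≠ 0 := by
    intro h
    have := h1 σ
    rw [h, norm_zero] at this
    rw [← this] at hp
    simp at hp
  have h2 : σ ((p : algebraicClosure ℚ Ω) ^ M / x) = (starRingEnd ℂ) (σ x) := by
    have h3 : σ x * (starRingEnd ℂ) (σ x) = (p : ℂ) ^ M := by
      rw [Complex.mul_conj, Complex.normSq_eq_norm_sq, h1 σ]; push_cast; rfl
    rw [map_div₀, map_pow, map_natCast, ← h3, mul_div_cancel_left₀ _ hx0]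
  have h4 : aeval (σ x) (minpoly ℚ x) = 0 := by
    have h1 := Polynomial.aeval_algHom_apply (RingHom.toRatAlgHom σ) x (minpoly ℚ x)
    rw [minpoly.aeval, map_zero] at h1
    exact h1
  have h5 : aeval ((starRingEnd ℂ) (σ x)) (minpoly ℚ x) = 0 := by
    have h1 := Polynomial.aeval_algHom_apply (RingHom.toRatAlgHom (starRingEnd ℂ)) (σ x)
      (minpoly ℚ x)
    rw [h4, map_zero] at h1
    exact h1
  have h6 : aeval ((p : algebraicClosure ℚ Ω) ^ M / x) (minpoly ℚ x) = 0 := by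
    apply σ.injective
    have h1 := Polynomial.aeval_algHom_apply (RingHom.toRatAlgHom σ)
      ((p : algebraicClosure ℚ Ω) ^ M / x) (minpoly ℚ x)
    rw [map_zero]
    refine Eq.trans h1.symm ?_
    rw [← h5, ← h2]
    rfl
  have h7 := Polynomial.aeval_algebraMap_apply Ω ((p : algebraicClosure ℚ Ω) ^ M / x) (minpoly ℚ x)
  rw [h6, map_zero] at h7
  rw [← h7]
  congr 2


section Obj

omit [IsAlgClosed Ω] in
/-- A diagonal endomorphism. -/
theorem span_eigen_diag {ι : Type} [Fintype ι] [DecidableEq ι] (d : ι → Ω) :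
    Submodule.span Ω {v : ι → Ω | ∃ a : Ω, Matrix.toLin' (Matrix.diagonal d) v = a • v} = ⊤ := by
  rw [eq_top_iff, ← (Pi.basisFun Ω ι).span_eq]
  refine Submodule.span_mono ?_
  rintro _ ⟨i, rfl⟩
  refine ⟨d i, ?_⟩
  rw [Pi.basisFun_apply, Matrix.toLin'_apply, Matrix.diagonal_mulVec_single, mul_one]
  ext j
  simp [Pi.single_apply]

omit [IsAlgClosed Ω] in
theorem diag_apply {ι : Type} [Fintype ι] [DecidableEq ι] (d : ι → Ω) (i : ι) :
    Matrix.toLin' (Matrix.diagonal d) (Pi.basisFun Ω ι i) = d i • Pi.basisFun Ω ι i := by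
  rw [Pi.basisFun_apply, Matrix.toLin'_apply, Matrix.diagonal_mulVec_single, mul_one]
  ext j
  simp [Pi.single_apply]

/-- The object with a diagonal Frobenius endomorphism. -/
def diagObj {m : ℕ} (hm : 0 < m) {ι : Type} [Fintype ι] [DecidableEq ι] (d : ι → Ω) (f : ℚ[X])
    (hf : IsFrobPoly p m f) (h : ∏ i, (X - C (d i)) = f.map (algebraMap ℚ Ω)) : AbVar p Ω where
  m := m
  m_pos := hm
  H := ι → Ω
  F := Matrix.toLin' (Matrix.diagonal d)
  span_eigen := span_eigen_diag d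
  frob := ⟨f, hf, by rw [Matrix.charpoly_toLin', Matrix.charpoly_diagonal, h]⟩

omit [IsAlgClosed Ω] in
theorem isFrobPoly_pow {m : ℕ} {P : ℚ[X]} {e : ℕ} (h : IsIsotypic p m P e) :
    IsFrobPoly p m (P ^ e) := by
  have := IsFrobPoly.mul (IsFrobPoly.one (p := p) (m := m)) h
  rwa [one_mul] at this

theorem IsWeil.isIsotypic {M : ℕ} {a : Ω} (ha : IsWeil p M a) :
    IsIsotypic p M (minpoly ℚ a) (2 * M) where
  monic := minpoly.monic (ha.1.tower_top (A := ℚ))
  irreducible := minpoly.irreducible (ha.1.tower_top (A := ℚ))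
  integral := ⟨minpoly ℤ a, (minpoly.isIntegrallyClosed_eq_field_fractions' ℚ ha.1).symm⟩
  weil := ha.2
  real := fun _ => even_two_mul M
  padic := fun g _ _ _ => ⟨2 * (g.coeff 0).valuation, by push_cast; ring⟩

omit [IsAlgClosed Ω] in
theorem prod_pow_fin {R : Type} [Fintype R] (M : ℕ) {n : ℕ} (e : Fin n ≃ R × Fin M)
    (u : R → Polynomial Ω) : ∏ i, u (e i).1 = (∏ r, u r) ^ M := by
  rw [Fintype.prod_equiv e (fun i => u (e i).1) (fun x => u x.1) (fun _ => rfl),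
    Fintype.prod_prod_type, ← Finset.prod_pow]
  refine Finset.prod_congr rfl fun r _ => ?_
  simp

theorem prod_rootSet {P : ℚ[X]} (hP : P.Monic) (hs : P.Separable) :
    ∏ r : P.rootSet Ω, (X - C (r : Ω)) = P.map (algebraMap ℚ Ω) := by
  classical
  have h1 : P.map (algebraMap ℚ Ω) =
      ((P.map (algebraMap ℚ Ω)).roots.map (fun r => X - C r)).prod :=
    ((IsAlgClosed.splits (P.map (algebraMap ℚ Ω))).eq_prod_roots_of_monic
      (hP.map (algebraMap ℚ Ω)))
  have h2 : (P.map (algebraMap ℚ Ω)).roots.Nodup := nodup_roots hs.map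
  have h3 : ∏ r : P.rootSet Ω, (X - C (r : Ω)) =
      ∏ r ∈ (P.map (algebraMap ℚ Ω)).roots.toFinset, (X - C r) := by
    rw [← Finset.prod_coe_sort (P.map (algebraMap ℚ Ω)).roots.toFinset (fun r => X - C r)]
    rfl
  rw [h3, Finset.prod, Multiset.toFinset_val, h2.dedup, ← h1]

-- O1: isotypic abelian variety with multiplicity 2 * M (basis in pairs with eigenvalues c i, q / c i)
theorem exists_isotypic {M : ℕ} (hM : 0 < M) {a : Ω} (ha : IsWeil p M a) :
    ∃ (D : AbVar p Ω) (n : ℕ) (b : Basis (Fin n ⊕ Fin n) Ω D.H) (c : Fin n → Ω), D.m = M ∧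
      (∀ i, D.F (b (Sum.inl i)) = c i • b (Sum.inl i)) ∧
      (∀ i, D.F (b (Sum.inr i)) = ((p : Ω) ^ M / c i) • b (Sum.inr i)) ∧
      (∀ i, aeval (c i) (minpoly ℚ a) = 0) ∧ ∃ i, c i = a := by
  classical
  have hI := ha.isIsotypic
  have hq : ((p : Ω) ^ M) ≠ 0 := pow_ne_zero _ (by exact_mod_cast (Fact.out : p.Prime).ne_zero)
  have hroot : ∀ r : Ω, r ∈ (minpoly ℚ a).rootSet Ω ↔ aeval r (minpoly ℚ a) = 0 := fun r => by
    rw [mem_rootSet]; exact and_iff_right hI.monic.ne_zero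
  have hr0 : ∀ r ∈ (minpoly ℚ a).rootSet Ω, r ≠ 0 := by
    rintro r hr rfl
    have h1 := (hI.isWeil ((hroot 0).1 hr)).2 0
    rw [minpoly.zero] at h1
    have := h1 (by simp)
    rw [norm_zero] at this
    have hp : (0 : ℝ) < (p : ℝ) ^ M := by
      have := (Fact.out : p.Prime).pos
      positivity
    rw [← this] at hp
    simp at hp
  have hconj : ∀ r ∈ (minpoly ℚ a).rootSet Ω, (p : Ω) ^ M / r ∈ (minpoly ℚ a).rootSet Ω := by
    intro r hr
    have h2 : minpoly ℚ r = minpoly ℚ a :=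
      (minpoly.eq_of_irreducible_of_monic hI.irreducible ((hroot r).1 hr) hI.monic).symm
    rw [hroot, ← h2]
    exact (hI.isWeil ((hroot r).1 hr)).conj_root
  let R := (minpoly ℚ a).rootSet Ω
  let ν : R ≃ R :=
    { toFun := fun r => ⟨(p : Ω) ^ M / r, hconj r r.2⟩
      invFun := fun r => ⟨(p : Ω) ^ M / r, hconj r r.2⟩
      left_inv := fun r => Subtype.ext (by
        have := hr0 r r.2
        simp only
        field_simp)
      right_inv := fun r => Subtype.ext (by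
        have := hr0 r r.2
        simp only
        field_simp) }
  let e : Fin (Fintype.card (R × Fin M)) ≃ R × Fin M := (Fintype.equivFin (R × Fin M)).symm
  let c : Fin (Fintype.card (R × Fin M)) → Ω := fun i => ((e i).1 : Ω)
  let d : Fin (Fintype.card (R × Fin M)) ⊕ Fin (Fintype.card (R × Fin M)) → Ω :=
    Sum.elim c (fun i => (p : Ω) ^ M / c i)
  have hsep : (minpoly ℚ a).Separable := hI.irreducible.separable
  have hprod : ∏ i, (X - C (d i)) = ((minpoly ℚ a) ^ (2 * M)).map (algebraMap ℚ Ω) := by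
    rw [Fintype.prod_sum_type]
    have h1 : ∏ i, (X - C (d (Sum.inl i))) = ((minpoly ℚ a).map (algebraMap ℚ Ω)) ^ M := by
      rw [← prod_rootSet hI.monic hsep]
      exact prod_pow_fin M e (fun r : R => X - C (r : Ω))
    have h2 : ∏ i, (X - C (d (Sum.inr i))) = ((minpoly ℚ a).map (algebraMap ℚ Ω)) ^ M := by
      rw [← prod_rootSet hI.monic hsep]
      refine (prod_pow_fin M e (fun r : R => X - C ((ν r : R) : Ω))).trans ?_
      congr 1
      exact Fintype.prod_equiv ν _ _ (fun _ => rfl)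
    rw [h1, h2, ← pow_add, Polynomial.map_pow, two_mul]
  refine ⟨diagObj hM d _ (isFrobPoly_pow hI) hprod, _, Pi.basisFun Ω _, c, rfl, fun i => ?_,
    fun i => ?_, fun i => (hroot _).1 (e i).1.2, ?_⟩
  · exact diag_apply d (Sum.inl i)
  · exact diag_apply d (Sum.inr i)
  · refine ⟨e.symm (⟨a, (hroot a).2 (minpoly.aeval ℚ a)⟩, ⟨0, hM⟩), ?_⟩
    simp [c]

-- W6: then all Frobenius eigenvalues of `D` have powers in `L` if `a` has
theorem pow_mem_of_root {L : IntermediateField ℚ Ω} [Normal ℚ L] {a b : Ω} (ha : IsAlgebraic ℚ a)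
    {s : ℕ} (h : a ^ s ∈ L) (hb : aeval b (minpoly ℚ a) = 0) : b ^ s ∈ L := by
  have h1 : minpoly ℚ a ∣ (minpoly ℚ (a ^ s)).comp (X ^ s) := by
    apply minpoly.dvd
    rw [aeval_comp, map_pow, aeval_X, minpoly.aeval]
  have h2 : aeval (b ^ s) (minpoly ℚ (a ^ s)) = 0 := by
    obtain ⟨Q, hQ⟩ := h1
    have := congrArg (aeval b) hQ
    rw [aeval_comp, map_pow, aeval_X, map_mul, hb, zero_mul] at this
    exact this
  have h3 : minpoly ℚ (a ^ s) = minpoly ℚ (⟨a ^ s, h⟩ : L) :=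
    minpoly.algebraMap_eq (algebraMap L Ω).injective (⟨a ^ s, h⟩ : L)
  have h4 := (Normal.splits (inferInstance : Normal ℚ L) (⟨a ^ s, h⟩ : L))
  rw [h3] at h2
  have h5 : (minpoly ℚ (⟨a ^ s, h⟩ : L)) ≠ 0 := minpoly.ne_zero (Normal.isIntegral inferInstance _)
  have h6 : b ^ s ∈ (minpoly ℚ (⟨a ^ s, h⟩ : L)).rootSet Ω := by
    rw [mem_rootSet]; exact ⟨h5, h2⟩
  exact (IntermediateField.splits_iff_mem (F := L) (IsAlgClosed.splits _)).1 h4 _ h6

omit [IsAlgClosed Ω] in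
theorem isIsotypic_curve {k : ℕ} : IsIsotypic p (2 * k) (X - C ((p : ℚ) ^ k)) 2 where
  monic := monic_X_sub_C _
  irreducible := irreducible_X_sub_C _
  integral := ⟨X - C ((p : ℤ) ^ k), by simp⟩
  weil := fun z hz => by
    rw [map_sub, aeval_X, aeval_C, sub_eq_zero] at hz
    rw [hz, map_pow, map_natCast, norm_pow, Complex.norm_natCast, ← pow_mul, mul_comm k 2]
  real := fun _ => even_two
  padic := fun g hg hi hd => by
    rw [Polynomial.map_sub, map_X, map_C] at hd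
    have h1 := (irreducible_X_sub_C (algebraMap ℚ ℚ_[p] ((p : ℚ) ^ k)))
    have h2 : Associated g (X - C (algebraMap ℚ ℚ_[p] ((p : ℚ) ^ k))) :=
      hi.associated_of_dvd h1 hd
    have h3 := eq_of_monic_of_associated hg (monic_X_sub_C _) h2
    have hv : (g.coeff 0).valuation = k := by
      have hp0 : (p : ℚ_[p]) ≠ 0 := by exact_mod_cast (Fact.out : p.Prime).ne_zero
      have h6 : (X - C (algebraMap ℚ ℚ_[p] ((p : ℚ) ^ k))).coeff 0 = ((-1 : ℤ) : ℚ_[p]) * (p : ℚ_[p]) ^ k := by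
        rw [coeff_sub, coeff_X_zero, coeff_C_zero, map_pow, map_natCast]
        push_cast
        ring
      have h5 : ((-1 : ℤ) : ℚ_[p]).valuation = 0 := by
        rw [Padic.valuation_intCast]; simp [padicValInt]
      rw [h3, h6, Padic.valuation_mul (by norm_num) (pow_ne_zero _ hp0), Padic.valuation_pow,
        Padic.valuation_p, h5]
      ring
    rw [hv]
    push_cast
    exact dvd_refl _

-- E: the supersingular curve over the field with p ^ (2 * k) elements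
theorem exists_curve {k : ℕ} (hk : 0 < k) : ∃ (E : AbVar p Ω) (b : Basis (Fin 2) Ω E.H),
    E.m = 2 * k ∧ IsSupersingularCurve E ∧ ∀ v : E.H, E.F v = ((p : Ω) ^ k) • v := by
  have hprod : ∏ _i : Fin 2, (X - C ((p : Ω) ^ k)) =
      ((X - C ((p : ℚ) ^ k)) ^ 2 : ℚ[X]).map (algebraMap ℚ Ω) := by
    simp
  have hF : ∀ v : Fin 2 → Ω,
      Matrix.toLin' (Matrix.diagonal fun _ : Fin 2 => (p : Ω) ^ k) v = ((p : Ω) ^ k) • v := by
    intro v
    ext i
    simp [Matrix.mulVec_diagonal]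
  refine ⟨diagObj (by omega : 0 < 2 * k) (fun _ : Fin 2 => (p : Ω) ^ k) _
    (isFrobPoly_pow (isIsotypic_curve (p := p) (k := k))) hprod, Pi.basisFun Ω _, rfl,
    ⟨?_, p ^ k, ?_, fun v => ?_⟩, hF⟩
  · exact Module.finrank_fin_fun Ω
  · change (p ^ k) ^ 2 = p ^ (2 * k)
    rw [← pow_mul, mul_comm]
  · rw [Nat.cast_pow]
    exact hF v

end Obj

end Pool.Agent.V8H94.CT
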