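import Pool.Agent.V8H94.CT.Rel
import Pool.Agent.V8H94.CT.Weil

/-!
# Pairs, four-term relations and cancellation
-/

set_option autoImplicit false

namespace Pool.Agent.V8H94.CT

open Module

variable {p : ℕ} [Fact p.Prime] {Ω : Type} [Field Ω] [CharZero Ω]

/-- The system contains the Tate classes of codimension one. -/
def HasDivisors (S : CycleSystem p Ω) (L : IntermediateField ℚ Ω) : Prop :=
  ∀ A : AbVar p Ω, FrobeniusIn L A → ∀ x, IsTate A 1 x → x ∈ S.C A

/-- The system contains the products of the supersingular classes of degree three with the classes of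
degree one on supersingular elliptic curves. -/
def HasDegreeThree (S : CycleSystem p Ω) (L : IntermediateField ℚ Ω) : Prop :=
  ∀ (A E : AbVar p Ω) (hm : A.m = E.m), FrobeniusIn L A → IsSupersingularCurve E →
    ∀ x, IsSupersingularClass A 3 x → ∀ e : E.H,
      ExteriorAlgebra.map (LinearMap.inl Ω A.H E.H) x *
        ExteriorAlgebra.ι Ω (LinearMap.inr Ω A.H E.H e) ∈ S.C (A.prod E hm)

variable {S : CycleSystem p Ω} {L : IntermediateField ℚ Ω} {M : ℕ}

theorem pow_apply_eigen {H : Type} [AddCommGroup H] [Module Ω H] {F : H →ₗ[Ω] H} {a : Ω} {v : H}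
    (h : F v = a • v) (n : ℕ) : (F ^ n) v = a ^ n • v := by
  induction n with
  | zero => simp
  | succ n ih =>
    rw [pow_succ, Module.End.mul_apply, h, map_smul, ih, smul_smul, pow_succ, mul_comm]

theorem mem_pair (hS : HasDivisors S L) {A : AbVar p Ω} (hA : FrobeniusIn L A) {a b : Ω}
    (hab : a * b = (p : Ω) ^ A.m) {u v : A.H} (hu : A.F u = a • u) (hv : A.F v = b • v) :
    Mem S A {u, v} := by
  have h1 : wedge [u, v] ∈ S.C A := by
    refine hS A hA _ ⟨?_, 1, one_pos, ?_⟩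
    · exact wedge_mem [u, v]
    · rw [pow_one, map_wedge]
      simp only [List.map_cons, List.map_nil, wedge_cons, wedge_nil, mul_one, hu, hv, map_smul]
      rw [smul_mul_smul_comm, hab]
  exact Mem.of_list h1

theorem Rel.pair (hS : HasDivisors S L) {a b : Ω} (hab : a * b = (p : Ω) ^ M) :
    Rel S L M {a, b} := by
  classical
  intro A hA hL s hs h
  obtain ⟨x, hx, hxa, h'⟩ := (Multiset.map_eq_cons Prod.fst s {b} a).2 h
  obtain ⟨y, hy, hyb, h''⟩ := (Multiset.map_eq_cons Prod.fst (s.erase x) 0 b).2 (by simpa using h')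
  rw [Multiset.map_eq_zero] at h''
  have h1 : s = {x, y} := by
    rw [← Multiset.cons_erase hx, ← Multiset.cons_erase hy, h'']
    rfl
  subst h1
  have hx2 := hs x (by simp)
  have hy2 := hs y (by simp)
  simp only [Multiset.insert_eq_cons, Multiset.map_cons, Multiset.map_singleton]
  rw [hxa] at hx2
  rw [hyb] at hy2
  exact mem_pair hS hL (by rw [hA, hab]) hx2 hy2

theorem Rel.cons_cons (hS : HasDivisors S L) {a b : Ω} (hab : a * b = (p : Ω) ^ M) {μ : Multiset Ω}
    (hμ : Rel S L M μ) : Rel S L M (a ::ₘ b ::ₘ μ) := by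
  have h := (Rel.pair (S := S) (L := L) hS hab).add hμ
  simpa using h


theorem exists_two {α β : Type} {f : α → β} {s : Multiset α} {a b : β} {μ : Multiset β}
    (h : s.map f = a ::ₘ b ::ₘ μ) :
    ∃ x y t, s = x ::ₘ y ::ₘ t ∧ f x = a ∧ f y = b ∧ t.map f = μ := by
  classical
  obtain ⟨x, hx, hxa, h'⟩ := (Multiset.map_eq_cons f s (b ::ₘ μ) a).2 h
  obtain ⟨y, hy, hyb, h''⟩ := (Multiset.map_eq_cons f (s.erase x) μ b).2 h'
  exact ⟨x, y, (s.erase x).erase y, by rw [Multiset.cons_erase hy, Multiset.cons_erase hx], hxa,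
    hyb, h''⟩

theorem isHom_of_comm {A B : AbVar p Ω} (hm : A.m = B.m) {h : B.H →ₗ[Ω] A.H}
    (hh : ∀ v, h (B.F v) = A.F (h v)) : IsHom A B h :=
  ⟨1, 1, one_pos, one_pos, by rw [hm], by ext v; simp [hh]⟩

theorem isHom_inl {A B : AbVar p Ω} (hm : A.m = B.m) :
    IsHom (A.prod B hm) A (LinearMap.inl Ω A.H B.H) :=
  isHom_of_comm (A := A.prod B hm) (B := A) rfl (fun v => by
    change ((A.F v, 0) : A.H × B.H) = (A.F v, B.F 0)
    rw [map_zero])

theorem isHom_inr {A B : AbVar p Ω} (hm : A.m = B.m) :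
    IsHom (A.prod B hm) B (LinearMap.inr Ω A.H B.H) :=
  isHom_of_comm (A := A.prod B hm) (B := B) hm (fun v => by
    change ((0, B.F v) : A.H × B.H) = (A.F 0, B.F v)
    rw [map_zero])

/-- The four-term relations: `x y w' c` with `x * y = w * c`, `w' = q / w`, `c` the square root of
`q`. -/
theorem Rel.four [IsAlgClosed Ω] (hS : HasDegreeThree S L) {k : ℕ} (hk : 0 < k) {x y w : Ω}
    (hw : w ≠ 0) (h : x * y = w * (p : Ω) ^ k) :
    Rel S L (2 * k) {x, y, (p : Ω) ^ (2 * k) / w, (p : Ω) ^ k} := by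
  intro A hA hL s hs hμ
  obtain ⟨⟨x', u₁⟩, ⟨y', u₂⟩, t, rfl, hx, hy, ht⟩ := exists_two hμ
  obtain ⟨⟨w', u₃⟩, ⟨c', u₄⟩, t', rfl, hw', hc, ht'⟩ := exists_two (μ := 0) ht
  rw [Multiset.map_eq_zero] at ht'
  subst ht'
  simp only at hx hy hw' hc
  subst hx hy hw' hc
  have h1 := hs (x', u₁) (by simp)
  have h2 := hs (y', u₂) (by simp)
  have h3 := hs ((p : Ω) ^ (2 * k) / w, u₃) (by simp)
  have h4 := hs ((p : Ω) ^ k, u₄) (by simp)
  simp only at h1 h2 h3 h4
  obtain ⟨E, b, hEm, hE, hEF⟩ := exists_curve (p := p) (Ω := Ω) hk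
  have hp : (p : Ω) ≠ 0 := Nat.cast_ne_zero.2 (Fact.out : p.Prime).ne_zero
  have hm : A.m = E.m := by rw [hA, hEm]
  have key : x' * (y' * ((p : Ω) ^ (2 * k) / w)) = (p : Ω) ^ (3 * k) := by
    rw [← mul_assoc, h]
    field_simp
    rw [← pow_add]
    congr 1
    ring
  have hsup : IsSupersingularClass A 3 (wedge [u₁, u₂, u₃]) := by
    refine ⟨wedge_mem [u₁, u₂, u₃], 1, one_pos, ?_⟩
    rw [map_wedge]
    simp only [List.map_cons, List.map_nil, wedge_cons, wedge_nil, mul_one,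
      pow_apply_eigen h1, pow_apply_eigen h2, pow_apply_eigen h3, map_smul]
    rw [smul_mul_smul_comm, smul_mul_smul_comm, ← mul_pow, ← mul_pow, key, hA, ← pow_mul]
    congr 2
    ring
  have h5 := hS A E hm hL hE _ hsup (b 0)
  let h : A.H × E.H →ₗ[Ω] A.H :=
    LinearMap.coprod LinearMap.id ((LinearMap.toSpanSingleton Ω A.H u₄).comp (b.coord 0))
  have hh : IsHom A (A.prod E hm) h := by
    refine isHom_of_comm (A := A) (B := A.prod E hm) (h := h) rfl ?_
    rintro ⟨v, e⟩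
    change A.F v + b.coord 0 (E.F e) • u₄ = A.F (v + b.coord 0 e • u₄)
    rw [hEF, map_smul, map_add, map_smul, h4, smul_smul, smul_eq_mul, mul_comm]
  have h6 : ExteriorAlgebra.map h (ExteriorAlgebra.map (LinearMap.inl Ω A.H E.H)
      (wedge [u₁, u₂, u₃]) * ExteriorAlgebra.ι Ω (LinearMap.inr Ω A.H E.H (b 0))) ∈ S.C A :=
    S.pull A (A.prod E hm) h hh _ h5
  have h7 : wedge [u₁, u₂, u₃, u₄] ∈ S.C A := by
    have e1 : h.comp (LinearMap.inl Ω A.H E.H) = LinearMap.id := by
      ext v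
      change v + b.coord 0 0 • u₄ = v
      simp
    have e2 : h (LinearMap.inr Ω A.H E.H (b 0)) = u₄ := by
      change (0 : A.H) + b.coord 0 (b 0) • u₄ = u₄
      simp
    rw [map_mul, ExteriorAlgebra.map_apply_ι] at h6
    have e3 : ExteriorAlgebra.map h (ExteriorAlgebra.map (LinearMap.inl Ω A.H E.H)
        (wedge [u₁, u₂, u₃])) = wedge [u₁, u₂, u₃] := by
      rw [← AlgHom.comp_apply, ExteriorAlgebra.map_comp_map, e1, ExteriorAlgebra.map_id]
      rfl
    have e4 : wedge (R := Ω) [u₁, u₂, u₃, u₄] =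
        wedge [u₁, u₂, u₃] * ExteriorAlgebra.ι Ω u₄ := by
      simp [mul_assoc]
    rw [e4, ← e3, ← e2]
    exact h6
  exact Mem.of_list h7

end Pool.Agent.V8H94.CT
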