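import Pool.Agent.V8H94.CT.Cancel

/-!
# Relations between Weil numbers in a finite set
-/

set_option autoImplicit false

namespace Pool.Agent.V8H94.CT

open Module Polynomial

variable {p : ℕ} [Fact p.Prime] {Ω : Type} [Field Ω] [CharZero Ω]

/-- For all abelian varieties over the field with `p ^ M` elements the products of eigenvectors of
Frobenius for the eigenvalues in `μ` belong to the system. -/
def RelA (S : CycleSystem p Ω) (M : ℕ) (μ : Multiset Ω) : Prop :=
  ∀ A : AbVar p Ω, A.m = M → ∀ s : Multiset (Ω × A.H),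
    (∀ x ∈ s, A.F x.2 = x.1 • x.2) → s.map Prod.fst = μ → Mem S A (s.map Prod.snd)

variable {S : CycleSystem p Ω} {M : ℕ}

theorem RelA.zero : RelA S M 0 := by
  intro A _ s _ h
  rw [Multiset.map_eq_zero] at h
  subst h
  simpa using Mem.zero S A

theorem RelA.add {μ ν : Multiset Ω} (hμ : RelA S M μ) (hν : RelA S M ν) : RelA S M (μ + ν) := by
  intro A hA s hs h
  obtain ⟨s₁, s₂, rfl, h1, h2⟩ := exists_split _ μ s ν h
  rw [Multiset.map_add]
  exact (hμ A hA s₁ (fun x hx => hs x (Multiset.mem_add.2 (Or.inl hx))) h1).add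
    (hν A hA s₂ (fun x hx => hs x (Multiset.mem_add.2 (Or.inr hx))) h2)

/-- A finite (or infinite) set `W` of Weil numbers for `p ^ (2 * k)`, stable under conjugation, such
that the relations with two elements and the relations `x * y * z * c` with `c = p ^ k` belong to the
system. -/
structure Base (S : CycleSystem p Ω) (k : ℕ) (W : Set Ω) : Prop where
  pos : 0 < k
  weil : ∀ w ∈ W, IsWeil p (2 * k) w
  root : ∀ w ∈ W, ∀ z : Ω, aeval z (minpoly ℚ w) = 0 → z ∈ W
  base : (p : Ω) ^ k ∈ W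
  pair : ∀ x ∈ W, ∀ y ∈ W, ∀ s : ℕ, 0 < s → (x * y) ^ s = ((p : Ω) ^ (2 * k)) ^ s →
    RelA S (2 * k) {x, y}
  four : ∀ x ∈ W, ∀ y ∈ W, ∀ z ∈ W, ∀ s : ℕ, 0 < s → (x * y * z) ^ s = (((p : Ω) ^ k) ^ 3) ^ s →
    RelA S (2 * k) {x, y, z, (p : Ω) ^ k}

variable {k : ℕ} {W : Set Ω}

theorem Base.ne_zero (B : Base S k W) {a : Ω} (ha : a ∈ W) : a ≠ 0 := (B.weil a ha).ne_zero

theorem Base.conj [IsAlgClosed Ω] (B : Base S k W) {a : Ω} (ha : a ∈ W) :
    (p : Ω) ^ (2 * k) / a ∈ W := B.root a ha _ (B.weil a ha).conj_root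

theorem Base.mem_pair (B : Base S k W) {A : AbVar p Ω} (hA : A.m = 2 * k) {a b : Ω} (ha : a ∈ W)
    (hb : b ∈ W) (hab : a * b = (p : Ω) ^ (2 * k)) {u v : A.H} (hu : A.F u = a • u)
    (hv : A.F v = b • v) : Mem S A {u, v} := by
  have h := B.pair a ha b hb 1 one_pos (by rw [pow_one, pow_one, hab]) A hA {(a, u), (b, v)} (by
    intro x hx
    simp only [Multiset.insert_eq_cons, Multiset.mem_cons, Multiset.mem_singleton] at hx
    rcases hx with rfl | rfl
    · exact hu
    · exact hv) (by simp)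
  simpa using h

theorem Base.cancel [IsAlgClosed Ω] (B : Base S k W) {a : Ω} (ha : a ∈ W) {μ : Multiset Ω}
    (h : RelA S (2 * k) (a ::ₘ ((p : Ω) ^ (2 * k) / a) ::ₘ μ)) : RelA S (2 * k) μ := by
  classical
  intro A hA T hT hTμ
  obtain ⟨D, n, b, c, hDm, h1, h2, h3, i₀, hi₀⟩ :=
    exists_isotypic (Nat.mul_pos two_pos B.pos) (B.weil a ha)
  have hm : A.m = D.m := by rw [hA, hDm]
  have hcW : ∀ i, c i ∈ W := fun i => B.root a ha _ (h3 i)
  let g : Fin n ⊕ Fin n → A.H × D.H := fun j => LinearMap.inr Ω A.H D.H (b j)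
  have hg1 : ∀ i, (A.prod D hm).F (g (Sum.inl i)) = c i • g (Sum.inl i) := by
    intro i
    change ((A.F 0, D.F (b (Sum.inl i))) : A.H × D.H) = c i • ((0, b (Sum.inl i)) : A.H × D.H)
    rw [h1, map_zero, Prod.smul_mk, smul_zero]
  have hg2 : ∀ i, (A.prod D hm).F (g (Sum.inr i)) = ((p : Ω) ^ (2 * k) / c i) • g (Sum.inr i) := by
    intro i
    change ((A.F 0, D.F (b (Sum.inr i))) : A.H × D.H) =
      ((p : Ω) ^ (2 * k) / c i) • ((0, b (Sum.inr i)) : A.H × D.H)
    rw [h2, map_zero, Prod.smul_mk, smul_zero]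
  let T' : Multiset (A.H × D.H) := (T.map Prod.snd).map (LinearMap.inl Ω A.H D.H)
  have hfirst : Mem S (A.prod D hm)
      (({g (Sum.inl i₀), g (Sum.inr i₀)} : Multiset (A.H × D.H)) + T') := by
    have h5 := h (A.prod D hm) hA ((a, g (Sum.inl i₀)) ::ₘ
      ((p : Ω) ^ (2 * k) / a, g (Sum.inr i₀)) ::ₘ
      T.map (fun x => (x.1, (LinearMap.inl Ω A.H D.H x.2 : A.H × D.H)))) ?_ ?_
    · have e : Multiset.map Prod.snd ((a, g (Sum.inl i₀)) ::ₘ
          ((p : Ω) ^ (2 * k) / a, g (Sum.inr i₀)) ::ₘ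
          T.map (fun x => (x.1, (LinearMap.inl Ω A.H D.H x.2 : A.H × D.H)))) =
          ({g (Sum.inl i₀), g (Sum.inr i₀)} : Multiset (A.H × D.H)) + T' := by
        simp only [Multiset.map_cons, T', Multiset.insert_eq_cons,
          Multiset.cons_add, Multiset.singleton_add]
        rw [Multiset.map_map, Multiset.map_map]
        rfl
      exact (congrArg (Mem S (A.prod D hm)) e).mp h5
    · intro x hx
      rcases Multiset.mem_cons.1 hx with rfl | hx
      · have := hg1 i₀
        rwa [hi₀] at this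
      · rcases Multiset.mem_cons.1 hx with rfl | hx
        · have := hg2 i₀
          rwa [hi₀] at this
        · obtain ⟨y, hy, rfl⟩ := Multiset.mem_map.1 hx
          have := hT y hy
          change ((A.F y.2, D.F 0) : A.H × D.H) = y.1 • ((y.2, 0) : A.H × D.H)
          rw [this, map_zero, Prod.smul_mk, smul_zero]
    · simp only [Multiset.map_cons, Multiset.map_map]
      rw [← hTμ]
      rfl
  have hothers : Mem S (A.prod D hm)
      (∑ i ∈ Finset.univ.erase i₀, ({g (Sum.inl i), g (Sum.inr i)} : Multiset (A.H × D.H))) := by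
    refine Mem.sum _ _ fun i _ => ?_
    refine B.mem_pair (A := A.prod D hm) hA (hcW i) (B.conj (hcW i)) ?_ (hg1 i) (hg2 i)
    rw [mul_div_cancel₀]
    exact B.ne_zero (hcW i)
  have htotal : Mem S (A.prod D hm)
      (T' + (Finset.univ : Finset (Fin n ⊕ Fin n)).val.map g) := by
    have e : T' + (Finset.univ : Finset (Fin n ⊕ Fin n)).val.map g =
        (∑ i ∈ Finset.univ.erase i₀, ({g (Sum.inl i), g (Sum.inr i)} : Multiset (A.H × D.H))) +
          (({g (Sum.inl i₀), g (Sum.inr i₀)} : Multiset (A.H × D.H)) + T') := by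
      rw [map_univ_sum, ← Finset.sum_erase_add _ _ (Finset.mem_univ i₀)]
      abel
    exact (congrArg (Mem S (A.prod D hm)) e).mpr (hothers.add hfirst)
  intro l hl
  let b' : Basis (Fin (n + n)) Ω D.H := b.reindex finSumFinEquiv
  refine S.push A D hm (n + n) b' (wedge l) ?_
  have e1 : ExteriorAlgebra.ιMulti Ω (n + n) b' = wedge (List.ofFn b') := by
    rw [ExteriorAlgebra.ιMulti_apply, wedge, List.map_ofFn]
    rfl
  have e2 : ExteriorAlgebra.map (LinearMap.inl Ω A.H D.H) (wedge l) *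
      ExteriorAlgebra.map (LinearMap.inr Ω A.H D.H) (ExteriorAlgebra.ιMulti Ω (n + n) b') =
      wedge (l.map (LinearMap.inl Ω A.H D.H) ++ (List.ofFn b').map (LinearMap.inr Ω A.H D.H)) := by
    rw [e1, map_wedge, map_wedge, wedge_append]
  rw [e2]
  refine htotal _ ?_
  change ((l.map (LinearMap.inl Ω A.H D.H) ++ (List.ofFn b').map (LinearMap.inr Ω A.H D.H) :
    List (A.H × D.H)) : Multiset (A.H × D.H)) =
      T' + (Finset.univ : Finset (Fin n ⊕ Fin n)).val.map g
  rw [← Multiset.coe_add]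
  congr 1
  · rw [← Multiset.map_coe, hl]
  · rw [← Multiset.map_coe, ← Fin.univ_val_map, Multiset.map_map]
    have e3 : (Finset.univ : Finset (Fin n ⊕ Fin n)).val =
        (Finset.univ : Finset (Fin (n + n))).val.map finSumFinEquiv.symm :=
      (Multiset.map_univ_val_equiv finSumFinEquiv.symm).symm
    rw [e3, Multiset.map_map]
    refine Multiset.map_congr rfl fun j _ => ?_
    simp [b', g]

/-- Two multisets are equivalent if they can be exchanged in all relations. -/
def relCon (S : CycleSystem p Ω) (M : ℕ) : AddCon (Multiset Ω) where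
  r μ ν := ∀ l, RelA S M (μ + l) ↔ RelA S M (ν + l)
  iseqv := ⟨fun _ _ => Iff.rfl, fun h l => (h l).symm, fun h h' l => (h l).trans (h' l)⟩
  add' := by
    intro μ μ' ν ν' h h' l
    rw [add_assoc, h, add_left_comm, h', add_left_comm, ← add_assoc]

theorem relCon_zero {μ : Multiset Ω} (h : relCon S M μ 0) : RelA S M μ := by
  have := (h 0).2 (by simpa using RelA.zero)
  simpa using this

variable [IsAlgClosed Ω]

theorem Base.pair_con (B : Base S k W) {x y : Ω} (hx : x ∈ W) (hy : y ∈ W)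
    (h : x * y = (p : Ω) ^ (2 * k)) : relCon S (2 * k) {x, y} 0 := by
  intro l
  rw [zero_add]
  constructor
  · intro h1
    refine B.cancel hx ?_
    have e : (p : Ω) ^ (2 * k) / x = y := by
      rw [← h, mul_div_cancel_left₀ _ (B.ne_zero hx)]
    rw [e]
    simpa using h1
  · intro h1
    exact (B.pair x hx y hy 1 one_pos (by rw [pow_one, pow_one, h])).add h1

/-- The class of a Weil number in the group of relations. -/
noncomputable def Base.cl (B : Base S k W) (x : W) : AddUnits (relCon S (2 * k)).Quotient where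
  val := (({x.1} : Multiset Ω) : (relCon S (2 * k)).Quotient)
  neg := (({(p : Ω) ^ (2 * k) / x.1} : Multiset Ω) : (relCon S (2 * k)).Quotient)
  val_neg := by
    rw [← AddCon.coe_add, ← AddCon.coe_zero, AddCon.eq]
    refine B.pair_con x.2 (B.conj x.2) ?_
    rw [mul_div_cancel₀]
    exact B.ne_zero x.2
  neg_val := by
    rw [← AddCon.coe_add, ← AddCon.coe_zero, AddCon.eq]
    refine B.pair_con (B.conj x.2) x.2 ?_
    rw [div_mul_cancel₀]
    exact B.ne_zero x.2

theorem Base.cl_val (B : Base S k W) (x : W) :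
    (B.cl x : (relCon S (2 * k)).Quotient) = (({x.1} : Multiset Ω) :) := rfl

theorem Base.cl_add_cl_eq_zero (B : Base S k W) {x y : W}
    (h : x.1 * y.1 = (p : Ω) ^ (2 * k)) : B.cl x + B.cl y = 0 := by
  ext
  rw [AddUnits.val_add, B.cl_val, B.cl_val, ← AddCon.coe_add, AddUnits.val_zero,
    ← AddCon.coe_zero, AddCon.eq]
  exact B.pair_con x.2 y.2 h

theorem Base.cl_eq_of_pow (B : Base S k W) {x y : W} {s : ℕ} (hs : 0 < s)
    (h : x.1 ^ s = y.1 ^ s) : B.cl x = B.cl y := by
  have key : ∀ {x y : W}, x.1 ^ s = y.1 ^ s → ∀ l, RelA S (2 * k) ({x.1} + l) →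
      RelA S (2 * k) ({y.1} + l) := by
    intro x y h l hl
    have hx0 := B.ne_zero x.2
    have h1 := B.pair _ (B.conj x.2) y.1 y.2 s hs (by
      rw [mul_pow, ← h, ← mul_pow, div_mul_cancel₀ _ hx0])
    refine B.cancel x.2 ?_
    have h2 := h1.add hl
    have e : ({(p : Ω) ^ (2 * k) / x.1, y.1} : Multiset Ω) + ({x.1} + l) =
        x.1 ::ₘ ((p : Ω) ^ (2 * k) / x.1) ::ₘ ({y.1} + l) := by
      simp only [Multiset.insert_eq_cons, ← Multiset.singleton_add]
      abel
    rwa [e] at h2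
  ext
  rw [B.cl_val, B.cl_val, AddCon.eq]
  exact fun l => ⟨key h l, key h.symm l⟩

theorem Base.base_mul (B : Base S k W) : (p : Ω) ^ k * (p : Ω) ^ k = (p : Ω) ^ (2 * k) := by
  rw [two_mul, pow_add]

/-- The class of the square root of `q`. -/
noncomputable def Base.th (B : Base S k W) : AddUnits (relCon S (2 * k)).Quotient :=
  B.cl ⟨(p : Ω) ^ k, B.base⟩

theorem Base.th_add_th (B : Base S k W) : B.th + B.th = 0 :=
  B.cl_add_cl_eq_zero (x := ⟨(p : Ω) ^ k, B.base⟩) (y := ⟨(p : Ω) ^ k, B.base⟩)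
    (by rw [two_mul, pow_add])

/-- The four-term relations. -/
theorem Base.cl_add' (B : Base S k W) {x y w : W} {s : ℕ} (hs : 0 < s)
    (h : (x.1 * y.1) ^ s = (w.1 * (p : Ω) ^ k) ^ s) :
    B.cl x + B.cl y = B.cl w + B.th := by
  have hw0 := B.ne_zero w.2
  have hp : (p : Ω) ≠ 0 := Nat.cast_ne_zero.2 (Fact.out : p.Prime).ne_zero
  let w' : W := ⟨(p : Ω) ^ (2 * k) / w.1, B.conj w.2⟩
  have h1 : RelA S (2 * k) {x.1, y.1, w'.1, (p : Ω) ^ k} := by
    refine B.four x.1 x.2 y.1 y.2 w'.1 w'.2 s hs ?_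
    rw [mul_pow, h, ← mul_pow]
    congr 1
    simp only [w']
    field_simp
    ring
  have h3 : B.cl x + B.cl y + B.cl w' + B.th = 0 := by
    have hx' : RelA S (2 * k) {(p : Ω) ^ (2 * k) / x.1, (p : Ω) ^ (2 * k) / y.1, w.1,
        (p : Ω) ^ k} := by
      refine B.four _ (B.conj x.2) _ (B.conj y.2) w.1 w.2 s hs ?_
      rw [div_mul_div_comm, mul_pow, div_pow, h, ← div_pow, ← mul_pow]
      congr 1
      field_simp
      ring
    ext
    simp only [AddUnits.val_add, AddUnits.val_zero]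
    rw [B.cl_val, B.cl_val, B.cl_val, Base.th, B.cl_val, ← AddCon.coe_add, ← AddCon.coe_add,
      ← AddCon.coe_add, ← AddCon.coe_zero, AddCon.eq]
    intro l
    rw [zero_add]
    constructor
    · intro hl
      -- cancel everything with the conjugate relation
      have h4 := hx'.add hl
      have hwc : (p : Ω) ^ (2 * k) / w'.1 = w.1 := by
        simp only [w']
        rw [div_div_cancel₀ (pow_ne_zero (2 * k) hp)]
      refine B.cancel x.2 (B.cancel y.2 (B.cancel w'.2 (B.cancel B.base ?_)))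
      rw [hwc, ← B.base_mul, mul_div_cancel_left₀ _ (pow_ne_zero k hp), B.base_mul]
      have e : ({(p : Ω) ^ (2 * k) / x.1, (p : Ω) ^ (2 * k) / y.1, w.1, (p : Ω) ^ k} :
          Multiset Ω) + ({x.1} + {y.1} + {w'.1} + {(p : Ω) ^ k} + l) =
          (p : Ω) ^ k ::ₘ (p : Ω) ^ k ::ₘ w'.1 ::ₘ w.1 ::ₘ y.1 ::ₘ
            ((p : Ω) ^ (2 * k) / y.1) ::ₘ x.1 ::ₘ ((p : Ω) ^ (2 * k) / x.1) ::ₘ l := by
        simp only [Multiset.insert_eq_cons, ← Multiset.singleton_add]
        abel
      rwa [e] at h4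
    · intro hl
      have h4 := h1.add hl
      have e : ({x.1, y.1, w'.1, (p : Ω) ^ k} : Multiset Ω) + l =
          {x.1} + {y.1} + {w'.1} + {(p : Ω) ^ k} + l := by
        simp only [Multiset.insert_eq_cons, ← Multiset.singleton_add]
        abel
      rwa [e] at h4
  have h4 : B.cl w + B.cl w' = 0 := B.cl_add_cl_eq_zero (by
    simp only [w']
    rw [mul_div_cancel₀]
    exact hw0)
  have h5 := B.th_add_th
  have e1 : B.cl w' = - B.cl w := eq_neg_of_add_eq_zero_right h4
  have e2 : B.th = - B.th := eq_neg_of_add_eq_zero_left h5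
  rw [e1] at h3
  calc B.cl x + B.cl y = (B.cl x + B.cl y + - B.cl w + B.th) + B.cl w + - B.th := by abel
    _ = B.cl w + B.th := by rw [h3, ← e2, zero_add]

theorem Base.cl_add (B : Base S k W) {x y w : W} (h : x.1 * y.1 = w.1 * (p : Ω) ^ k) :
    B.cl x + B.cl y = B.cl w + B.th :=
  B.cl_add' one_pos (by rw [h])

/-- A multiset of elements of `W` whose classes have sum zero is a relation. -/
theorem Base.rel_of_sum (B : Base S k W) (l : List W) (h : (l.map B.cl).sum = 0) :
    RelA S (2 * k) ((l.map Subtype.val : List Ω) : Multiset Ω) := by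
  refine relCon_zero ?_
  rw [← AddCon.eq, AddCon.coe_zero]
  have key : ∀ l : List W, (((l.map Subtype.val : List Ω) : Multiset Ω) :
      (relCon S (2 * k)).Quotient) =
      (((l.map B.cl).sum : AddUnits (relCon S (2 * k)).Quotient) :
        (relCon S (2 * k)).Quotient) := by
    intro l
    induction l with
    | nil => rfl
    | cons x l ih =>
      rw [List.map_cons, List.map_cons, List.sum_cons, AddUnits.val_add, ← ih, B.cl_val,
        ← AddCon.coe_add]
      rfl
  rw [key, h]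
  rfl

end Pool.Agent.V8H94.CT
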